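import Pool.Agent.Lib.MP_7ab245_nt.Cnt4.Z4
import Pool.Agent.Lib.MP_7ab245_nt.Cnt3.Small
import Pool.Agent.Lib.MP_7ab245_nt.Cnt3.Fin3

/-!
C4-All4: polynomials without a divisor of Mahler measure one (except the units).

PROOF. As `small` in Cnt3/Small.lean (read it). `T = 1`: `F ⊆ {1, -1}` (see fin3 in Cnt3/Fin3.lean). `T > 1`: `t := log T > 0`, `L := log (2n) ≥ 1/2`, Dobrowolski (`Mono.dobrowolski`): `δ := c / L³ ≤ log M(h)` for `M(h) > 1`, deg `≤ n`.
`H` := the irreducible `h` of degree `≤ n` with `1 < M(h) ≤ T`. `R := ⌊1/δ⌋₊`, `m := ⌊t/δ⌋₊`. `C1, B` from z4 (use `B' := max B 1`), `a := B' T² √(n/t)`, `b := B' T² √(t/n)`: `a ≥ B' T²` as `t ≤ n`, `a b = B'² T⁴`,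
`a t + b n = 2 B' T² √(n t)`. `Q := ∑_{h ∈ H} wt a b h ≤ C1 (n (R+1))^11 ≤ exp (K1 L)`. card_le, mem_AA (Cnt3/Weight.lean) with `τ := t`: `|F| ≤ exp (a t + b n) ∑_{i ≤ m} 2 Q^i ≤ exp (2 B' T² √(n t)) * 2 exp (m + m K1 L)` and
`m (1 + K1 L) ≤ C2 t L⁴ ≤ C3 T² √(n t)`: `√t ≤ T²` (`t ≤ T ≤ T⁴`) and `L⁴ ≤ C √n` (log_pow_seven-like: `log x ≤ 8 x^(1/8)`).
-/

set_option autoImplicit false

open Polynomial Finset

namespace Pool.Agent.Lib.MP_7ab245_nt.Cnt4

open Pool.Agent.Lib.MP_7ab245_nt Pool.Agent.Lib.MP_7ab245_nt.Cnt3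

private theorem all4_log8 {x : ℝ} (hx : 1 ≤ x) : Real.log x ^ 8 ≤ 8 ^ 8 * x := by
  have h1 : Real.log x = 8 * Real.log (x ^ (1 / 8 : ℝ)) := by
    rw [Real.log_rpow (by linarith)]
    ring
  have h2 : 1 ≤ x ^ (1 / 8 : ℝ) := Real.one_le_rpow hx (by norm_num)
  have h3 : 0 ≤ Real.log (x ^ (1 / 8 : ℝ)) := Real.log_nonneg h2
  have h4 : Real.log (x ^ (1 / 8 : ℝ)) ≤ x ^ (1 / 8 : ℝ) := by
    have := Real.log_le_sub_one_of_pos (lt_of_lt_of_le one_pos h2)
    linarith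
  calc Real.log x ^ 8 = 8 ^ 8 * Real.log (x ^ (1 / 8 : ℝ)) ^ 8 := by rw [h1]; ring
    _ ≤ 8 ^ 8 * (x ^ (1 / 8 : ℝ)) ^ 8 := by gcongr
    _ = 8 ^ 8 * x := by
        rw [← Real.rpow_natCast (x ^ (1 / 8 : ℝ)) 8, ← Real.rpow_mul (by linarith)]
        norm_num

/-- `t L ^ 4 ≤ 8192 T² √(n t)`, `L = log (2 n)` -/
private theorem all4_tL4 (n : ℕ) (t T : ℝ) (hn : 1 ≤ n) (ht : 0 ≤ t) (hT : 1 ≤ T) (htT : t ≤ T) :
    t * Real.log (2 * n) ^ 4 ≤ 8192 * (T ^ 2 * √(n * t)) := by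
  have hn0 : (1 : ℝ) ≤ n := by exact_mod_cast hn
  have hL : 0 ≤ Real.log (2 * n) := Real.log_nonneg (by linarith)
  have h1 := all4_log8 (x := 2 * n) (by linarith)
  set L := Real.log (2 * n) with hLdef
  have hT4 : T ≤ T ^ 4 := by
    have : (1 : ℝ) ≤ T ^ 3 := one_le_pow₀ hT
    nlinarith
  have h0 : (8 : ℝ) ^ 8 * (2 * n) ≤ 8192 ^ 2 * n := by linarith
  have h2 : (t * L ^ 4) ^ 2 ≤ (8192 * T ^ 2) ^ 2 * (n * t) := by
    calc (t * L ^ 4) ^ 2 = t * (t * L ^ 8) := by ring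
      _ ≤ T ^ 4 * (t * (8 ^ 8 * (2 * n))) := by
          gcongr
          linarith
      _ ≤ T ^ 4 * (t * (8192 ^ 2 * n)) :=
          mul_le_mul_of_nonneg_left (mul_le_mul_of_nonneg_left h0 ht) (by positivity)
      _ = (8192 * T ^ 2) ^ 2 * (n * t) := by ring
  have h4 : t * L ^ 4 = √((t * L ^ 4) ^ 2) := (Real.sqrt_sq (by positivity)).symm
  rw [h4]
  calc √((t * L ^ 4) ^ 2) ≤ √((8192 * T ^ 2) ^ 2 * (n * t)) := Real.sqrt_le_sqrt h2
    _ = 8192 * (T ^ 2 * √(n * t)) := by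
        rw [Real.sqrt_mul (by positivity), Real.sqrt_sq (by positivity)]
        ring

private theorem all4_q (n : ℕ) (R L c C1 : ℝ) (hn : 1 ≤ n) (hL : L = Real.log (2 * n))
    (hL2 : 1 / 2 ≤ L) (hc : 0 < c) (hc1 : c ≤ 1) (hC1 : 0 < C1) (hR0 : 0 ≤ R)
    (hR : R ≤ L ^ 3 / c) :
    C1 * (n * (R + 1)) ^ 11 ≤
      Real.exp ((22 + 2 * max (Real.log (C1 * (7 / c) ^ 11)) 0) * L) := by
  have hn0 : (1 : ℝ) ≤ n := by exact_mod_cast hn
  have hLpos : 0 < L := by linarith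
  have h1 : (n : ℝ) ≤ Real.exp L := by
    rw [hL, Real.exp_log (by positivity)]
    linarith
  have h2 : R + 1 ≤ 7 / c * Real.exp L := by
    have h3 : L ^ 3 ≤ 6 * Real.exp L := by
      have h4 := Real.pow_div_factorial_le_exp L hLpos.le 3
      have h5 : ((3 : ℕ).factorial : ℝ) = 6 := by norm_num [Nat.factorial]
      rw [h5] at h4
      linarith
    have h6 : 1 ≤ Real.exp L := Real.one_le_exp hLpos.le
    calc R + 1 ≤ L ^ 3 / c + 1 / c := by
          have : (1 : ℝ) ≤ 1 / c := by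
            rw [le_div_iff₀ hc]
            linarith
          linarith
      _ = (L ^ 3 + 1) / c := by ring
      _ ≤ (7 * Real.exp L) / c := by
          gcongr
          linarith
      _ = 7 / c * Real.exp L := by ring
  set K2 := max (Real.log (C1 * (7 / c) ^ 11)) 0 with hK2
  have hK20 : 0 ≤ K2 := le_max_right _ _
  have h3 : C1 * (7 / c) ^ 11 ≤ Real.exp (2 * K2 * L) := by
    calc C1 * (7 / c) ^ 11 = Real.exp (Real.log (C1 * (7 / c) ^ 11)) := by
          rw [Real.exp_log (by positivity)]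
      _ ≤ Real.exp K2 := Real.exp_le_exp.mpr (le_max_left _ _)
      _ ≤ Real.exp (2 * K2 * L) := by
          apply Real.exp_le_exp.mpr
          nlinarith
  calc C1 * (n * (R + 1)) ^ 11 ≤ C1 * (Real.exp L * (7 / c * Real.exp L)) ^ 11 := by gcongr
    _ = (C1 * (7 / c) ^ 11) * Real.exp L ^ 22 := by ring
    _ ≤ Real.exp (2 * K2 * L) * Real.exp L ^ 22 := by gcongr
    _ = Real.exp ((22 + 2 * K2) * L) := by
        rw [← Real.exp_nat_mul, ← Real.exp_add]
        congr 1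
        push_cast
        ring

theorem all4 : ∃ C : ℝ, 0 < C ∧ ∀ (n : ℕ) (T : ℝ), 1 ≤ n → 1 ≤ T → Real.log T ≤ n →
    ∀ F : Finset ℤ[X], (∀ g ∈ F, g.natDegree ≤ n ∧
      Pool.Agent.Lib.MP_7ab245_nt.MM g ≤ T ∧ NC g) →
    (F.card : ℝ) ≤ 2 * Real.exp (C * (T ^ 2 * √(n * Real.log T))) := by
  classical
  obtain ⟨c0, hc0, hdob⟩ := Mono.dobrowolski
  obtain ⟨C1, B, hC1, hB, hz4⟩ := z4
  set c := min c0 1 with hc
  have hcpos : 0 < c := lt_min hc0 one_pos
  have hc1 : c ≤ 1 := min_le_right _ _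
  set K1 := 22 + 2 * max (Real.log (C1 * (7 / c) ^ 11)) 0 with hK1
  have hK1pos : 0 < K1 := by
    have : 0 ≤ max (Real.log (C1 * (7 / c) ^ 11)) 0 := le_max_right _ _
    linarith
  refine ⟨2 * B + 8192 * ((2 + K1) / c), by positivity, ?_⟩
  intro n T hn hT hTn F hF
  have hn0 : (1 : ℝ) ≤ n := by exact_mod_cast hn
  rcases eq_or_lt_of_le hT with hT1 | hT1
  · -- T = 1
    have hsub : F ⊆ {1, -1} := by
      intro g hg
      obtain ⟨-, h3, h4⟩ := hF g hg
      have h5 : Pool.Agent.Lib.MP_7ab245_nt.MM g = 1 :=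
        le_antisymm (h3.trans_eq hT1.symm) (MM_one_le (NC_ne_zero h4))
      have h6 := unit_mem ∅ (h4 g dvd_rfl h5)
      simpa [AA] using h6
    have h3 : F.card ≤ 2 := (Finset.card_le_card hsub).trans Finset.card_le_two
    have h4 : (F.card : ℝ) ≤ 2 := by exact_mod_cast h3
    have h5 : 1 ≤ Real.exp ((2 * B + 8192 * ((2 + K1) / c)) * (T ^ 2 * √(n * Real.log T))) :=
      Real.one_le_exp (by positivity)
    linarith
  set t := Real.log T with htdef
  have ht : 0 < t := Real.log_pos hT1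
  have htT : t ≤ T := by
    have := Real.log_le_sub_one_of_pos (show 0 < T by linarith)
    linarith
  set L := Real.log (2 * n) with hL
  have hL2 : (1 / 2 : ℝ) ≤ L :=
    log_two_ge.trans (Real.log_le_log (by norm_num) (by linarith))
  have hLpos : 0 < L := by linarith
  set δ := c / L ^ 3 with hδ
  have hδpos : 0 < δ := by positivity
  have hlow : ∀ h : ℤ[X], h.natDegree ≤ n → 1 < Pool.Agent.Lib.MP_7ab245_nt.MM h →
      δ ≤ Real.log (Pool.Agent.Lib.MP_7ab245_nt.MM h) := by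
    intro h hd h1
    have h2 := hdob h (max n 2) (le_max_right _ _) (hd.trans (le_max_left _ _)) h1
    refine le_trans ?_ h2
    have h3 : Real.log ((max n 2 : ℕ) : ℝ) ≤ L := by
      apply Real.log_le_log
      · have : (2 : ℕ) ≤ max n 2 := le_max_right _ _
        have h4 : (2 : ℝ) ≤ ((max n 2 : ℕ) : ℝ) := by exact_mod_cast this
        linarith
      · have : max n 2 ≤ 2 * n := by omega
        exact_mod_cast this
    have h4 : 0 < Real.log ((max n 2 : ℕ) : ℝ) := by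
      apply Real.log_pos
      have : (2 : ℕ) ≤ max n 2 := le_max_right _ _
      have h4 : (2 : ℝ) ≤ ((max n 2 : ℕ) : ℝ) := by exact_mod_cast this
      linarith
    rw [hδ]
    have h5 : c ≤ c0 := min_le_left _ _
    gcongr
  set R := ⌊1 / δ⌋₊ with hR
  set m := ⌊t / δ⌋₊ with hm
  have hRle : (R : ℝ) ≤ 1 / δ := Nat.floor_le (by positivity)
  have hmle : (m : ℝ) ≤ t / δ := Nat.floor_le (by positivity)
  have hmlt : t < δ * (m + 1) := by
    have := Nat.lt_floor_add_one (t / δ)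
    rw [div_lt_iff₀ hδpos] at this
    linarith
  -- the set of irreducible polynomials
  set H := (Polynomial.finite_mahlerMeasure_le n T.toNNReal).toFinset.filter
    (fun h => Irreducible h ∧ 1 < Pool.Agent.Lib.MP_7ab245_nt.MM h) with hHdef
  have hHmem : ∀ h : ℤ[X], h ∈ H ↔ (h.natDegree ≤ n ∧ Pool.Agent.Lib.MP_7ab245_nt.MM h ≤ T) ∧
      (Irreducible h ∧ 1 < Pool.Agent.Lib.MP_7ab245_nt.MM h) := by
    intro h
    rw [hHdef, mem_filter, Set.Finite.mem_toFinset, Set.mem_ofPred_eq,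
      Real.coe_toNNReal T (by linarith)]
  have hH : ∀ h : ℤ[X], Irreducible h → h.natDegree ≤ n → 1 < Pool.Agent.Lib.MP_7ab245_nt.MM h →
      Real.log (Pool.Agent.Lib.MP_7ab245_nt.MM h) ≤ t → h ∈ H := by
    intro h hirr hd h1 hlt
    rw [hHmem]
    have h2 : Pool.Agent.Lib.MP_7ab245_nt.MM h ≤ T := by
      rw [← Real.log_le_log_iff (by linarith) (by linarith)]
      exact hlt
    exact ⟨⟨hd, h2⟩, hirr, h1⟩
  set a := B * T ^ 2 * √(n / t) with ha
  set b := B * T ^ 2 * √(t / n) with hb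
  have ha0 : 0 ≤ a := by positivity
  have hb0 : 0 < b := by positivity
  have hsq : √(n / t) * √(t / n) = 1 := by
    rw [← Real.sqrt_mul (by positivity)]
    have : (n : ℝ) / t * (t / n) = 1 := by
      field_simp
    rw [this, Real.sqrt_one]
  have hsq1 : 1 ≤ √((n : ℝ) / t) := by
    rw [Real.one_le_sqrt, le_div_iff₀ ht]
    linarith
  have hZ : ∑ h ∈ H, wt a b h ≤ C1 * ((n : ℝ) * (R + 1)) ^ 11 := by
    apply hz4 n R T a b hn hT hTn hb0
    · rw [ha]
      have : 0 ≤ B * T ^ 2 := by positivity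
      nlinarith
    · have : a * b = B ^ 2 * T ^ 4 * (√(n / t) * √(t / n)) := by rw [ha, hb]; ring
      rw [this, hsq, mul_one]
    · intro h hh
      rw [hHmem] at hh
      obtain ⟨⟨hd, h2⟩, hirr, h1⟩ := hh
      refine ⟨hirr, hd, h1, h2, ?_⟩
      apply Nat.floor_le_floor
      have h3 := hlow h hd h1
      exact one_div_le_one_div_of_le hδpos h3
  have hcard := card_le n m a b t ha0 hb0.le H F (by
    intro h hh
    rw [hHmem] at hh
    exact hh.2.1.ne_zero) (by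
    intro g hg
    obtain ⟨h2, h3, h4⟩ := hF g hg
    have h1 : g ≠ 0 := NC_ne_zero h4
    have h3' : Real.log (Pool.Agent.Lib.MP_7ab245_nt.MM g) ≤ t :=
      Real.log_le_log (MM_pos h1) h3
    refine ⟨h2, h3', ?_⟩
    exact mem_AA n δ t H hlow hH m g h1 h4 h2 h3' (lt_of_le_of_lt h3' hmlt))
  set S := T ^ 2 * √(n * t) with hS
  have hS0 : 0 ≤ S := by positivity
  have hlin : a * t + b * n = 2 * B * S := by
    have h := lin_term (B * T ^ 2) 1 n t one_pos (by linarith) ht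
    simp only [mul_one] at h
    rw [ha, hb, h, hS]
    ring
  rw [hlin] at hcard
  -- the second factor
  have hZ0 : 0 ≤ ∑ h ∈ H, wt a b h := Finset.sum_nonneg fun h _ => (wt_pos a b h).le
  have hQ : ∑ h ∈ H, wt a b h ≤ Real.exp (K1 * L) := by
    refine hZ.trans ?_
    apply all4_q n R L c C1 hn hL hL2 hcpos hc1 hC1 (Nat.cast_nonneg _)
    refine hRle.trans (le_of_eq ?_)
    rw [hδ, one_div, inv_div]
  have hsum : ∑ i ∈ range (m + 1), 2 * (∑ h ∈ H, wt a b h) ^ i ≤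
      2 * Real.exp (m + m * (K1 * L)) := by
    calc ∑ i ∈ range (m + 1), 2 * (∑ h ∈ H, wt a b h) ^ i
        ≤ ∑ _i ∈ range (m + 1), 2 * Real.exp (K1 * L) ^ m := by
          refine Finset.sum_le_sum fun i hi => ?_
          have hi' : i ≤ m := Nat.lt_succ_iff.mp (Finset.mem_range.mp hi)
          have h1 : (∑ h ∈ H, wt a b h) ^ i ≤ Real.exp (K1 * L) ^ i := by gcongr
          have h2 : Real.exp (K1 * L) ^ i ≤ Real.exp (K1 * L) ^ m :=
            pow_le_pow_right₀ (Real.one_le_exp (by positivity)) hi'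
          linarith
      _ = 2 * ((m + 1) * Real.exp (K1 * L) ^ m) := by
          rw [Finset.sum_const, Finset.card_range, nsmul_eq_mul]
          push_cast
          ring
      _ ≤ 2 * (Real.exp m * Real.exp (K1 * L) ^ m) := by
          have := Real.add_one_le_exp (m : ℝ)
          gcongr
      _ = 2 * Real.exp (m + m * (K1 * L)) := by
          rw [← Real.exp_nat_mul, ← Real.exp_add]
  have hfin : (m : ℝ) + m * (K1 * L) ≤ 8192 * ((2 + K1) / c) * S := by
    have h1 := all4_tL4 n t T hn ht.le hT htT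
    rw [← hL, ← hS] at h1
    have h2 : (m : ℝ) ≤ t * L ^ 3 / c := by
      refine hmle.trans (le_of_eq ?_)
      rw [hδ]
      field_simp
    have h3 : (m : ℝ) ≤ 2 * (m * L) := by
      have : (0 : ℝ) ≤ m := Nat.cast_nonneg _
      nlinarith
    calc (m : ℝ) + m * (K1 * L) ≤ (2 + K1) * (m * L) := by nlinarith
      _ ≤ (2 + K1) * (t * L ^ 3 / c * L) := by gcongr
      _ = (2 + K1) / c * (t * L ^ 4) := by ring
      _ ≤ (2 + K1) / c * (8192 * S) := by gcongr
      _ = 8192 * ((2 + K1) / c) * S := by ring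
  calc (F.card : ℝ) ≤ Real.exp (2 * B * S) * ∑ i ∈ range (m + 1), 2 * (∑ h ∈ H, wt a b h) ^ i :=
        hcard
    _ ≤ Real.exp (2 * B * S) * (2 * Real.exp (m + m * (K1 * L))) := by gcongr
    _ ≤ Real.exp (2 * B * S) * (2 * Real.exp (8192 * ((2 + K1) / c) * S)) := by gcongr
    _ = 2 * Real.exp ((2 * B + 8192 * ((2 + K1) / c)) * S) := by
        rw [show Real.exp (2 * B * S) * (2 * Real.exp (8192 * ((2 + K1) / c) * S)) =
          2 * (Real.exp (2 * B * S) * Real.exp (8192 * ((2 + K1) / c) * S)) by ring,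
          ← Real.exp_add]
        congr 2
        ring

end Pool.Agent.Lib.MP_7ab245_nt.Cnt4
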