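import Pool.Agent.Lib.MP_7ab245_nt.Cnt4.Hs
import Pool.Agent.Lib.MP_7ab245_nt.Blk.Factors

/-!
C4-Cross: the mutual energy of two different irreducible polynomials.

PROOF. `α`, `β` the zeros (exists_roots). Not associated: associated polynomials differ by a unit `±1` of `ℤ[X]`, the leading
coefficients are positive, so `f = g` (see `eq_of_assoc` in Cnt/Choose.lean, private: copy). So `f` does not divide `g`
(`Irreducible.associated_of_dvd`), and `resultant_ne_zero_irr` (Blk/Factors.lean): `R := resultant f g d d ≠ 0`, `1 ≤ |R|`. `resultant_eq_prod_eval` (see the use in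
`prime_eval_bound`, Blk/Factors.lean): `|R| = |lc f|^d ∏_i |g(α i)|`, `|g(α i)| = |lc g| ∏_j |α i - β j|`. So `α i ≠ β j` for all `i, j` and
`0 ≤ log |R| = d log |lc f| + d log |lc g| + ∑_i ∑_j log |α i - β j|`.
`ker_refl_le s hs.le (α i) (β j) (hne)` (used in Cnt/Energy.lean): `ker s (refl (α i)) (refl (β j)) ≤ s + log⁺|α i| + log⁺|β j| - log |α i - β j|`. Sum:
`KK s f g ≤ d² s + d hh α + d hh β + d log |lc f| + d log |lc g| = d² s + d log M(f) + d log M(g)` (`log_MM` in Cnt/Energy.lean, private: copy).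
-/

set_option autoImplicit false

open Finset

namespace Pool.Agent.Lib.MP_7ab245_nt.Cnt4

open Pool.Agent.Lib.MP_7ab245_nt.LogVar Pool.Agent.Lib.MP_7ab245_nt.Cnt
open Pool.Agent.Lib.MP_7ab245_nt.Len

private lemma cr_assoc {f g : Polynomial ℤ} (h : Associated f g) (hf : 0 < f.leadingCoeff)
    (hg : 0 < g.leadingCoeff) : f = g := by
  obtain ⟨u, hu⟩ := h
  obtain ⟨r, hr, hru⟩ := Polynomial.isUnit_iff.mp u.isUnit
  rw [← hru] at hu
  have h1 : f.leadingCoeff * r = g.leadingCoeff := by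
    rw [← hu, Polynomial.leadingCoeff_mul, Polynomial.leadingCoeff_C]
  rcases Int.isUnit_iff.mp hr with h2 | h2
  · rw [← hu, h2, map_one, mul_one]
  · exfalso
    rw [h2] at h1
    linarith

private lemma cr_MM (f : Polynomial ℤ) (hf : f ≠ 0) {n : ℕ} (α : Fin n → ℂ)
    (hα : (cx f).roots = univ.val.map α) :
    Real.log (MM f) = Real.log |(f.leadingCoeff : ℝ)| + hh α := by
  unfold MM
  rw [Polynomial.mahlerMeasure_eq_leadingCoeff_mul_prod_roots]
  have h1 : ‖(cx f).leadingCoeff‖ = |(f.leadingCoeff : ℝ)| := by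
    unfold cx
    rw [Polynomial.leadingCoeff_map_of_injective (RingHom.injective_int _), eq_intCast,
      Complex.norm_intCast]
  have h2 : ((cx f).roots.map (fun a => max 1 ‖a‖)).prod = ∏ i, max 1 ‖α i‖ := by
    rw [hα, Multiset.map_map]
    rfl
  have h3 : (f.leadingCoeff : ℝ) ≠ 0 := by
    exact_mod_cast Polynomial.leadingCoeff_ne_zero.mpr hf
  have h4 : ∀ i, (0 : ℝ) < max 1 ‖α i‖ := fun i => lt_of_lt_of_le one_pos (le_max_left _ _)
  rw [h1, h2, Real.log_mul (abs_ne_zero.mpr h3) (Finset.prod_pos fun i _ => h4 i).ne',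
    Real.log_prod (fun i _ => (h4 i).ne')]
  unfold hh
  congr 1
  exact Finset.sum_congr rfl fun i _ => (Real.posLog_eq_log_max_one (norm_nonneg _)).symm

private lemma cr_eval (g : Polynomial ℤ) {n : ℕ} (β : Fin n → ℂ)
    (hβ : (cx g).roots = univ.val.map β) (z : ℂ) :
    ‖(cx g).eval z‖ = |(g.leadingCoeff : ℝ)| * ∏ j, ‖z - β j‖ := by
  have hs : (cx g).Splits := IsAlgClosed.splits _
  have h1 := hs.eq_prod_roots
  have h2 : ‖(cx g).leadingCoeff‖ = |(g.leadingCoeff : ℝ)| := by
    unfold cx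
    rw [Polynomial.leadingCoeff_map_of_injective (RingHom.injective_int _), eq_intCast,
      Complex.norm_intCast]
  conv_lhs => rw [h1]
  rw [Polynomial.eval_mul, Polynomial.eval_C, norm_mul, h2, hβ, Multiset.map_map,
    Polynomial.eval_multiset_prod, Multiset.map_map]
  congr 1
  have h3 : (Multiset.map (Polynomial.eval z ∘ (fun a => Polynomial.X - Polynomial.C a) ∘ β)
      univ.val).prod = ∏ j, (z - β j) := by
    refine Finset.prod_congr rfl fun j _ => ?_
    simp
  rw [← norm_prod]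
  congr 1

theorem cross (f g : Polynomial ℤ) (d : ℕ) (hd : 1 ≤ d) (hf : Irreducible f) (hg : Irreducible g)
    (hfd : f.natDegree = d) (hgd : g.natDegree = d) (hfl : 0 < f.leadingCoeff)
    (hgl : 0 < g.leadingCoeff) (hne : f ≠ g) (s : ℝ) (hs : 0 < s) :
    KK s f g ≤ (d : ℝ) ^ 2 * s + d * Real.log (MM f) + d * Real.log (MM g) := by
  obtain ⟨α, hα⟩ := exists_roots f d hfd
  obtain ⟨β, hβ⟩ := exists_roots g d hgd
  have hnd : ¬ f ∣ g := fun h => hne (cr_assoc (hf.associated_of_dvd hg h) hfl hgl)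
  have hR := Pool.Agent.Lib.MP_7ab245_nt.Blk.resultant_ne_zero_irr f g hf (by omega) hnd d
    (by omega)
  set φ := Int.castRingHom ℂ with hφ
  have hinj : Function.Injective φ := φ.injective_int
  have hcxf : cx f = f.map φ := rfl
  have hcxg : cx g = g.map φ := rfl
  have hdeg : (cx f).natDegree = f.natDegree := by
    rw [hcxf]
    exact Polynomial.natDegree_map_eq_of_injective hinj f
  have hgdeg : (cx g).natDegree ≤ d := by
    rw [hcxg, Polynomial.natDegree_map_eq_of_injective hinj, hgd]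
  have hsp : (cx f).Splits := IsAlgClosed.splits _
  have key := Polynomial.resultant_eq_prod_eval (cx f) (cx g) d hgdeg hsp
  rw [hdeg, hcxf, hcxg, Polynomial.resultant_map_map] at key
  have h1 : (1 : ℝ) ≤ ‖φ (Polynomial.resultant f g f.natDegree d)‖ := by
    have : (1 : ℤ) ≤ |Polynomial.resultant f g f.natDegree d| := Int.one_le_abs hR
    have h2 : ‖φ (Polynomial.resultant f g f.natDegree d)‖ =
        |((Polynomial.resultant f g f.natDegree d : ℤ) : ℝ)| := by
      simp [hφ]
    rw [h2]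
    exact_mod_cast this
  rw [key, norm_mul, norm_pow, ← hcxf, ← hcxg] at h1
  have hlf : ‖(cx f).leadingCoeff‖ = |(f.leadingCoeff : ℝ)| := by
    unfold cx
    rw [Polynomial.leadingCoeff_map_of_injective (RingHom.injective_int _), eq_intCast,
      Complex.norm_intCast]
  have h2 : ‖(Multiset.map (fun x => Polynomial.eval x (cx g)) (cx f).roots).prod‖ =
      ∏ i, (|(g.leadingCoeff : ℝ)| * ∏ j, ‖α i - β j‖) := by
    rw [hα, Multiset.map_map]
    have h3 : (Multiset.map ((fun x => Polynomial.eval x (cx g)) ∘ α) univ.val).prod =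
        ∏ i, (cx g).eval (α i) := rfl
    rw [h3, norm_prod]
    exact Finset.prod_congr rfl fun i _ => cr_eval g β hβ (α i)
  rw [h2, hlf] at h1
  have hf0 : f ≠ 0 := hf.ne_zero
  have hg0 : g ≠ 0 := hg.ne_zero
  have hlf0 : 0 < |(f.leadingCoeff : ℝ)| := abs_pos.2 (by exact_mod_cast hfl.ne')
  have hlg0 : 0 < |(g.leadingCoeff : ℝ)| := abs_pos.2 (by exact_mod_cast hgl.ne')
  have hpi : ∀ i, 0 < |(g.leadingCoeff : ℝ)| * ∏ j, ‖α i - β j‖ := by
    intro i
    have h4 : 0 ≤ |(g.leadingCoeff : ℝ)| * ∏ j, ‖α i - β j‖ :=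
      mul_nonneg hlg0.le (prod_nonneg fun j _ => norm_nonneg _)
    rcases h4.eq_or_lt with h | h
    · exfalso
      rw [prod_eq_zero (mem_univ i) h.symm, mul_zero] at h1
      linarith
    · exact h
  have hij : ∀ i j, 0 < ‖α i - β j‖ := by
    intro i j
    rcases (norm_nonneg (α i - β j)).eq_or_lt with h | h
    · exfalso
      have h4 := hpi i
      rw [prod_eq_zero (mem_univ j) h.symm, mul_zero] at h4
      exact lt_irrefl _ h4
    · exact h
  have hlog : 0 ≤ d * Real.log |(f.leadingCoeff : ℝ)| + d * Real.log |(g.leadingCoeff : ℝ)| +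
      ∑ i, ∑ j, Real.log ‖α i - β j‖ := by
    have h3 := Real.log_nonneg h1
    rw [Real.log_mul (by positivity) (prod_pos fun i _ => hpi i).ne', Real.log_pow,
      Real.log_prod (fun i _ => (hpi i).ne')] at h3
    have h4 : ∑ i : Fin d, Real.log (|(g.leadingCoeff : ℝ)| * ∏ j, ‖α i - β j‖) =
        d * Real.log |(g.leadingCoeff : ℝ)| + ∑ i, ∑ j, Real.log ‖α i - β j‖ := by
      have h5 : ∀ i : Fin d, Real.log (|(g.leadingCoeff : ℝ)| * ∏ j, ‖α i - β j‖) =
          Real.log |(g.leadingCoeff : ℝ)| + ∑ j, Real.log ‖α i - β j‖ := by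
        intro i
        rw [Real.log_mul hlg0.ne' (prod_pos fun j _ => hij i j).ne',
          Real.log_prod (fun j _ => (hij i j).ne')]
      rw [Finset.sum_congr rfl fun i _ => h5 i, Finset.sum_add_distrib, Finset.sum_const,
        Finset.card_univ, Fintype.card_fin, nsmul_eq_mul]
    rw [h4] at h3
    linarith
  rw [KK_roots f g α β hα hβ s hs]
  have hk : ∑ i, ∑ j, ker s (refl (α i)) (refl (β j)) ≤
      ∑ i, ∑ j, (s - Real.log ‖α i - β j‖ + Real.posLog ‖α i‖ + Real.posLog ‖β j‖) :=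
    Finset.sum_le_sum fun i _ => Finset.sum_le_sum fun j _ =>
      ker_refl_le s hs.le (α i) (β j) (sub_ne_zero.1 (norm_pos_iff.1 (hij i j)))
  have hsum : ∑ i, ∑ j, (s - Real.log ‖α i - β j‖ + Real.posLog ‖α i‖ + Real.posLog ‖β j‖) =
      (d : ℝ) ^ 2 * s - ∑ i, ∑ j, Real.log ‖α i - β j‖ + d * hh α + d * hh β := by
    unfold hh
    simp only [Finset.sum_add_distrib, Finset.sum_sub_distrib, Finset.sum_const,
      Finset.card_univ, Fintype.card_fin, nsmul_eq_mul, ← Finset.mul_sum]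
    ring
  rw [cr_MM f hf0 α hα, cr_MM g hg0 β hβ]
  linarith

end Pool.Agent.Lib.MP_7ab245_nt.Cnt4
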