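import Mathlib
import Pool.Agent.Lib.MP_7ab245_nt.Cnt.Defs

/-!
Counting integer polynomials of bounded Mahler measure, bound without the logarithm of the degree:
definitions. Do not edit. Paper proof: `/team-store/C4_paper.md`.
-/

set_option autoImplicit false

open Finset

namespace Pool.Agent.Lib.MP_7ab245_nt.Cnt4

open Pool.Agent.Lib.MP_7ab245_nt.LogVar Pool.Agent.Lib.MP_7ab245_nt.Cnt

/-- the mutual energy of two polynomials -/
noncomputable def KK (s : ℝ) (f g : Polynomial ℤ) : ℝ :=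
  ∑' l : ℕ, Real.exp (-s * l) / l * (QQ l f * (starRingEnd ℂ) (QQ l g)).re

/-- the energy at the frequencies up to `N` -/
noncomputable def En (N : ℕ) (f : Polynomial ℤ) : ℝ := ∑ l ∈ Icc 1 N, ‖QQ l f‖ ^ 2 / l

/-- the energy of the product of the elements of `S` -/
noncomputable def EnS (N : ℕ) (S : Finset (Polynomial ℤ)) : ℝ :=
  ∑ l ∈ Icc 1 N, ‖∑ f ∈ S, QQ l f‖ ^ 2 / l

/-- the size of the mutual energies -/
noncomputable def e0 (d r : ℕ) (T : ℝ) : ℝ := 1 + d / r * (1 + Real.log T)

/-- `e0 * B0` bounds the energy of one polynomial -/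
noncomputable def B0 (d r : ℕ) : ℝ := 3 + r * Real.log (2 * d * r)

/-- the critical frequency -/
noncomputable def K0 (d r : ℕ) (T : ℝ) : ℝ := T ^ 2 * √(e0 d r T)

end Pool.Agent.Lib.MP_7ab245_nt.Cnt4
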