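import Pool.Agent.Lib.MP_7ab245_nt.Cnt4.Few

/-!
C4-Exc: removing few polynomials.

PROOF. `K := K0 d r T ≥ 1`. `G' := {f ∈ G : ∀ j ≤ d r, ∀ N ≤ d r, N ≤ K 256^j → En N f ≤ 60 * 64^j * e0}` (classical filter). For `f ∈ G'` the inequality holds for all `j`: for
`j > d r` use `j = d r` (`N ≤ d r ≤ 256^(d r) ≤ K 256^(d r)`).
For `j ≤ d r` let `N_j := min ⌊K 256^j⌋₊ (d r) ≥ 1`. If `f ∈ G \ G'` then for some `j ≤ d r`: `En N_j f > 60 * 64^j * e0` (En_mono), and for some `l`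
(`l := ⌊log₂ (En N_j f / (60 * 64^j e0))⌋`, or Nat.find / `exists_nat_pow_near`) with `A := 60 * 64^j * 2^l`: `A e0 ≤ En N_j f ≤ 2 A e0`. By en_le `A ≤ 3 B0`, so `l < 2^l ≤ 3 B0`.
For each of the `≤ (d r + 1)(3 B0 + 1) ≤ (d r + 1) 4 B0` pairs `(j, l)` (with `A ≤ 3 B0`) few bounds the number of `f` by `2 B0 * (3 B0)² * exp (14400 N_j log A / A²)`, and the exponent is `≤ 32 K`: `log A ≤ √A`,
`A √A ≥ 464 * 512^j` (`A ≥ 60 * 64^j`, `√60 ≥ 7.74`), `N_j ≤ K 256^j`. Sum: `(d r + 1) 4 B0 * 2 B0 * 9 B0² exp (32 K)`.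
(G \ G' is contained in the union (biUnion) of the filters over the pairs; card_biUnion_le.)
-/

set_option autoImplicit false

open Finset

namespace Pool.Agent.Lib.MP_7ab245_nt.Cnt4

open Pool.Agent.Lib.MP_7ab245_nt.LogVar Pool.Agent.Lib.MP_7ab245_nt.Cnt

private lemma exc_log (A : ℝ) (hA : 0 < A) : Real.log A ≤ √A := by
  have h1 : 0 < √A := Real.sqrt_pos.2 hA
  have h2 : Real.log A = 2 * Real.log (√A) := by
    rw [Real.log_sqrt hA.le]; ring
  have h3 : Real.log (√A) ≤ √A / Real.exp 1 := by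
    have h4 := Real.log_le_sub_one_of_pos (div_pos h1 (Real.exp_pos 1))
    rw [Real.log_div h1.ne' (Real.exp_pos 1).ne', Real.log_exp] at h4
    linarith
  have h5 : (2 : ℝ) ≤ Real.exp 1 := by
    have := Real.add_one_le_exp (1 : ℝ)
    linarith
  have h6 : √A / Real.exp 1 ≤ √A / 2 := div_le_div_of_nonneg_left h1.le (by norm_num) h5
  rw [h2]
  linarith

private lemma exc_exp (K N A : ℝ) (j : ℕ) (hK : 0 ≤ K) (hN : N ≤ K * 256 ^ j)
    (hA : 60 * 64 ^ j ≤ A) : 14400 * N * Real.log A / A ^ 2 ≤ 32 * K := by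
  have h0 : (0 : ℝ) < 64 ^ j := by positivity
  have hA0 : 0 < A := lt_of_lt_of_le (by positivity) hA
  obtain ⟨a, ha⟩ : ∃ a : ℝ, a = √A := ⟨_, rfl⟩
  have ha0 : 0 < a := by rw [ha]; exact Real.sqrt_pos.2 hA0
  have haa : a ^ 2 = A := by rw [ha]; exact Real.sq_sqrt hA0.le
  have hlog : Real.log A ≤ a := by rw [ha]; exact exc_log A hA0
  have h1 : (450 * 256 ^ j : ℝ) ≤ a ^ 3 := by
    have h2 : (450 * 256 ^ j : ℝ) ^ 2 ≤ (a ^ 3) ^ 2 := by
      have h3 : (60 * 64 ^ j : ℝ) ^ 3 ≤ (a ^ 2) ^ 3 :=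
        pow_le_pow_left₀ (by positivity) (by rw [haa]; exact hA) 3
      have h4 : (a ^ 3) ^ 2 = (a ^ 2) ^ 3 := by ring
      rw [h4]
      refine le_trans ?_ h3
      rw [mul_pow, mul_pow, ← pow_mul, ← pow_mul]
      have h5 : ((256 : ℝ) ^ (j * 2)) ≤ 64 ^ (j * 3) := by
        rw [mul_comm j 2, mul_comm j 3, pow_mul, pow_mul]
        exact pow_le_pow_left₀ (by norm_num) (by norm_num) j
      have h6 : (0 : ℝ) ≤ 64 ^ (j * 3) := by positivity
      nlinarith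
    exact le_of_sq_le_sq h2 (by positivity)
  have h2 : A ^ 2 = a ^ 4 := by rw [← haa]; ring
  rw [h2, div_le_iff₀ (by positivity)]
  have h256 : (0 : ℝ) < 256 ^ j := by positivity
  calc 14400 * N * Real.log A ≤ 14400 * (K * 256 ^ j) * a := by
        refine mul_le_mul (by linarith) hlog ?_ (by positivity)
        refine Real.log_nonneg ?_
        have : (1 : ℝ) ≤ 64 ^ j := one_le_pow₀ (by norm_num)
        linarith
    _ = 32 * K * ((450 * 256 ^ j) * a) := by ring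
    _ ≤ 32 * K * (a ^ 3 * a) := by gcongr
    _ = 32 * K * a ^ 4 := by ring

open Classical in
theorem exc (d r : ℕ) (T : ℝ) (hd : 1 ≤ d) (hr : 1 ≤ r) (hT : 1 ≤ T)
    (G : Finset (Polynomial ℤ)) (hG : ∀ f ∈ G, Ok d r T f) :
    ∃ G' ⊆ G, (∀ f ∈ G', ∀ j N : ℕ, N ≤ d * r → (N : ℝ) ≤ K0 d r T * 256 ^ j →
        En N f ≤ 60 * 64 ^ j * e0 d r T) ∧
      (G.card : ℝ) ≤ G'.card + 72 * (d * r + 1) * B0 d r ^ 4 * Real.exp (32 * K0 d r T) := by
  obtain ⟨K, hKd⟩ : ∃ K : ℝ, K = K0 d r T := ⟨_, rfl⟩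
  obtain ⟨e, hed⟩ : ∃ e : ℝ, e = e0 d r T := ⟨_, rfl⟩
  obtain ⟨B, hBd⟩ : ∃ B : ℝ, B = B0 d r := ⟨_, rfl⟩
  have hK : 1 ≤ K := by
    rw [hKd]
    exact le_trans (one_le_pow₀ hT) (K0_ge d r T hT)
  have he : 1 ≤ e := by rw [hed]; exact e0_ge d r T hT
  have hB : 3 ≤ B := by rw [hBd]; exact B0_ge d r hd hr
  have hD : 1 ≤ d * r := Nat.mul_pos hd hr
  rw [← hKd, ← hed, ← hBd]
  obtain ⟨Nj, hNj⟩ : ∃ Nj : ℕ → ℕ, ∀ j, Nj j = min ⌊K * 256 ^ j⌋₊ (d * r) := ⟨_, fun _ => rfl⟩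
  have hp : ∀ j : ℕ, (1 : ℝ) ≤ 256 ^ j := fun j => one_le_pow₀ (by norm_num)
  have hK256 : ∀ j : ℕ, (1 : ℝ) ≤ K * 256 ^ j := fun j => by
    have := hp j
    nlinarith
  have hNj1 : ∀ j, 1 ≤ Nj j := fun j => by
    rw [hNj, le_min_iff]
    exact ⟨Nat.le_floor (by rw [Nat.cast_one]; exact hK256 j), hD⟩
  have hNjD : ∀ j, Nj j ≤ d * r := fun j => by rw [hNj]; exact min_le_right _ _
  have hNjK : ∀ j, (Nj j : ℝ) ≤ K * 256 ^ j := fun j => by
    have h1 : Nj j ≤ ⌊K * 256 ^ j⌋₊ := by rw [hNj]; exact min_le_left _ _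
    have h2 : (Nj j : ℝ) ≤ (⌊K * 256 ^ j⌋₊ : ℝ) := by exact_mod_cast h1
    exact h2.trans (Nat.floor_le (by positivity))
  obtain ⟨L, hL⟩ : ∃ L : ℕ, L = ⌊3 * B⌋₊ := ⟨_, rfl⟩
  obtain ⟨AA, hAA⟩ : ∃ AA : ℕ × ℕ → ℝ, ∀ q, AA q = 60 * 64 ^ q.1 * 2 ^ q.2 := ⟨_, fun _ => rfl⟩
  obtain ⟨Fq, hFq⟩ : ∃ Fq : ℕ × ℕ → Finset (Polynomial ℤ), ∀ q, Fq q = G.filter fun f =>
      AA q ≤ 3 * B ∧ AA q * e ≤ En (Nj q.1) f ∧ En (Nj q.1) f ≤ 2 * AA q * e := ⟨_, fun _ => rfl⟩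
  refine ⟨G.filter fun f => ∀ j N : ℕ, N ≤ d * r → (N : ℝ) ≤ K * 256 ^ j →
    En N f ≤ 60 * 64 ^ j * e, filter_subset _ _, fun f hf => (mem_filter.1 hf).2, ?_⟩
  -- the number of elements of each exceptional set
  have hcard : ∀ q, ((Fq q).card : ℝ) ≤ 18 * B ^ 3 * Real.exp (32 * K) := by
    intro q
    rcases (Fq q).eq_empty_or_nonempty with h0 | ⟨f0, hf0⟩
    · rw [h0, card_empty, Nat.cast_zero]
      positivity
    · have h1 : AA q ≤ 3 * B := by
        rw [hFq, mem_filter] at hf0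
        exact hf0.2.1
      have h2 : 60 * 64 ^ q.1 ≤ AA q := by
        rw [hAA]
        have : (1 : ℝ) ≤ 2 ^ q.2 := one_le_pow₀ (by norm_num)
        have h3 : (0 : ℝ) < 60 * 64 ^ q.1 := by positivity
        nlinarith
      have h3 : 60 ≤ AA q := by
        refine le_trans ?_ h2
        have : (1 : ℝ) ≤ 64 ^ q.1 := one_le_pow₀ (by norm_num)
        linarith
      have h4 := few d r T hd hr hT (Nj q.1) (hNj1 q.1) (hNjD q.1) (AA q) h3 (Fq q)
        (fun f hf => hG f (by rw [hFq, mem_filter] at hf; exact hf.1))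
        (fun f hf => by rw [hFq, mem_filter] at hf; rw [← hed]; exact hf.2.2)
      rw [← hBd] at h4
      have h5 := exc_exp K (Nj q.1) (AA q) q.1 (by linarith) (hNjK q.1) h2
      refine h4.trans ?_
      have h6 : AA q ^ 2 ≤ (3 * B) ^ 2 := pow_le_pow_left₀ (by linarith) h1 2
      calc 2 * B * (AA q ^ 2 * Real.exp (14400 * (Nj q.1) * Real.log (AA q) / AA q ^ 2))
          ≤ 2 * B * ((3 * B) ^ 2 * Real.exp (32 * K)) := by
            refine mul_le_mul_of_nonneg_left ?_ (by linarith)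
            exact mul_le_mul h6 (Real.exp_le_exp.2 h5) (Real.exp_pos _).le (by positivity)
        _ = 18 * B ^ 3 * Real.exp (32 * K) := by ring
  -- the exceptional polynomials are in one of the sets
  have hcover : G ⊆ (G.filter fun f => ∀ j N : ℕ, N ≤ d * r → (N : ℝ) ≤ K * 256 ^ j →
      En N f ≤ 60 * 64 ^ j * e) ∪ ((range (d * r + 1)) ×ˢ (range (L + 1))).biUnion Fq := by
    intro f hf
    rw [mem_union]
    by_cases h : ∀ j N : ℕ, N ≤ d * r → (N : ℝ) ≤ K * 256 ^ j → En N f ≤ 60 * 64 ^ j * e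
    · exact Or.inl (mem_filter.2 ⟨hf, h⟩)
    · right
      push Not at h
      obtain ⟨j, N, hN, hNK, hlt⟩ := h
      -- reduce to j ≤ d r
      obtain ⟨j, hj, hlt⟩ : ∃ j : ℕ, j ≤ d * r ∧ 60 * 64 ^ j * e < En (Nj j) f := by
        by_cases hj : j ≤ d * r
        · refine ⟨j, hj, hlt.trans_le (En_mono f ?_)⟩
          rw [hNj, le_min_iff]
          exact ⟨Nat.le_floor hNK, hN⟩
        · push Not at hj
          refine ⟨d * r, le_rfl, lt_of_le_of_lt ?_ (hlt.trans_le (En_mono f ?_))⟩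
          · have h1 : (64 : ℝ) ^ (d * r) ≤ 64 ^ j := pow_le_pow_right₀ (by norm_num) hj.le
            nlinarith
          · rw [hNj, le_min_iff]
            refine ⟨Nat.le_floor ?_, hN⟩
            have h1 : N < 256 ^ (d * r) :=
              lt_of_le_of_lt hN (Nat.lt_pow_self (by norm_num))
            have h2 : (N : ℝ) ≤ 256 ^ (d * r) := by exact_mod_cast h1.le
            have h3 := hp (d * r)
            nlinarith
      have h64 : (0 : ℝ) < 60 * 64 ^ j * e := by positivity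
      have hx1 : 1 ≤ En (Nj j) f / (60 * 64 ^ j * e) := by
        rw [le_div_iff₀ h64, one_mul]
        exact hlt.le
      obtain ⟨k, hk1, hk2⟩ := exists_nat_pow_near hx1 (by norm_num : (1 : ℝ) < 2)
      rw [le_div_iff₀ h64] at hk1
      rw [div_lt_iff₀ h64] at hk2
      have hA1 : AA (j, k) * e ≤ En (Nj j) f := by
        rw [hAA]
        calc 60 * 64 ^ j * 2 ^ k * e = 2 ^ k * (60 * 64 ^ j * e) := by ring
          _ ≤ _ := hk1
      have hA2 : En (Nj j) f ≤ 2 * AA (j, k) * e := by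
        rw [hAA]
        calc En (Nj j) f ≤ 2 ^ (k + 1) * (60 * 64 ^ j * e) := hk2.le
          _ = 2 * (60 * 64 ^ j * 2 ^ k) * e := by rw [pow_succ]; ring
      have hA3 : AA (j, k) ≤ 3 * B := by
        have h1 := en_le d r T hd hr hT f (hG f hf) (Nj j) (hNjD j)
        rw [← hed, ← hBd] at h1
        have h2 : AA (j, k) * e ≤ (3 * B) * e := by
          calc AA (j, k) * e ≤ 3 * (e * B) := hA1.trans h1
            _ = (3 * B) * e := by ring
        exact le_of_mul_le_mul_right h2 (by linarith)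
      have hkL : k < L + 1 := by
        have h1 : (k : ℝ) ≤ 3 * B := by
          refine le_trans ?_ hA3
          rw [hAA]
          have h2 : (k : ℝ) ≤ 2 ^ k := by exact_mod_cast (Nat.lt_two_pow_self (n := k)).le
          have h3 : (1 : ℝ) ≤ 64 ^ j := one_le_pow₀ (by norm_num)
          have h4 : (0 : ℝ) < 2 ^ k := by positivity
          calc (k : ℝ) ≤ 1 * 1 * 2 ^ k := by linarith
            _ ≤ 60 * 64 ^ j * 2 ^ k := by gcongr; norm_num
        have h2 : k ≤ L := by rw [hL]; exact Nat.le_floor h1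
        omega
      rw [mem_biUnion]
      refine ⟨(j, k), mem_product.2 ⟨mem_range.2 (by omega), mem_range.2 hkL⟩, ?_⟩
      rw [hFq, mem_filter]
      exact ⟨hf, hA3, hA1, hA2⟩
  have h1 := (card_le_card hcover).trans (card_union_le _ _)
  have h2 : ((((range (d * r + 1)) ×ˢ (range (L + 1))).biUnion Fq).card : ℝ) ≤
      ∑ q ∈ (range (d * r + 1)) ×ˢ (range (L + 1)), ((Fq q).card : ℝ) := by
    exact_mod_cast card_biUnion_le
  have h3 : ∑ q ∈ (range (d * r + 1)) ×ˢ (range (L + 1)), ((Fq q).card : ℝ) ≤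
      (((d * r + 1) * (L + 1) : ℕ) : ℝ) * (18 * B ^ 3 * Real.exp (32 * K)) := by
    refine (sum_le_card_nsmul _ _ _ fun q _ => hcard q).trans (le_of_eq ?_)
    rw [card_product, card_range, card_range, nsmul_eq_mul]
  have h4 : (L : ℝ) ≤ 3 * B := by rw [hL]; exact Nat.floor_le (by linarith)
  have h5 : (((d * r + 1) * (L + 1) : ℕ) : ℝ) ≤ (d * r + 1) * (4 * B) := by
    push_cast
    refine mul_le_mul_of_nonneg_left (by linarith) (by positivity)
  have h6 : (0 : ℝ) ≤ 18 * B ^ 3 * Real.exp (32 * K) := by positivity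
  have h7 := mul_le_mul_of_nonneg_right h5 h6
  have h8 : (G.card : ℝ) ≤ ((G.filter fun f => ∀ j N : ℕ, N ≤ d * r → (N : ℝ) ≤ K * 256 ^ j →
      En N f ≤ 60 * 64 ^ j * e).card : ℝ) +
      ((((range (d * r + 1)) ×ˢ (range (L + 1))).biUnion Fq).card : ℝ) := by exact_mod_cast h1
  calc (G.card : ℝ) ≤ _ := h8
    _ ≤ ((G.filter fun f => ∀ j N : ℕ, N ≤ d * r → (N : ℝ) ≤ K * 256 ^ j →
      En N f ≤ 60 * 64 ^ j * e).card : ℝ) +
        (d * r + 1) * (4 * B) * (18 * B ^ 3 * Real.exp (32 * K)) := by linarith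
    _ = _ := by ring

end Pool.Agent.Lib.MP_7ab245_nt.Cnt4
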