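import Pool.Agent.Lib.MP_7ab245_nt.Cnt.Abel
import Pool.Agent.Lib.MP_7ab245_nt.Cnt.Gauss
import Pool.Agent.Lib.MP_7ab245_nt.Cnt.Weights

/-!
C4-Wts: the choice of the weights, with an energy which may grow like `128^j` at the frequencies `K 256^j`.

PROOF. For `k ≥ 1` let `j(k)` be the least `j` with `k ≤ K 256^j`. `s k := k²/K²`, `Z k := 1 + 4 K/k` if `j(k) = 0` (that is `k ≤ K`): gs_le. `s k := 7 j(k) + 1`,
`Z k := 1 + 4 exp (-(7 j(k) + 1))` if `j(k) ≥ 1`: gs_le_exp.
`∑ log Z`: for `k ≤ K` as in Cnt/Weights.lean (`log (1 + 4K/k) ≤ 2 √(K/k)`, sum_sqrt: `≤ 4 K`); for `j(k) = j ≥ 1`: at most `K 256^j` values of `k`, each `log Z ≤ 4 exp (-7j - 1)`, in total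
`≤ 4 K ∑_{j ≥ 1} (256 exp (-7))^j ≤ 2 K` (`256 exp (-7) ≤ 1/4`: `exp 7 ≥ 1024`).
`∑ s S`: `j(k) = 0`: `(1/K²) ∑_{k ≤ K} k² S k ≤ (1/K²) K² K = K` (hypothesis with `j = 0`, `N = ⌊K⌋` or `n`). `j(k) = j ≥ 1`: `k > K 256^(j-1)`, so `S k ≤ k² S k / (K 256^(j-1))²` and with `N = min ⌊K 256^j⌋ n`
`∑_{j(k) = j} s k S k ≤ (7j+1) * 128^j K² * (K 256^j) / (K² 256^(2j-2)) = (7j+1) * 65536 * K * 2^(-j)`; sum over `j ≥ 1`: `∑ (7j+1) 2^(-j) = 15`. `C := 10^6`. (Only `j ≤ n` occur: sum over the fibres of `j(k)`,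
Finset.sum_fiberwise.)
-/

set_option autoImplicit false

open Finset

namespace Pool.Agent.Lib.MP_7ab245_nt.Cnt4

open Pool.Agent.Lib.MP_7ab245_nt.Cnt

private theorem log_one_add_sq_le (u : ℝ) (hu : 0 ≤ u) : Real.log (1 + u ^ 2) ≤ u := by
  rw [Real.log_le_iff_le_exp (by positivity)]
  have h1 : 1 + u / 2 + (u / 2) ^ 2 / 2 ≤ Real.exp (u / 2) :=
    Real.quadratic_le_exp_of_nonneg (by positivity)
  have h2 : Real.exp u = Real.exp (u / 2) ^ 2 := by
    rw [← Real.exp_nat_mul]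
    congr 1
    push_cast
    ring
  have h3 : (1 + u / 2 + (u / 2) ^ 2 / 2) ^ 2 ≤ Real.exp (u / 2) ^ 2 :=
    pow_le_pow_left₀ (by positivity) h1 2
  rw [h2]
  refine le_trans ?_ h3
  have h4 : 0 ≤ u * (1 - u / 2 + u ^ 2 / 8 + u ^ 3 / 64) := by
    apply mul_nonneg hu
    have : 0 ≤ u ^ 3 / 64 := by positivity
    nlinarith [sq_nonneg (u - 2)]
  nlinarith

/-- the least `j` with `k ≤ K 256^j` -/
private noncomputable def jj (K : ℝ) (k : ℕ) : ℕ := sInf {j : ℕ | (k : ℝ) ≤ K * 256 ^ j}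

private theorem jj_mem (K : ℝ) (hK : 1 ≤ K) (k : ℕ) : (k : ℝ) ≤ K * 256 ^ k := by
  have h1 : (k : ℝ) ≤ 256 ^ k := by exact_mod_cast (Nat.lt_pow_self (by norm_num : 1 < 256)).le
  have h2 : (0 : ℝ) < 256 ^ k := by positivity
  nlinarith

private theorem jj_spec (K : ℝ) (hK : 1 ≤ K) (k : ℕ) : (k : ℝ) ≤ K * 256 ^ (jj K k) :=
  Nat.sInf_mem (s := {j : ℕ | (k : ℝ) ≤ K * 256 ^ j}) ⟨k, jj_mem K hK k⟩

private theorem jj_le (K : ℝ) (hK : 1 ≤ K) (k : ℕ) : jj K k ≤ k :=
  Nat.sInf_le (jj_mem K hK k)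

private theorem jj_lower (K : ℝ) (k j : ℕ) (h : j < jj K k) : K * 256 ^ j < k := by
  by_contra hcon
  have h1 : jj K k ≤ j := Nat.sInf_le (not_lt.mp hcon)
  omega

private theorem jj_pos (K : ℝ) (hK : 1 ≤ K) (k : ℕ) (h : K < k) : 1 ≤ jj K k := by
  by_contra hcon
  have h0 : jj K k = 0 := by omega
  have h1 := jj_spec K hK k
  rw [h0, pow_zero, mul_one] at h1
  linarith

private theorem jj_card (n : ℕ) (K : ℝ) (hK : 1 ≤ K) (j : ℕ) (F : Finset ℕ) (hF : F ⊆ Icc 1 n) :
    ((F.filter (fun k => jj K k = j)).card : ℝ) ≤ K * 256 ^ j := by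
  have h0 : (0 : ℝ) ≤ K * 256 ^ j := by positivity
  have h7 : (F.filter (fun k => jj K k = j)).card ≤ ⌊K * 256 ^ j⌋₊ := by
    refine (Finset.card_le_card (t := Icc 1 ⌊K * 256 ^ j⌋₊) ?_).trans (by simp)
    intro k hk
    rw [Finset.mem_filter] at hk
    have h1 := hF hk.1
    have h2 := jj_spec K hK k
    rw [hk.2] at h2
    rw [Finset.mem_Icc] at h1 ⊢
    exact ⟨h1.1, Nat.le_floor h2⟩
  calc ((F.filter (fun k => jj K k = j)).card : ℝ) ≤ (⌊K * 256 ^ j⌋₊ : ℝ) := by exact_mod_cast h7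
    _ ≤ K * 256 ^ j := Nat.floor_le h0

private theorem sum_quarter (n : ℕ) : ∑ j ∈ Icc 1 n, (1 / 4 : ℝ) ^ j ≤ 1 / 2 := by
  have key : ∑ j ∈ Icc 1 n, (1 / 4 : ℝ) ^ j = (1 - (1 / 4) ^ n) / 3 := by
    induction n with
    | zero => simp
    | succ n ih =>
      rw [sum_Icc_succ_top (by omega), ih, pow_succ]
      ring
  rw [key]
  have : (0 : ℝ) < (1 / 4) ^ n := by positivity
  linarith

private theorem sum_half (n : ℕ) : ∑ j ∈ Icc 1 n, (7 * (j : ℝ) + 1) * (1 / 2) ^ j ≤ 15 := by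
  have key : ∑ j ∈ Icc 1 n, (7 * (j : ℝ) + 1) * (1 / 2) ^ j = 15 - (7 * (n : ℝ) + 15) * (1 / 2) ^ n := by
    induction n with
    | zero => simp
    | succ n ih =>
      rw [sum_Icc_succ_top (by omega), ih, pow_succ]
      push_cast
      ring
  rw [key]
  have : (0 : ℝ) ≤ (7 * (n : ℝ) + 15) * (1 / 2) ^ n := by positivity
  linarith

private theorem exp_seven : 256 * Real.exp (-7) ≤ 1 / 4 := by
  have h1 : (1024 : ℝ) ≤ Real.exp 7 := by
    have h2 : Real.exp 7 = Real.exp 1 ^ 7 := by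
      rw [← Real.exp_nat_mul]
      norm_num
    rw [h2]
    have h3 : (2.7 : ℝ) ≤ Real.exp 1 := by
      have := Real.exp_one_gt_d9
      linarith
    calc (1024 : ℝ) ≤ 2.7 ^ 7 := by norm_num
      _ ≤ Real.exp 1 ^ 7 := pow_le_pow_left₀ (by norm_num) h3 7
  rw [Real.exp_neg, inv_eq_one_div, mul_one_div, div_le_div_iff₀ (Real.exp_pos _) (by norm_num)]
  linarith

theorem weights4 (n : ℕ) (K : ℝ) (hK : 1 ≤ K) : ∃ s Z : ℕ → ℝ,
    (∀ k ∈ Icc 1 n, 0 < Z k) ∧ (∀ k ∈ Icc 1 n, 0 ≤ s k) ∧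
    (∀ k ∈ Icc 1 n, ∀ B : ℕ, gs (s k) B ≤ Z k) ∧
    ∑ k ∈ Icc 1 n, Real.log (Z k) ≤ 10 ^ 6 * K ∧
    ∀ S : ℕ → ℝ, (∀ k, 0 ≤ S k) →
      (∀ j N : ℕ, N ≤ n → (N : ℝ) ≤ K * 256 ^ j →
        ∑ k ∈ Icc 1 N, (k : ℝ) ^ 2 * S k ≤ 128 ^ j * K ^ 2 * N) →
      ∑ k ∈ Icc 1 n, s k * S k ≤ 10 ^ 6 * K := by
  have hK0 : 0 < K := by linarith
  have hsK : 0 < √K := Real.sqrt_pos.mpr hK0
  have hKK : √K * √K = K := Real.mul_self_sqrt hK0.le
  refine ⟨fun k => if (k : ℝ) ≤ K then (k : ℝ) ^ 2 / K ^ 2 else 7 * (jj K k : ℝ) + 1,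
    fun k => if (k : ℝ) ≤ K then 1 + 4 * K / k else 1 + 4 * Real.exp (-(7 * (jj K k : ℝ) + 1)),
    ?_, ?_, ?_, ?_, ?_⟩
  · intro k hk
    beta_reduce
    split_ifs <;> positivity
  · intro k hk
    beta_reduce
    split_ifs <;> positivity
  · intro k hk B
    have hk1 : (0 : ℝ) < k := by exact_mod_cast (mem_Icc.mp hk).1
    beta_reduce
    split_ifs with h
    · have h1 := gs_le ((k : ℝ) ^ 2 / K ^ 2) (by positivity) B
      have h2 : √((k : ℝ) ^ 2 / K ^ 2) = k / K := by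
        rw [← div_pow, Real.sqrt_sq (by positivity)]
      rw [h2] at h1
      have h3 : 4 / ((k : ℝ) / K) = 4 * K / k := by
        field_simp
      rwa [h3] at h1
    · apply gs_le_exp
      have : (0 : ℝ) ≤ jj K k := Nat.cast_nonneg _
      linarith
  · rw [← Finset.sum_filter_add_sum_filter_not (Icc 1 n) (fun k : ℕ => (k : ℝ) ≤ K)]
    have h1 : ∑ k ∈ (Icc 1 n).filter (fun k : ℕ => (k : ℝ) ≤ K),
        Real.log (if (k : ℝ) ≤ K then 1 + 4 * K / k
          else 1 + 4 * Real.exp (-(7 * (jj K k : ℝ) + 1))) ≤ 4 * K := by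
      calc ∑ k ∈ (Icc 1 n).filter (fun k : ℕ => (k : ℝ) ≤ K),
            Real.log (if (k : ℝ) ≤ K then 1 + 4 * K / k
              else 1 + 4 * Real.exp (-(7 * (jj K k : ℝ) + 1)))
          ≤ ∑ k ∈ (Icc 1 n).filter (fun k : ℕ => (k : ℝ) ≤ K), 2 * √K * (1 / √(k : ℝ)) := by
            refine Finset.sum_le_sum fun k hk => ?_
            rw [Finset.mem_filter] at hk
            have hk1 : (0 : ℝ) < k := by exact_mod_cast (mem_Icc.mp hk.1).1
            rw [if_pos hk.2]
            have h2 : 4 * K / k = (2 * √K * (1 / √(k : ℝ))) ^ 2 := by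
              rw [mul_pow, mul_pow, div_pow, Real.sq_sqrt hK0.le, Real.sq_sqrt hk1.le]
              ring
            rw [h2]
            exact log_one_add_sq_le _ (by positivity)
        _ = 2 * √K * ∑ k ∈ (Icc 1 n).filter (fun k : ℕ => (k : ℝ) ≤ K), 1 / √(k : ℝ) := by
            rw [Finset.mul_sum]
        _ ≤ 2 * √K * (2 * √K) := mul_le_mul_of_nonneg_left (sum_sqrt n K hK) (by positivity)
        _ = 4 * K := by linear_combination 4 * hKK
    have h2 : ∑ k ∈ (Icc 1 n).filter (fun k : ℕ => ¬ (k : ℝ) ≤ K),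
        Real.log (if (k : ℝ) ≤ K then 1 + 4 * K / k
          else 1 + 4 * Real.exp (-(7 * (jj K k : ℝ) + 1))) ≤ 2 * K := by
      set F := (Icc 1 n).filter (fun k : ℕ => ¬ (k : ℝ) ≤ K) with hF
      have hFs : F ⊆ Icc 1 n := filter_subset _ _
      have hmap : ∀ k ∈ F, jj K k ∈ Icc 1 n := by
        intro k hk
        have hk' := hFs hk
        rw [hF, mem_filter] at hk
        rw [mem_Icc] at hk' ⊢
        exact ⟨jj_pos K hK k (not_le.mp hk.2), (jj_le K hK k).trans hk'.2⟩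
      calc ∑ k ∈ F, Real.log (if (k : ℝ) ≤ K then 1 + 4 * K / k
              else 1 + 4 * Real.exp (-(7 * (jj K k : ℝ) + 1)))
          ≤ ∑ k ∈ F, 4 * Real.exp (-(7 * (jj K k : ℝ) + 1)) := by
            refine Finset.sum_le_sum fun k hk => ?_
            rw [hF, Finset.mem_filter] at hk
            rw [if_neg hk.2]
            have := Real.log_le_sub_one_of_pos
              (show 0 < 1 + 4 * Real.exp (-(7 * (jj K k : ℝ) + 1)) by positivity)
            linarith
        _ = ∑ j ∈ Icc 1 n, ∑ k ∈ F.filter (fun k => jj K k = j),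
              4 * Real.exp (-(7 * (jj K k : ℝ) + 1)) := (sum_fiberwise_of_maps_to hmap _).symm
        _ ≤ ∑ j ∈ Icc 1 n, 4 * K * (1 / 4) ^ j := by
            refine Finset.sum_le_sum fun j _ => ?_
            have h3 : ∑ k ∈ F.filter (fun k => jj K k = j),
                4 * Real.exp (-(7 * (jj K k : ℝ) + 1)) =
                ((F.filter (fun k => jj K k = j)).card : ℝ) *
                  (4 * Real.exp (-(7 * (j : ℝ) + 1))) := by
              rw [← nsmul_eq_mul, ← Finset.sum_const]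
              refine Finset.sum_congr rfl fun k hk => ?_
              rw [(Finset.mem_filter.mp hk).2]
            have h4 : Real.exp (-(7 * (j : ℝ) + 1)) ≤ Real.exp (-7) ^ j := by
              rw [← Real.exp_nat_mul]
              apply Real.exp_le_exp.mpr
              linarith
            have h5 := jj_card n K hK j F hFs
            rw [h3]
            calc ((F.filter (fun k => jj K k = j)).card : ℝ) *
                  (4 * Real.exp (-(7 * (j : ℝ) + 1)))
                ≤ (K * 256 ^ j) * (4 * Real.exp (-7) ^ j) := by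
                  gcongr
              _ = 4 * K * (256 * Real.exp (-7)) ^ j := by rw [mul_pow]; ring
              _ ≤ 4 * K * (1 / 4) ^ j := by
                  have := exp_seven
                  gcongr
        _ = 4 * K * ∑ j ∈ Icc 1 n, (1 / 4 : ℝ) ^ j := by rw [mul_sum]
        _ ≤ 4 * K * (1 / 2) := mul_le_mul_of_nonneg_left (sum_quarter n) (by positivity)
        _ = 2 * K := by ring
    linarith
  · intro S hS hN
    beta_reduce
    rw [← Finset.sum_filter_add_sum_filter_not (Icc 1 n) (fun k : ℕ => (k : ℝ) ≤ K)]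
    have h1 : ∑ k ∈ (Icc 1 n).filter (fun k : ℕ => (k : ℝ) ≤ K),
        (if (k : ℝ) ≤ K then (k : ℝ) ^ 2 / K ^ 2 else 7 * (jj K k : ℝ) + 1) * S k ≤ K := by
      have hN0 : ((min n ⌊K⌋₊ : ℕ) : ℝ) ≤ K :=
        (Nat.cast_le.mpr (min_le_right _ _)).trans (Nat.floor_le hK0.le)
      calc ∑ k ∈ (Icc 1 n).filter (fun k : ℕ => (k : ℝ) ≤ K),
            (if (k : ℝ) ≤ K then (k : ℝ) ^ 2 / K ^ 2 else 7 * (jj K k : ℝ) + 1) * S k
          = ∑ k ∈ (Icc 1 n).filter (fun k : ℕ => (k : ℝ) ≤ K), 1 / K ^ 2 * ((k : ℝ) ^ 2 * S k) := by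
            refine Finset.sum_congr rfl fun k hk => ?_
            rw [if_pos (mem_filter.mp hk).2]
            ring
        _ ≤ ∑ k ∈ Icc 1 (min n ⌊K⌋₊), 1 / K ^ 2 * ((k : ℝ) ^ 2 * S k) := by
            refine sum_le_sum_of_subset_of_nonneg ?_ fun k _ _ => by
              have := hS k
              positivity
            intro k hk
            rw [mem_filter, mem_Icc] at hk
            rw [mem_Icc]
            exact ⟨hk.1.1, le_min hk.1.2 (Nat.le_floor hk.2)⟩
        _ = 1 / K ^ 2 * ∑ k ∈ Icc 1 (min n ⌊K⌋₊), (k : ℝ) ^ 2 * S k := by rw [mul_sum]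
        _ ≤ 1 / K ^ 2 * (128 ^ 0 * K ^ 2 * ((min n ⌊K⌋₊ : ℕ) : ℝ)) := by
            refine mul_le_mul_of_nonneg_left (hN 0 _ (min_le_left _ _) ?_) (by positivity)
            rw [pow_zero, mul_one]
            exact hN0
        _ = ((min n ⌊K⌋₊ : ℕ) : ℝ) := by
            field_simp
        _ ≤ K := hN0
    have h2 : ∑ k ∈ (Icc 1 n).filter (fun k : ℕ => ¬ (k : ℝ) ≤ K),
        (if (k : ℝ) ≤ K then (k : ℝ) ^ 2 / K ^ 2 else 7 * (jj K k : ℝ) + 1) * S k ≤
        65536 * K * 15 := by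
      set F := (Icc 1 n).filter (fun k : ℕ => ¬ (k : ℝ) ≤ K) with hF
      have hFs : F ⊆ Icc 1 n := filter_subset _ _
      have hmap : ∀ k ∈ F, jj K k ∈ Icc 1 n := by
        intro k hk
        have hk' := hFs hk
        rw [hF, mem_filter] at hk
        rw [mem_Icc] at hk' ⊢
        exact ⟨jj_pos K hK k (not_le.mp hk.2), (jj_le K hK k).trans hk'.2⟩
      calc ∑ k ∈ F, (if (k : ℝ) ≤ K then (k : ℝ) ^ 2 / K ^ 2 else 7 * (jj K k : ℝ) + 1) * S k
          = ∑ k ∈ F, (7 * (jj K k : ℝ) + 1) * S k := by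
            refine Finset.sum_congr rfl fun k hk => ?_
            rw [hF, Finset.mem_filter] at hk
            rw [if_neg hk.2]
        _ = ∑ j ∈ Icc 1 n, ∑ k ∈ F.filter (fun k => jj K k = j), (7 * (jj K k : ℝ) + 1) * S k :=
            (sum_fiberwise_of_maps_to hmap _).symm
        _ ≤ ∑ j ∈ Icc 1 n, 65536 * K * ((7 * (j : ℝ) + 1) * (1 / 2) ^ j) := by
            refine Finset.sum_le_sum fun j hj => ?_
            obtain ⟨i, rfl⟩ : ∃ i, j = i + 1 := ⟨j - 1, by have := (mem_Icc.mp hj).1; omega⟩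
            have hi0 : (0 : ℝ) < K * 256 ^ i := by positivity
            have hM0 : (0 : ℝ) ≤ K * 256 ^ (i + 1) := by positivity
            have hM : ((min n ⌊K * 256 ^ (i + 1)⌋₊ : ℕ) : ℝ) ≤ K * 256 ^ (i + 1) :=
              (Nat.cast_le.mpr (min_le_right _ _)).trans (Nat.floor_le hM0)
            calc ∑ k ∈ F.filter (fun k => jj K k = i + 1), (7 * (jj K k : ℝ) + 1) * S k
                ≤ ∑ k ∈ F.filter (fun k => jj K k = i + 1),
                  (7 * ((i + 1 : ℕ) : ℝ) + 1) / (K * 256 ^ i) ^ 2 * ((k : ℝ) ^ 2 * S k) := by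
                  refine Finset.sum_le_sum fun k hk => ?_
                  have hk2 := (mem_filter.mp hk).2
                  rw [hk2]
                  have h3 := jj_lower K k i (by omega)
                  have h4 : (K * 256 ^ i) ^ 2 ≤ (k : ℝ) ^ 2 :=
                    pow_le_pow_left₀ hi0.le h3.le 2
                  have h5 : 1 ≤ (k : ℝ) ^ 2 / (K * 256 ^ i) ^ 2 := by
                    rw [one_le_div (by positivity)]
                    exact h4
                  have h6 := hS k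
                  have h7 : 0 ≤ (7 * ((i + 1 : ℕ) : ℝ) + 1) * S k := by positivity
                  calc (7 * ((i + 1 : ℕ) : ℝ) + 1) * S k
                      ≤ (7 * ((i + 1 : ℕ) : ℝ) + 1) * S k *
                        ((k : ℝ) ^ 2 / (K * 256 ^ i) ^ 2) := le_mul_of_one_le_right h7 h5
                    _ = (7 * ((i + 1 : ℕ) : ℝ) + 1) / (K * 256 ^ i) ^ 2 *
                        ((k : ℝ) ^ 2 * S k) := by ring
              _ ≤ ∑ k ∈ Icc 1 (min n ⌊K * 256 ^ (i + 1)⌋₊),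
                  (7 * ((i + 1 : ℕ) : ℝ) + 1) / (K * 256 ^ i) ^ 2 * ((k : ℝ) ^ 2 * S k) := by
                  refine sum_le_sum_of_subset_of_nonneg ?_ fun k _ _ => by
                    have := hS k
                    positivity
                  intro k hk
                  rw [mem_filter] at hk
                  have h3 := mem_Icc.mp (hFs hk.1)
                  have h4 := jj_spec K hK k
                  rw [hk.2] at h4
                  rw [mem_Icc]
                  exact ⟨h3.1, le_min h3.2 (Nat.le_floor h4)⟩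
              _ = (7 * ((i + 1 : ℕ) : ℝ) + 1) / (K * 256 ^ i) ^ 2 *
                  ∑ k ∈ Icc 1 (min n ⌊K * 256 ^ (i + 1)⌋₊), (k : ℝ) ^ 2 * S k := by rw [mul_sum]
              _ ≤ (7 * ((i + 1 : ℕ) : ℝ) + 1) / (K * 256 ^ i) ^ 2 *
                  (128 ^ (i + 1) * K ^ 2 * (K * 256 ^ (i + 1))) := by
                  refine mul_le_mul_of_nonneg_left ?_ (by positivity)
                  refine (hN (i + 1) _ (min_le_left _ _) hM).trans ?_
                  exact mul_le_mul_of_nonneg_left hM (by positivity)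
              _ = 65536 * K * ((7 * ((i + 1 : ℕ) : ℝ) + 1) * (1 / 2) ^ (i + 1)) := by
                  have e1 : (256 : ℝ) ^ (i + 1) = 256 * 256 ^ i := by ring
                  have e2 : (128 : ℝ) ^ (i + 1) = 128 * (256 ^ i * (1 / 2) ^ i) := by
                    rw [← mul_pow, pow_succ]
                    norm_num
                    ring
                  have e3 : (1 / 2 : ℝ) ^ (i + 1) = (1 / 2) * (1 / 2) ^ i := by ring
                  have h256 : (256 : ℝ) ^ i ≠ 0 := by positivity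
                  rw [e1, e2, e3]
                  generalize (256 : ℝ) ^ i = a at h256
                  generalize (1 / 2 : ℝ) ^ i = b
                  field_simp
                  ring
        _ = 65536 * K * ∑ j ∈ Icc 1 n, (7 * (j : ℝ) + 1) * (1 / 2) ^ j := by rw [mul_sum]
        _ ≤ 65536 * K * 15 := mul_le_mul_of_nonneg_left (sum_half n) (by positivity)
    linarith

end Pool.Agent.Lib.MP_7ab245_nt.Cnt4
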