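import Pool.Agent.Lib.MP_7ab245_nt.Cnt.Fam
import Pool.Agent.Lib.MP_7ab245_nt.Cnt4.Defs
import Pool.Agent.Lib.MP_7ab245_nt.Cnt4.Wts

/-!
C4-Fam4: polynomials of degree `n` with a fixed constant coefficient and given bounds of the energies.

PROOF. Copy Cnt/Fam.lean (read its header) with `m = 1` and the hypothesis hE in place of QQ_sum. For `N ≤ n`, `N ≤ K 256^j`: `QQ 0 f = 0` and
`∑_{m ∈ range (N+1)} ‖QQ m f‖² ≤ N En N f ≤ 16000 * 128^j * N e1` (see QQ_sum in Cnt/Energy.lean); `N² ≤ N n ≤ N e1`; so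
`V² = 2 μ² (16000 * 128^j N e1 + N²) ≤ 2 μ² * 16001 * 128^j N e1` and `∑_{k ≤ N} k² ∑_f (a_k - ah_k)² ≤ a₀² * 10 μ² V² |F| ≤ 320020 * 128^j T⁴ N e1 |F| ≤ 320020 * 128^j N K² |F|`
(`a₀² μ⁴ ≤ T⁴`, `T⁴ e1 ≤ K²`). Then as in Cnt/Coding.lean with `m = 1`: `y k f := a k f - round (ah k f)`, `|y| ≤ 2 |a - ah|`, `S k := (∑_f y²)/|F|`:
`∑_{k ≤ N} k² S k ≤ 4 * 320020 * 128^j K² N ≤ 128^j (2000 K)² N` for `N ≤ K 256^j`. weights4 with `K' := 2000 K * 256^2` in place of `K`: its hypothesis for `j`, `N ≤ K' 256^j = 2000 K 256^(j+2)`: `N ≤ K 256^(j+4)`, so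
`∑ k² S k ≤ 128^(j+4) (2000 K)² N ≤ 128^j K'^2 N` as `128^4 ≤ 256^4`. code (Cnt/Code.lean): `log |F| ≤ 10^6 K' + 10^6 K'`. `C := 2 * 10^6 * 2000 * 256^2`, any constant is fine.
(The injectivity: a polynomial of degree `n` is determined by its coefficients, the `y k` determine them one after the other: see hinj' in Cnt/Coding.lean.)
-/

set_option autoImplicit false

open Finset

namespace Pool.Agent.Lib.MP_7ab245_nt.Cnt4

open Pool.Agent.Lib.MP_7ab245_nt.LogVar Pool.Agent.Lib.MP_7ab245_nt.Cnt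

private theorem coding4 {ι : Type} [Fintype ι] [Nonempty ι] (n : ℕ) (a : ℕ → ι → ℤ)
    (ah : ℕ → ι → ℝ) (K : ℝ) (hK : 1 ≤ K) (hinj : ∀ f g, (∀ j ≤ n, a j f = a j g) → f = g)
    (ha0 : ∀ f g, a 0 f = a 0 g)
    (hah : ∀ k f g, (∀ j < k, a j f = a j g) → ah k f = ah k g)
    (hsum : ∀ j N : ℕ, N ≤ n → (N : ℝ) ≤ K * 256 ^ j →
      ∑ k ∈ Icc 1 N, (k : ℝ) ^ 2 * ∑ f, ((a k f : ℝ) - ah k f) ^ 2 ≤
        320020 * 128 ^ j * K ^ 2 * N * Fintype.card ι) :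
    Real.log (Fintype.card ι) ≤ 2 * 10 ^ 6 * (2000 * 256 ^ 2 * K) := by
  classical
  obtain ⟨y, hydef⟩ : ∃ y : ℕ → ι → ℤ, ∀ k f, y k f = a k f - round (ah k f) :=
    ⟨fun k f => a k f - round (ah k f), fun _ _ => rfl⟩
  have hy : ∀ k f, |(y k f : ℝ)| ≤ 2 * |(a k f : ℝ) - ah k f| := by
    intro k f
    have h4 : |ah k f - (round (ah k f) : ℝ)| ≤ |ah k f - (a k f : ℝ)| := round_le _ _
    rw [hydef]
    push_cast
    calc |(a k f : ℝ) - (round (ah k f) : ℝ)|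
        = |((a k f : ℝ) - ah k f) + (ah k f - (round (ah k f) : ℝ))| := by ring_nf
      _ ≤ |(a k f : ℝ) - ah k f| + |ah k f - (round (ah k f) : ℝ)| := abs_add_le _ _
      _ ≤ |(a k f : ℝ) - ah k f| + |ah k f - (a k f : ℝ)| := by linarith
      _ = 2 * |(a k f : ℝ) - ah k f| := by rw [abs_sub_comm (ah k f) (a k f : ℝ)]; ring
  have hinj' : ∀ f g, (∀ k ∈ Icc 1 n, y k f = y k g) → f = g := by
    intro f g h
    apply hinj
    intro j
    induction j using Nat.strong_induction_on with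
    | _ j ih =>
      intro hj
      rcases Nat.eq_zero_or_pos j with rfl | hjpos
      · exact ha0 f g
      · have hah' : ah j f = ah j g := hah j f g (fun i hi => ih i hi (le_trans hi.le hj))
        have hyy := h j (Finset.mem_Icc.2 ⟨hjpos, hj⟩)
        rw [hydef, hydef, hah'] at hyy
        linarith
  obtain ⟨K', hK'⟩ : ∃ K' : ℝ, K' = 2000 * 256 ^ 2 * K := ⟨_, rfl⟩
  have hK1 : 1 ≤ K' := by rw [hK']; nlinarith
  obtain ⟨s, Z, hZ0, hs0, hZ, hlog, hS⟩ := weights4 n K' hK1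
  have h1 := code n y s Z hinj' hZ0 hZ
  have hcard : (0 : ℝ) < (Fintype.card ι : ℝ) := by exact_mod_cast Fintype.card_pos
  have h2 := hS (fun k => (∑ f, (y k f : ℝ) ^ 2) / (Fintype.card ι : ℝ))
    (fun k => div_nonneg (Finset.sum_nonneg fun f _ => sq_nonneg _) hcard.le) (by
      intro j N hN hNK
      have hNK4 : (N : ℝ) ≤ K * 256 ^ (j + 4) := by
        refine hNK.trans ?_
        rw [hK', pow_add]
        have h3 : (0 : ℝ) ≤ K * 256 ^ j := by positivity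
        nlinarith
      have hs4 := hsum (j + 4) N hN hNK4
      have hterm : ∀ k ∈ Icc 1 N, (k : ℝ) ^ 2 * ((∑ f, (y k f : ℝ) ^ 2) / (Fintype.card ι : ℝ)) ≤
          (4 / (Fintype.card ι : ℝ)) * ((k : ℝ) ^ 2 * ∑ f, ((a k f : ℝ) - ah k f) ^ 2) := by
        intro k _
        have hle : ∑ f, (y k f : ℝ) ^ 2 ≤ 4 * ∑ f, ((a k f : ℝ) - ah k f) ^ 2 := by
          rw [Finset.mul_sum]
          refine Finset.sum_le_sum fun f _ => ?_
          have hyf := hy k f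
          calc (y k f : ℝ) ^ 2 = |(y k f : ℝ)| ^ 2 := (sq_abs _).symm
            _ ≤ (2 * |(a k f : ℝ) - ah k f|) ^ 2 := pow_le_pow_left₀ (abs_nonneg _) hyf 2
            _ = 4 * |(a k f : ℝ) - ah k f| ^ 2 := by ring
            _ = 4 * ((a k f : ℝ) - ah k f) ^ 2 := by rw [sq_abs]
        calc (k : ℝ) ^ 2 * ((∑ f, (y k f : ℝ) ^ 2) / (Fintype.card ι : ℝ))
            ≤ (k : ℝ) ^ 2 * ((4 * ∑ f, ((a k f : ℝ) - ah k f) ^ 2) / (Fintype.card ι : ℝ)) := by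
              gcongr
          _ = _ := by ring
      calc ∑ k ∈ Icc 1 N, (k : ℝ) ^ 2 * ((∑ f, (y k f : ℝ) ^ 2) / (Fintype.card ι : ℝ))
          ≤ ∑ k ∈ Icc 1 N, (4 / (Fintype.card ι : ℝ)) *
            ((k : ℝ) ^ 2 * ∑ f, ((a k f : ℝ) - ah k f) ^ 2) := Finset.sum_le_sum hterm
        _ = (4 / (Fintype.card ι : ℝ)) *
            ∑ k ∈ Icc 1 N, ((k : ℝ) ^ 2 * ∑ f, ((a k f : ℝ) - ah k f) ^ 2) := by
              rw [Finset.mul_sum]
        _ ≤ (4 / (Fintype.card ι : ℝ)) *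
            (320020 * 128 ^ (j + 4) * K ^ 2 * N * Fintype.card ι) := by
              refine mul_le_mul_of_nonneg_left hs4 ?_
              positivity
        _ = 1280080 * 128 ^ 4 * (128 ^ j * K ^ 2 * N) := by
              rw [pow_add]
              field_simp
              ring
        _ ≤ (2000 * 256 ^ 2) ^ 2 * (128 ^ j * K ^ 2 * N) := by
              refine mul_le_mul_of_nonneg_right (by norm_num) (by positivity)
        _ = 128 ^ j * K' ^ 2 * N := by rw [hK']; ring)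
  have h3 : (∑ k ∈ Icc 1 n, s k * ∑ f, (y k f : ℝ) ^ 2) / (Fintype.card ι : ℝ) ≤
      10 ^ 6 * K' := by
    refine le_trans (le_of_eq ?_) h2
    rw [Finset.sum_div]
    refine Finset.sum_congr rfl fun k _ => ?_
    rw [mul_div_assoc]
  rw [← hK']
  linarith

private theorem QQ_sum4 (f : Polynomial ℤ) (N : ℕ) :
    ∑ m ∈ range (N + 1), ‖QQ m f‖ ^ 2 ≤ N * En N f := by
  have hQ0 : QQ 0 f = 0 := by
    unfold Cnt.QQ ld
    simp [PowerSeries.coeff_zero_eq_constantCoeff]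
  have h2 : ∑ m ∈ range (N + 1), ‖QQ m f‖ ^ 2 = ∑ m ∈ Icc 1 N, ‖QQ m f‖ ^ 2 := by
    rw [Finset.sum_range_succ', hQ0, norm_zero, zero_pow two_ne_zero, add_zero,
      Finset.range_eq_Ico, Finset.sum_Ico_add' (fun m => ‖QQ m f‖ ^ 2) 0 N 1]
    rfl
  rw [h2]
  calc ∑ m ∈ Icc 1 N, ‖QQ m f‖ ^ 2 ≤ ∑ m ∈ Icc 1 N, N * (‖QQ m f‖ ^ 2 / m) := by
        refine Finset.sum_le_sum fun m hm => ?_
        rw [Finset.mem_Icc] at hm
        have hm1 : (0 : ℝ) < m := by exact_mod_cast hm.1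
        have hm2 : (m : ℝ) ≤ N := by exact_mod_cast hm.2
        rw [mul_div_assoc', le_div_iff₀ hm1]
        nlinarith [sq_nonneg ‖QQ m f‖]
    _ = N * En N f := by rw [En, Finset.mul_sum]

theorem fam4 : ∃ C : ℝ, 0 < C ∧ ∀ (n : ℕ) (T K e1 : ℝ) (a₀ : ℤ) (F : Finset (Polynomial ℤ)),
    1 ≤ n → 1 ≤ T → 1 ≤ K → T ^ 4 * e1 ≤ K ^ 2 → (n : ℝ) ≤ e1 → a₀ ≠ 0 →
    (∀ f ∈ F, f.natDegree = n ∧ f.coeff 0 = a₀ ∧ MM f ≤ T) →
    (∀ f ∈ F, ∀ j N : ℕ, N ≤ n → (N : ℝ) ≤ K * 256 ^ j → En N f ≤ 16000 * 128 ^ j * e1) →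
    (F.card : ℝ) ≤ Real.exp (C * K) := by
  refine ⟨2 * 10 ^ 6 * (2000 * 256 ^ 2), by norm_num, ?_⟩
  intro n T K e1 a₀ F hn hT hK1 hTK hne1 ha₀ hF hE
  classical
  rcases F.eq_empty_or_nonempty with hF0 | ⟨f₁, hf₁⟩
  · rw [hF0, Finset.card_empty, Nat.cast_zero]
    positivity
  have hne : Nonempty F := ⟨⟨f₁, hf₁⟩⟩
  have hnR : (1 : ℝ) ≤ n := by exact_mod_cast hn
  have he1 : 1 ≤ e1 := hnR.trans hne1
  have ha1 : (1 : ℝ) ≤ |(a₀ : ℝ)| := by
    have h1 : 1 ≤ |a₀| := Int.one_le_abs ha₀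
    have h2 : ((1 : ℤ) : ℝ) ≤ ((|a₀| : ℤ) : ℝ) := by exact_mod_cast h1
    simpa using h2
  have ha0 : (0 : ℝ) < |(a₀ : ℝ)| := by linarith
  obtain ⟨μ, hμ⟩ : ∃ μ : ℝ, μ = T / |(a₀ : ℝ)| := ⟨_, rfl⟩
  have hc0 : ∀ f : F, (f : Polynomial ℤ).coeff 0 ≠ 0 := fun f => by rw [(hF f f.2).2.1]; exact ha₀
  have hMMμ : ∀ f : F, MM (f : Polynomial ℤ) / |(((f : Polynomial ℤ).coeff 0 : ℤ) : ℝ)| ≤ μ := by
    intro f
    rw [(hF f f.2).2.1, hμ]
    exact div_le_div_of_nonneg_right (hF f f.2).2.2 ha0.le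
  have hMM1 : ∀ f : F, 1 ≤ MM (f : Polynomial ℤ) / |(((f : Polynomial ℤ).coeff 0 : ℤ) : ℝ)| :=
    fun f => mu_ge f (hc0 f)
  have hμ1 : 1 ≤ μ := (hMM1 ⟨f₁, hf₁⟩).trans (hMMμ ⟨f₁, hf₁⟩)
  have hMM2 : ∀ f : F, (MM (f : Polynomial ℤ) / |(((f : Polynomial ℤ).coeff 0 : ℤ) : ℝ)|) ^ 2 ≤ μ ^ 2 :=
    fun f => pow_le_pow_left₀ (by linarith [hMM1 f]) (hMMμ f) 2
  -- the data
  obtain ⟨a, ha⟩ : ∃ a : ℕ → F → ℤ, a = fun (j : ℕ) (f : F) => (f : Polynomial ℤ).coeff j := ⟨_, rfl⟩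
  obtain ⟨c, hc⟩ : ∃ c : ℕ → F → ℂ, c = fun (i : ℕ) (f : F) => cs i (f : Polynomial ℤ) := ⟨_, rfl⟩
  obtain ⟨p, hp⟩ : ∃ p : ℕ → F → ℂ, p = fun (i : ℕ) (f : F) => PP i (f : Polynomial ℤ) := ⟨_, rfl⟩
  have hpcongr : ∀ m k f g, m < k → (∀ j < k, a j f = a j g) → p m f = p m g := by
    intro m k f g hmk h
    rw [hp]
    refine PP_congr f g (hc0 f) m k hmk fun j hj => ?_
    have := h j hj
    rw [ha] at this
    exact this
  have hp0 : ∀ f, p 0 f = 0 := fun f => by rw [hp]; exact PP_zero f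
  have hcc0 : ∀ f, c 0 f = 1 := fun f => by rw [hc]; exact cs_zero f (hc0 f)
  have hι0 : (0 : ℝ) ≤ Fintype.card F := by positivity
  -- the predictor
  have hpred : ∀ j N : ℕ, N ≤ n → (N : ℝ) ≤ K * 256 ^ j →
      ∑ k ∈ range (N + 1), ∑ f, ‖p k f - ph a c p k f‖ ^ 2 ≤
      320020 * μ ^ 4 * (128 ^ j * (N * e1)) * Fintype.card F := by
    intro j N hN hNK
    have hNR : (N : ℝ) ≤ n := by exact_mod_cast hN
    have hN0 : (0 : ℝ) ≤ N := by positivity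
    have h128 : (1 : ℝ) ≤ 128 ^ j := one_le_pow₀ (by norm_num)
    have hX0 : 0 ≤ (128 : ℝ) ^ j * (N * e1) := by positivity
    obtain ⟨V, hV⟩ : ∃ V : ℝ, V = √(2 * μ ^ 2 * (16001 * (128 ^ j * (N * e1)))) := ⟨_, rfl⟩
    have hV2 : V ^ 2 = 2 * μ ^ 2 * (16001 * (128 ^ j * (N * e1))) := by
      rw [hV, Real.sq_sqrt (by positivity)]
    have hN2 : (N : ℝ) ^ 2 ≤ 128 ^ j * (N * e1) := by
      have h1 : (N : ℝ) ^ 2 ≤ N * e1 := by
        rw [sq]
        exact mul_le_mul_of_nonneg_left (hNR.trans hne1) hN0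
      have h2 : (N : ℝ) * e1 ≤ 128 ^ j * (N * e1) := by
        have h3 : 0 ≤ (N : ℝ) * e1 := by positivity
        nlinarith
      exact h1.trans h2
    have h1 := pred_main a c p N μ V hμ1 hcc0 hp0 hpcongr (by
      intro f
      rw [hc]
      exact (cs_sum f (hc0 f) N).trans (hMM2 f)) (by
      intro f
      rw [hV2]
      have h2 := vbound f (hc0 f) N
      have h3 : ∑ m ∈ range (N + 1), ‖QQ m (f : Polynomial ℤ)‖ ^ 2 ≤
          16000 * (128 ^ j * (N * e1)) := by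
        refine (QQ_sum4 (f : Polynomial ℤ) N).trans ?_
        have h4 := hE f f.2 j N hN hNK
        calc (N : ℝ) * En N (f : Polynomial ℤ) ≤ N * (16000 * 128 ^ j * e1) :=
              mul_le_mul_of_nonneg_left h4 hN0
          _ = _ := by ring
      have h4 : ∀ m, vv c p m f = ∑ i ∈ range (m + 1), cs i f * PP (m - i) f := by
        intro m
        rw [hc, hp]
        rfl
      simp only [h4]
      refine h2.trans ?_
      have h5 := hMM2 f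
      have h6 : 0 ≤ ∑ m ∈ range (N + 1), ‖QQ m (f : Polynomial ℤ)‖ ^ 2 :=
        Finset.sum_nonneg fun _ _ => by positivity
      have h7 : ∑ m ∈ range (N + 1), ‖QQ m (f : Polynomial ℤ)‖ ^ 2 + (N : ℝ) ^ 2 ≤
          16001 * (128 ^ j * (N * e1)) := by linarith
      gcongr)
    refine h1.trans ?_
    rw [hV2]
    have h9 : 10 * μ ^ 2 * (2 * μ ^ 2 * (16001 * (128 ^ j * (N * e1)))) =
        320020 * μ ^ 4 * (128 ^ j * (N * e1)) := by ring
    rw [h9]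
  -- the predicted coefficient
  obtain ⟨ah, hah⟩ : ∃ ah : ℕ → F → ℝ, ah = fun k f =>
      if k = 0 then 0 else
        (-(∑ j ∈ Ico 1 k, (a j f : ℂ) * p (k - j) f + (a₀ : ℂ) * ph a c p k f) / (k : ℂ)).re := ⟨_, rfl⟩
  have hahc : ∀ k f g, (∀ j < k, a j f = a j g) → ah k f = ah k g := by
    intro k f g h
    rw [hah]
    by_cases hk : k = 0
    · simp [hk]
    · simp only [if_neg hk]
      have h1 : ∑ j ∈ Ico 1 k, (a j f : ℂ) * p (k - j) f = ∑ j ∈ Ico 1 k, (a j g : ℂ) * p (k - j) g := by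
        refine Finset.sum_congr rfl fun j hj => ?_
        rw [Finset.mem_Ico] at hj
        rw [h j hj.2, hpcongr (k - j) k f g (by omega) h]
      rw [h1, ph_congr a c p hp0 hpcongr h]
  have herr : ∀ k : ℕ, 1 ≤ k → ∀ f, (k : ℝ) ^ 2 * ((a k f : ℝ) - ah k f) ^ 2 ≤
      (a₀ : ℝ) ^ 2 * ‖p k f - ph a c p k f‖ ^ 2 := by
    intro k hk f
    have hk0 : (k : ℂ) ≠ 0 := by exact_mod_cast (by omega : k ≠ 0)
    have h1 := newton f (hc0 f) k
    have h2 : ∑ j ∈ range k, (((f : Polynomial ℤ).coeff j : ℤ) : ℂ) * PP (k - j) f =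
        (a₀ : ℂ) * p k f + ∑ j ∈ Ico 1 k, (a j f : ℂ) * p (k - j) f := by
      rw [Finset.range_eq_Ico, Finset.sum_eq_sum_Ico_succ_bot (by omega), (hF f f.2).2.1, Nat.sub_zero,
        hp, ha]
    rw [h2] at h1
    have h3 : (a k f : ℂ) = -((a₀ : ℂ) * p k f + ∑ j ∈ Ico 1 k, (a j f : ℂ) * p (k - j) f) / k := by
      rw [← h1, ha]
      field_simp
    have h4 : (((a k f : ℝ) - ah k f : ℝ)) = (-((a₀ : ℂ) / k * (p k f - ph a c p k f))).re := by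
      have h5 : ah k f =
          (-(∑ j ∈ Ico 1 k, (a j f : ℂ) * p (k - j) f + (a₀ : ℂ) * ph a c p k f) / (k : ℂ)).re := by
        rw [hah]
        simp only [if_neg (by omega : ¬ k = 0)]
      have h6 : ((a k f : ℤ) : ℝ) = ((a k f : ℤ) : ℂ).re := by simp
      rw [h6, h5, ← Complex.sub_re, h3]
      congr 1
      field_simp
      ring
    have h7 : |(a k f : ℝ) - ah k f| ≤ |(a₀ : ℝ)| / k * ‖p k f - ph a c p k f‖ := by
      rw [h4]
      refine (Complex.abs_re_le_norm _).trans (le_of_eq ?_)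
      rw [norm_neg, norm_mul, norm_div, Complex.norm_natCast, Complex.norm_intCast]
    have hkR : (0 : ℝ) < k := by exact_mod_cast hk
    have h8 : ((a k f : ℝ) - ah k f) ^ 2 ≤ (|(a₀ : ℝ)| / k * ‖p k f - ph a c p k f‖) ^ 2 := by
      rw [← sq_abs]
      exact pow_le_pow_left₀ (abs_nonneg _) h7 2
    calc (k : ℝ) ^ 2 * ((a k f : ℝ) - ah k f) ^ 2
        ≤ (k : ℝ) ^ 2 * (|(a₀ : ℝ)| / k * ‖p k f - ph a c p k f‖) ^ 2 := by gcongr
      _ = |(a₀ : ℝ)| ^ 2 * ‖p k f - ph a c p k f‖ ^ 2 := by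
          field_simp
      _ = (a₀ : ℝ) ^ 2 * ‖p k f - ph a c p k f‖ ^ 2 := by rw [sq_abs]
  have haμ : (a₀ : ℝ) ^ 2 * μ ^ 4 ≤ T ^ 4 := by
    have h1 : (a₀ : ℝ) ^ 2 = |(a₀ : ℝ)| ^ 2 := (sq_abs _).symm
    rw [h1, hμ]
    have h2 : |(a₀ : ℝ)| ^ 2 * (T / |(a₀ : ℝ)|) ^ 4 = T ^ 4 / |(a₀ : ℝ)| ^ 2 := by
      field_simp
    rw [h2]
    exact div_le_self (by positivity) (one_le_pow₀ ha1)
  have hcod := coding4 n a ah K hK1 (by
      intro f g h
      apply Subtype.ext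
      apply Polynomial.ext
      intro j
      rcases Nat.lt_or_ge n j with hj | hj
      · rw [Polynomial.coeff_eq_zero_of_natDegree_lt (by rw [(hF f f.2).1]; exact hj),
          Polynomial.coeff_eq_zero_of_natDegree_lt (by rw [(hF g g.2).1]; exact hj)]
      · have := h j hj
        rw [ha] at this
        exact this) (by
      intro f g
      rw [ha]
      simp only
      rw [(hF f f.2).2.1, (hF g g.2).2.1]) hahc (by
      intro j N hN hNK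
      have hN0 : (0 : ℝ) ≤ N := by positivity
      calc ∑ k ∈ Icc 1 N, (k : ℝ) ^ 2 * ∑ f, ((a k f : ℝ) - ah k f) ^ 2
          = ∑ k ∈ Icc 1 N, ∑ f, (k : ℝ) ^ 2 * ((a k f : ℝ) - ah k f) ^ 2 :=
            Finset.sum_congr rfl fun k _ => Finset.mul_sum _ _ _
        _ ≤ ∑ k ∈ Icc 1 N, ∑ f, (a₀ : ℝ) ^ 2 * ‖p k f - ph a c p k f‖ ^ 2 :=
            Finset.sum_le_sum fun k hk => Finset.sum_le_sum fun f _ =>
              herr k (Finset.mem_Icc.mp hk).1 f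
        _ = (a₀ : ℝ) ^ 2 * ∑ k ∈ Icc 1 N, ∑ f, ‖p k f - ph a c p k f‖ ^ 2 := by
            simp only [← Finset.mul_sum]
        _ ≤ (a₀ : ℝ) ^ 2 * ∑ k ∈ range (N + 1), ∑ f, ‖p k f - ph a c p k f‖ ^ 2 := by
            refine mul_le_mul_of_nonneg_left ?_ (sq_nonneg _)
            apply Finset.sum_le_sum_of_subset_of_nonneg
            · intro k hk
              rw [Finset.mem_Icc] at hk
              rw [Finset.mem_range]
              omega
            · intro k _ _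
              exact Finset.sum_nonneg fun _ _ => by positivity
        _ ≤ (a₀ : ℝ) ^ 2 * (320020 * μ ^ 4 * (128 ^ j * (N * e1)) * Fintype.card F) :=
            mul_le_mul_of_nonneg_left (hpred j N hN hNK) (sq_nonneg _)
        _ = 320020 * 128 ^ j * (((a₀ : ℝ) ^ 2 * μ ^ 4) * e1) * N * Fintype.card F := by ring
        _ ≤ 320020 * 128 ^ j * (T ^ 4 * e1) * N * Fintype.card F := by gcongr
        _ ≤ 320020 * 128 ^ j * K ^ 2 * N * Fintype.card F := by gcongr)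
  have hcardF : (Fintype.card F : ℝ) = F.card := by rw [Fintype.card_coe]
  rw [hcardF] at hcod
  have hcpos : (0 : ℝ) < F.card := by
    exact_mod_cast Finset.card_pos.mpr ⟨f₁, hf₁⟩
  calc (F.card : ℝ) = Real.exp (Real.log F.card) := (Real.exp_log hcpos).symm
    _ ≤ Real.exp (2 * 10 ^ 6 * (2000 * 256 ^ 2 * K)) := Real.exp_le_exp.mpr hcod
    _ = Real.exp (2 * 10 ^ 6 * (2000 * 256 ^ 2) * K) := by ring_nf

end Pool.Agent.Lib.MP_7ab245_nt.Cnt4
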