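import Mathlib

/-!
C4-Jnum: the choice of the exponent.

PROOF. `j := ⌈3600 N / A²⌉₊ ≥ 1`. `(N + j - 1).choose j ≤ (N + j)^j / j!` (Nat.choose_le_pow_div) and `j! ≥ (j/e)^j` (`j^j / j! ≤ exp j`,
Real.pow_div_factorial_le_exp), so the binomial coefficient is `≤ (e (N+j)/j)^j`. `N/j ≤ A²/3600`, `1 ≤ A²/3600`, so `e (N+j)/j ≤ e A²/1800 ≤ A²/660`. So the first
expression is `≤ ((A²/660) (324/A²))^j = (324/660)^j ≤ 1/2` (`j ≥ 1`) and the second one `≤ (36 A²/660)^j ≤ (A²)^j = exp (2 j log A)`,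
`j ≤ 3600 N/A² + 1`.
-/

set_option autoImplicit false

open Finset

namespace Pool.Agent.Lib.MP_7ab245_nt.Cnt4

theorem jnum (N : ℕ) (hN : 1 ≤ N) (A : ℝ) (hA : 60 ≤ A) : ∃ j : ℕ,
    ((N + j - 1).choose j : ℝ) * (18 / A) ^ (2 * j) ≤ 1 / 2 ∧
    ((N + j - 1).choose j : ℝ) * 6 ^ (2 * j) ≤
      A ^ 2 * Real.exp (7200 * N * Real.log A / A ^ 2) := by
  have hA0 : 0 < A := by linarith
  have hA2 : (3600 : ℝ) ≤ A ^ 2 := by nlinarith
  have hA2p : 0 < A ^ 2 := by positivity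
  have hN1 : (1 : ℝ) ≤ N := by exact_mod_cast hN
  set j : ℕ := ⌈3600 * (N : ℝ) / A ^ 2⌉₊ with hj
  have hq0 : 0 < 3600 * (N : ℝ) / A ^ 2 := by positivity
  have hj1 : 1 ≤ j := Nat.ceil_pos.2 hq0
  have hj1r : (1 : ℝ) ≤ j := by exact_mod_cast hj1
  have hj0 : (0 : ℝ) < j := by linarith
  have hjlo : 3600 * (N : ℝ) / A ^ 2 ≤ j := Nat.le_ceil _
  have hjhi : (j : ℝ) ≤ 3600 * N / A ^ 2 + 1 := (Nat.ceil_lt_add_one hq0.le).le
  have hfac : (0 : ℝ) < (j.factorial : ℝ) := by exact_mod_cast Nat.factorial_pos j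
  -- the binomial coefficient
  have hb : ((N + j - 1).choose j : ℝ) ≤ (A ^ 2 / 660) ^ j := by
    have h1 : ((N + j - 1).choose j : ℝ) ≤ ((N + j - 1 : ℕ) : ℝ) ^ j / (j.factorial : ℝ) :=
      Nat.choose_le_pow_div j (N + j - 1)
    have h2 : (((N + j - 1 : ℕ) : ℝ)) ≤ (N : ℝ) + j := by
      have : N + j - 1 ≤ N + j := Nat.sub_le _ _
      exact_mod_cast this
    have h3 : (j : ℝ) ^ j / (j.factorial : ℝ) ≤ Real.exp j :=
      Real.pow_div_factorial_le_exp j hj0.le j
    have h4 : Real.exp (j : ℝ) = Real.exp 1 ^ j := by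
      rw [← Real.exp_nat_mul, mul_one]
    have h5 : ((N : ℝ) + j) / j ≤ A ^ 2 / 1800 := by
      rw [div_le_div_iff₀ hj0 (by norm_num)]
      have h6 : 3600 * (N : ℝ) ≤ j * A ^ 2 := by
        rwa [div_le_iff₀ hA2p] at hjlo
      nlinarith
    have h7 : Real.exp 1 * (A ^ 2 / 1800) ≤ A ^ 2 / 660 := by
      have := Real.exp_one_lt_d9
      nlinarith
    calc ((N + j - 1).choose j : ℝ) ≤ ((N + j - 1 : ℕ) : ℝ) ^ j / (j.factorial : ℝ) := h1
      _ ≤ ((N : ℝ) + j) ^ j / (j.factorial : ℝ) := by gcongr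
      _ = (((N : ℝ) + j) / j) ^ j * ((j : ℝ) ^ j / (j.factorial : ℝ)) := by
          rw [div_pow]
          field_simp
      _ ≤ (((N : ℝ) + j) / j) ^ j * Real.exp 1 ^ j := by
          rw [← h4]
          gcongr
      _ = (Real.exp 1 * (((N : ℝ) + j) / j)) ^ j := by rw [mul_pow, mul_comm]
      _ ≤ (Real.exp 1 * (A ^ 2 / 1800)) ^ j := by gcongr
      _ ≤ (A ^ 2 / 660) ^ j := by gcongr
  refine ⟨j, ?_, ?_⟩
  · have h1 : (18 / A) ^ (2 * j) = (324 / A ^ 2) ^ j := by
      rw [pow_mul, div_pow]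
      norm_num
    calc ((N + j - 1).choose j : ℝ) * (18 / A) ^ (2 * j)
        ≤ (A ^ 2 / 660) ^ j * (324 / A ^ 2) ^ j := by
          rw [h1]
          gcongr
      _ = (324 / 660) ^ j := by
          rw [← mul_pow]
          congr 1
          field_simp
      _ ≤ (1 / 2 : ℝ) ^ j := pow_le_pow_left₀ (by norm_num) (by norm_num) j
      _ ≤ (1 / 2 : ℝ) ^ 1 := pow_le_pow_of_le_one (by norm_num) (by norm_num) hj1
      _ = 1 / 2 := pow_one _
  · have hlog : 0 ≤ Real.log A := Real.log_nonneg (by linarith)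
    calc ((N + j - 1).choose j : ℝ) * 6 ^ (2 * j)
        ≤ (A ^ 2 / 660) ^ j * 36 ^ j := by
          rw [pow_mul]
          norm_num
          gcongr
      _ = (36 * A ^ 2 / 660) ^ j := by
          rw [← mul_pow]
          congr 1
          ring
      _ ≤ (A ^ 2) ^ j := by
          apply pow_le_pow_left₀ (by positivity)
          linarith
      _ = Real.exp (2 * j * Real.log A) := by
          have h2 : Real.exp (Real.log A) = A := Real.exp_log hA0
          have h3 : 2 * (j : ℝ) * Real.log A = ((2 * j : ℕ) : ℝ) * Real.log A := by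
            push_cast
            ring
          rw [h3, Real.exp_nat_mul, h2, pow_mul]
      _ ≤ Real.exp (2 * (3600 * N / A ^ 2 + 1) * Real.log A) := by
          gcongr
      _ = Real.exp (2 * Real.log A + 7200 * N * Real.log A / A ^ 2) := by
          congr 1
          ring
      _ = A ^ 2 * Real.exp (7200 * N * Real.log A / A ^ 2) := by
          rw [Real.exp_add]
          congr 1
          have h2 : Real.exp (Real.log A) = A := Real.exp_log hA0
          have h3 : 2 * Real.log A = ((2 : ℕ) : ℝ) * Real.log A := by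
            norm_num
          rw [h3, Real.exp_nat_mul, h2]

end Pool.Agent.Lib.MP_7ab245_nt.Cnt4
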