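import Mathlib

/-!
C4-Recur: the recursion for the even moments.

PROOF. `t f g := ∑_i x i f * x i g`, `K = t + w`, `M k := ∑_f ∑_g t^k`, `m = |ι|`.
(S) For every `k` and every kernel `w` with `∑∑ z_f z_g w_fg ≥ 0` for all `z`: `∑_f ∑_g t^k w ≥ 0`. Induction on `k` (for all kernels `w` at once):
`t^(k+1) w = ∑_i (x i f * x i g * w f g) t^k` and the kernel `x i f * x i g * w f g` has the same property (replace `z` by `z * x i`). In particular with `w = 1`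
(`∑∑ z_f z_g = (∑ z)² ≥ 0`): `M k ≥ 0` for every `k`.
(1) Even power `2j`: `∑∑ t^(2j) K = M (2j+1) + ∑∑ t^(2j) w ≥ 0`. As `|K| = 2 K⁺ - K` and `t^(2j) ≥ 0`:
`∑∑ t^(2j) |K| ≤ 2 ∑∑ t^(2j) K⁺ ≤ 2 κ M (2j) + 2 m b^(2j) D` (off the diagonal `K⁺ ≤ κ`, on the diagonal `K⁺ ≤ D`, `0 ≤ t f f ≤ b`).
(2) `M (2j+2) = ∑∑ t^(2j+1) t ≤ ∑∑ t^(2j+1) K` (by (S) for `k = 2j+1`) `≤ ∑∑ |t|^(2j+1) |K|`, and `|t|^(2j+1) ≤ κ t^(2j) + t^(2j+2)/(4κ)` (AM-GM). So
`M (2j+2) ≤ κ (2 κ M (2j) + 2 m b^(2j) D) + (1/(4κ)) (2 κ M (2j+2) + 2 m b^(2j+2) D)`, that is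
`(1/2) M (2j+2) ≤ 2κ² M (2j) + m b^(2j) D (2κ + b²/(2κ))`.
-/

set_option autoImplicit false

open Finset

namespace Pool.Agent.Lib.MP_7ab245_nt.Cnt4

private theorem recur_S {ι A : Type} [Fintype ι] [Fintype A] (x : A → ι → ℝ) (k : ℕ) :
    ∀ w : ι → ι → ℝ, (∀ z : ι → ℝ, 0 ≤ ∑ f, ∑ g, z f * z g * w f g) →
      0 ≤ ∑ f, ∑ g, (∑ i, x i f * x i g) ^ k * w f g := by
  induction k with
  | zero =>
    intro w hw
    have := hw (fun _ => 1)
    simpa using this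
  | succ k ih =>
    intro w hw
    have h1 : ∀ f g, (∑ i, x i f * x i g) ^ (k + 1) * w f g =
        ∑ i, (∑ i, x i f * x i g) ^ k * (x i f * x i g * w f g) := by
      intro f g
      rw [← Finset.mul_sum, ← Finset.sum_mul, pow_succ]
      ring
    have h2 : ∑ f, ∑ g, (∑ i, x i f * x i g) ^ (k + 1) * w f g =
        ∑ i, ∑ f, ∑ g, (∑ i, x i f * x i g) ^ k * (x i f * x i g * w f g) := by
      simp_rw [h1]
      rw [Finset.sum_comm]
      have h3 : ∀ g, ∑ f, ∑ i, (∑ i, x i f * x i g) ^ k * (x i f * x i g * w f g) =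
          ∑ i, ∑ f, (∑ i, x i f * x i g) ^ k * (x i f * x i g * w f g) :=
        fun g => Finset.sum_comm
      simp_rw [h3]
      rw [Finset.sum_comm]
      refine Finset.sum_congr rfl fun i _ => ?_
      exact Finset.sum_comm
    rw [h2]
    refine Finset.sum_nonneg fun i _ => ih (fun f g => x i f * x i g * w f g) fun z => ?_
    refine (hw (fun f => z f * x i f)).trans (le_of_eq ?_)
    refine Finset.sum_congr rfl fun f _ => Finset.sum_congr rfl fun g _ => ?_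
    ring

private theorem recur_M {ι A : Type} [Fintype ι] [Fintype A] (x : A → ι → ℝ) (k : ℕ) :
    0 ≤ ∑ f, ∑ g, (∑ i, x i f * x i g) ^ k := by
  have h := recur_S x k (fun _ _ => 1) fun z => by
    have h1 : ∑ f, ∑ g, z f * z g * (1 : ℝ) = (∑ f, z f) ^ 2 := by
      rw [pow_two, Finset.sum_mul_sum]
      simp
    rw [h1]
    positivity
  simpa using h

private theorem recur_A {ι A : Type} [Fintype ι] [Fintype A] (x : A → ι → ℝ) (K : ι → ι → ℝ)
    (κ D b : ℝ) (hκ : 0 < κ) (hD0 : 0 ≤ D)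
    (hw : ∀ z : ι → ℝ, 0 ≤ ∑ f, ∑ g, z f * z g * (K f g - ∑ i, x i f * x i g))
    (hK : ∀ f g, f ≠ g → K f g ≤ κ) (hD : ∀ f, K f f ≤ D) (hb : ∀ f, ∑ i, x i f ^ 2 ≤ b)
    (j : ℕ) :
    ∑ f, ∑ g, (∑ i, x i f * x i g) ^ (2 * j) * |K f g| ≤
      2 * κ * (∑ f, ∑ g, (∑ i, x i f * x i g) ^ (2 * j)) +
        2 * (Fintype.card ι * b ^ (2 * j) * D) := by
  classical
  have h1 : 0 ≤ ∑ f, ∑ g, (∑ i, x i f * x i g) ^ (2 * j) * K f g := by
    have h2 := recur_S x (2 * j) _ hw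
    have h3 := recur_M x (2 * j + 1)
    refine (add_nonneg h2 h3).trans (le_of_eq ?_)
    rw [← Finset.sum_add_distrib]
    refine Finset.sum_congr rfl fun f _ => ?_
    rw [← Finset.sum_add_distrib]
    refine Finset.sum_congr rfl fun g _ => ?_
    ring
  have h4 : ∀ f g, (∑ i, x i f * x i g) ^ (2 * j) * |K f g| ≤
      2 * (κ * (∑ i, x i f * x i g) ^ (2 * j) + if f = g then b ^ (2 * j) * D else 0) -
        (∑ i, x i f * x i g) ^ (2 * j) * K f g := by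
    intro f g
    have h5 : 0 ≤ (∑ i, x i f * x i g) ^ (2 * j) := by
      rw [pow_mul]
      positivity
    have h6 : |K f g| = 2 * max (K f g) 0 - K f g := by
      rcases le_total 0 (K f g) with h | h
      · rw [abs_of_nonneg h, max_eq_left h]; ring
      · rw [abs_of_nonpos h, max_eq_right h]; ring
    have h7 : (∑ i, x i f * x i g) ^ (2 * j) * max (K f g) 0 ≤
        κ * (∑ i, x i f * x i g) ^ (2 * j) + if f = g then b ^ (2 * j) * D else 0 := by
      by_cases hfg : f = g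
      · subst hfg
        rw [if_pos rfl]
        have h8 : 0 ≤ ∑ i, x i f * x i f := Finset.sum_nonneg fun i _ => mul_self_nonneg _
        have h9 : ∑ i, x i f * x i f ≤ b := by
          refine le_trans (le_of_eq ?_) (hb f)
          exact Finset.sum_congr rfl fun i _ => (pow_two _).symm
        have h10 : (∑ i, x i f * x i f) ^ (2 * j) ≤ b ^ (2 * j) := pow_le_pow_left₀ h8 h9 _
        have h11 : max (K f f) 0 ≤ D := max_le (hD f) hD0
        have h12 : (∑ i, x i f * x i f) ^ (2 * j) * max (K f f) 0 ≤ b ^ (2 * j) * D :=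
          mul_le_mul h10 h11 (le_max_right _ _) (h5.trans h10)
        have h13 := mul_nonneg hκ.le h5
        linarith
      · rw [if_neg hfg, add_zero, mul_comm κ]
        exact mul_le_mul_of_nonneg_left (max_le (hK f g hfg) hκ.le) h5
    rw [h6]
    linarith
  have h5 : ∑ f, ∑ g, (∑ i, x i f * x i g) ^ (2 * j) * |K f g| ≤
      ∑ f, ∑ g, (2 * (κ * (∑ i, x i f * x i g) ^ (2 * j) + if f = g then b ^ (2 * j) * D else 0) -
        (∑ i, x i f * x i g) ^ (2 * j) * K f g) :=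
    Finset.sum_le_sum fun f _ => Finset.sum_le_sum fun g _ => h4 f g
  refine h5.trans ?_
  have h6 : ∑ f, ∑ g, (2 * (κ * (∑ i, x i f * x i g) ^ (2 * j) +
      if f = g then b ^ (2 * j) * D else 0) - (∑ i, x i f * x i g) ^ (2 * j) * K f g) =
      2 * (κ * (∑ f, ∑ g, (∑ i, x i f * x i g) ^ (2 * j)) +
        ∑ f : ι, ∑ g : ι, if f = g then b ^ (2 * j) * D else 0) -
        ∑ f, ∑ g, (∑ i, x i f * x i g) ^ (2 * j) * K f g := by
    simp only [Finset.sum_sub_distrib, ← Finset.mul_sum, Finset.sum_add_distrib]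
  rw [h6]
  have h7 : (∑ f : ι, ∑ g : ι, if f = g then b ^ (2 * j) * D else 0) =
      Fintype.card ι * b ^ (2 * j) * D := by
    simp only [Finset.sum_ite_eq, Finset.mem_univ, if_true, Finset.sum_const, Finset.card_univ,
      nsmul_eq_mul]
    ring
  rw [h7]
  linarith

theorem recur {ι A : Type} [Fintype ι] [Fintype A] (x : A → ι → ℝ) (K : ι → ι → ℝ)
    (κ D b : ℝ) (hκ : 0 < κ) (hD0 : 0 ≤ D)
    (hw : ∀ z : ι → ℝ, 0 ≤ ∑ f, ∑ g, z f * z g * (K f g - ∑ i, x i f * x i g))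
    (hK : ∀ f g, f ≠ g → K f g ≤ κ) (hD : ∀ f, K f f ≤ D) (hb : ∀ f, ∑ i, x i f ^ 2 ≤ b)
    (j : ℕ) :
    ∑ f, ∑ g, (∑ i, x i f * x i g) ^ (2 * j + 2) ≤
      4 * κ ^ 2 * (∑ f, ∑ g, (∑ i, x i f * x i g) ^ (2 * j)) +
        Fintype.card ι * b ^ (2 * j) * D * (4 * κ + b ^ 2 / κ) := by
  have hA := recur_A x K κ D b hκ hD0 hw hK hD hb j
  have hA1 := recur_A x K κ D b hκ hD0 hw hK hD hb (j + 1)
  have e1 : 2 * (j + 1) = 2 * j + 2 := by ring
  rw [e1] at hA1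
  have h1 : ∑ f, ∑ g, (∑ i, x i f * x i g) ^ (2 * j + 2) ≤
      ∑ f, ∑ g, (∑ i, x i f * x i g) ^ (2 * j + 1) * K f g := by
    have h2 := recur_S x (2 * j + 1) _ hw
    have h3 : ∑ f, ∑ g, (∑ i, x i f * x i g) ^ (2 * j + 1) * K f g =
        ∑ f, ∑ g, (∑ i, x i f * x i g) ^ (2 * j + 2) +
        ∑ f, ∑ g, (∑ i, x i f * x i g) ^ (2 * j + 1) * (K f g - ∑ i, x i f * x i g) := by
      rw [← Finset.sum_add_distrib]
      refine Finset.sum_congr rfl fun f _ => ?_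
      rw [← Finset.sum_add_distrib]
      refine Finset.sum_congr rfl fun g _ => ?_
      ring
    rw [h3]
    linarith
  have h2 : ∀ f g, (∑ i, x i f * x i g) ^ (2 * j + 1) * K f g ≤
      κ * ((∑ i, x i f * x i g) ^ (2 * j) * |K f g|) +
        (1 / (4 * κ)) * ((∑ i, x i f * x i g) ^ (2 * j + 2) * |K f g|) := by
    intro f g
    set T := ∑ i, x i f * x i g with hT
    have h5 : 0 ≤ T ^ (2 * j) := by
      rw [pow_mul]
      positivity
    have h6 : |T| ≤ κ + 1 / (4 * κ) * T ^ 2 := by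
      have h7 : 0 ≤ (κ - |T| / 2) ^ 2 := sq_nonneg _
      have h8 : κ + 1 / (4 * κ) * T ^ 2 - |T| = (κ - |T| / 2) ^ 2 / κ := by
        rw [← sq_abs T]
        field_simp
        ring
      have h9 : 0 ≤ (κ - |T| / 2) ^ 2 / κ := div_nonneg h7 hκ.le
      linarith
    have h7 : T ^ (2 * j + 1) * K f g ≤ T ^ (2 * j) * (|T| * |K f g|) := by
      rw [pow_succ, mul_assoc, ← abs_mul]
      exact mul_le_mul_of_nonneg_left (le_abs_self _) h5
    have h8 : T ^ (2 * j) * (|T| * |K f g|) ≤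
        T ^ (2 * j) * ((κ + 1 / (4 * κ) * T ^ 2) * |K f g|) :=
      mul_le_mul_of_nonneg_left (mul_le_mul_of_nonneg_right h6 (abs_nonneg _)) h5
    refine h7.trans (h8.trans (le_of_eq ?_))
    ring
  have h3 : ∑ f, ∑ g, (∑ i, x i f * x i g) ^ (2 * j + 1) * K f g ≤
      κ * (∑ f, ∑ g, (∑ i, x i f * x i g) ^ (2 * j) * |K f g|) +
        (1 / (4 * κ)) * (∑ f, ∑ g, (∑ i, x i f * x i g) ^ (2 * j + 2) * |K f g|) := by
    refine (Finset.sum_le_sum fun f _ => Finset.sum_le_sum fun g _ => h2 f g).trans (le_of_eq ?_)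
    simp only [Finset.sum_add_distrib, Finset.mul_sum]
  have h4 := mul_le_mul_of_nonneg_left hA hκ.le
  have h5 := mul_le_mul_of_nonneg_left hA1 (by positivity : (0 : ℝ) ≤ 1 / (4 * κ))
  set M0 := ∑ f, ∑ g, (∑ i, x i f * x i g) ^ (2 * j) with hM0
  set M2 := ∑ f, ∑ g, (∑ i, x i f * x i g) ^ (2 * j + 2) with hM2
  have h6 : M2 ≤ κ * (2 * κ * M0 + 2 * (Fintype.card ι * b ^ (2 * j) * D)) +
      1 / (4 * κ) * (2 * κ * M2 + 2 * (Fintype.card ι * b ^ (2 * j + 2) * D)) := by linarith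
  have h7 : κ * (2 * κ * M0 + 2 * (Fintype.card ι * b ^ (2 * j) * D)) +
      1 / (4 * κ) * (2 * κ * M2 + 2 * (Fintype.card ι * b ^ (2 * j + 2) * D)) =
      M2 / 2 + (4 * κ ^ 2 * M0 +
        Fintype.card ι * b ^ (2 * j) * D * (4 * κ + b ^ 2 / κ)) / 2 := by
    field_simp
    ring
  rw [h7] at h6
  linarith

end Pool.Agent.Lib.MP_7ab245_nt.Cnt4
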