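import Pool.Agent.Lib.MP_7ab245_nt.Cnt4.Rank
import Pool.Agent.Lib.MP_7ab245_nt.Cnt4.Recur

/-!
C4-Tens: few vectors with small mutual energies have a large part in a space of small dimension.

PROOF. `M k` as in Recur.lean, `m = |ι|` (`m = 0` is trivial), `E := D (4κ/b² + 1/κ) ≤ 3 D / (2 κ)` (`8κ² ≤ b²`). Induction on `j`:
`M (2j) ≤ (4κ²)^j m² + 2 b^(2j) m E` (`j = 0`: `M 0 = m²`; step: recur, `D (4κ + b²/κ) = b² E` and `4κ² * 2 b^(2j) m E ≤ b^(2j+2) m E`). With rank_lower, `R := (|A|+j-1).choose j`: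
`m² a^(2j) ≤ R (2κ)^(2j) m² + 3 R b^(2j) m D / κ`; divide by `m a^(2j)`: `m ≤ R (2κ/a)^(2j) m + 3 (D/κ) R (b/a)^(2j) ≤ m/2 + ...`.
(`b > 0` as `0 < a ≤ ∑ x² ≤ b` if `ι` is nonempty; `D ≥ 0` follows from `hw` with `z = Pi.single f 1`: `K f f ≥ ∑ x² ≥ a`.)
-/

set_option autoImplicit false

open Finset

namespace Pool.Agent.Lib.MP_7ab245_nt.Cnt4

private lemma tens_up {ι A : Type} [Fintype ι] [Fintype A] (x : A → ι → ℝ) (K : ι → ι → ℝ)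
    (κ D b : ℝ) (hκ : 0 < κ) (hD0 : 0 ≤ D) (hb0 : 0 < b) (hκb : 8 * κ ^ 2 ≤ b ^ 2)
    (hw : ∀ z : ι → ℝ, 0 ≤ ∑ f, ∑ g, z f * z g * (K f g - ∑ i, x i f * x i g))
    (hK : ∀ f g, f ≠ g → K f g ≤ κ) (hD : ∀ f, K f f ≤ D)
    (hb : ∀ f, ∑ i, x i f ^ 2 ≤ b) (j : ℕ) :
    ∑ f, ∑ g, (∑ i, x i f * x i g) ^ (2 * j) ≤
      (2 * κ) ^ (2 * j) * (Fintype.card ι : ℝ) ^ 2 +
        3 * (D / κ) * b ^ (2 * j) * Fintype.card ι := by
  have hm0 : (0 : ℝ) ≤ Fintype.card ι := Nat.cast_nonneg _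
  have hDκ : 0 ≤ D / κ := div_nonneg hD0 hκ.le
  induction j with
  | zero =>
    simp only [Nat.mul_zero, pow_zero, one_mul, mul_one, sum_const, card_univ, nsmul_eq_mul]
    have : 0 ≤ 3 * (D / κ) * (Fintype.card ι : ℝ) := by positivity
    nlinarith
  | succ j ih =>
    have h1 := recur x K κ D b hκ hD0 hw hK hD hb j
    have e1 : 2 * (j + 1) = 2 * j + 2 := by ring
    rw [e1]
    refine h1.trans ?_
    have h2 : 4 * κ ^ 2 * (∑ f, ∑ g, (∑ i, x i f * x i g) ^ (2 * j)) ≤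
        4 * κ ^ 2 * ((2 * κ) ^ (2 * j) * (Fintype.card ι : ℝ) ^ 2 +
        3 * (D / κ) * b ^ (2 * j) * Fintype.card ι) := mul_le_mul_of_nonneg_left ih (by positivity)
    -- `D (4 κ + b² / κ) ≤ (3 / 2) (D / κ) b²`
    have h3 : D * (4 * κ + b ^ 2 / κ) ≤ 3 / 2 * (D / κ) * b ^ 2 := by
      have e2 : D * (4 * κ + b ^ 2 / κ) = (D / κ) * (4 * κ ^ 2 + b ^ 2) := by
        field_simp
      have e3 : 3 / 2 * (D / κ) * b ^ 2 = (D / κ) * (3 / 2 * b ^ 2) := by ring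
      rw [e2, e3]
      exact mul_le_mul_of_nonneg_left (by linarith) hDκ
    have h4 : (Fintype.card ι : ℝ) * b ^ (2 * j) * D * (4 * κ + b ^ 2 / κ) ≤
        (Fintype.card ι : ℝ) * b ^ (2 * j) * (3 / 2 * (D / κ) * b ^ 2) := by
      rw [mul_assoc ((Fintype.card ι : ℝ) * b ^ (2 * j))]
      exact mul_le_mul_of_nonneg_left h3 (by positivity)
    have h5 : 4 * κ ^ 2 * (3 * (D / κ) * b ^ (2 * j) * Fintype.card ι) ≤
        (b ^ 2 / 2) * (3 * (D / κ) * b ^ (2 * j) * Fintype.card ι) :=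
      mul_le_mul_of_nonneg_right (by linarith) (by positivity)
    have e4 : (2 * κ) ^ (2 * j + 2) = 4 * κ ^ 2 * (2 * κ) ^ (2 * j) := by ring
    have e5 : b ^ (2 * j + 2) = b ^ (2 * j) * b ^ 2 := by ring
    rw [e4, e5]
    nlinarith

theorem tens {ι A : Type} [Fintype ι] [Fintype A] (x : A → ι → ℝ) (K : ι → ι → ℝ)
    (κ D a b : ℝ) (hκ : 0 < κ) (hD0 : 0 ≤ D) (ha0 : 0 < a) (hb0 : 0 < b)
    (hκb : 8 * κ ^ 2 ≤ b ^ 2)
    (hw : ∀ z : ι → ℝ, 0 ≤ ∑ f, ∑ g, z f * z g * (K f g - ∑ i, x i f * x i g))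
    (hK : ∀ f g, f ≠ g → K f g ≤ κ) (hD : ∀ f, K f f ≤ D)
    (ha : ∀ f, a ≤ ∑ i, x i f ^ 2) (hb : ∀ f, ∑ i, x i f ^ 2 ≤ b) (j : ℕ)
    (hj : ((Fintype.card A + j - 1).choose j : ℝ) * (2 * κ / a) ^ (2 * j) ≤ 1 / 2) :
    (Fintype.card ι : ℝ) ≤
      6 * (D / κ) * (((Fintype.card A + j - 1).choose j : ℝ) * (b / a) ^ (2 * j)) := by
  have hm0 : (0 : ℝ) ≤ Fintype.card ι := Nat.cast_nonneg _
  have hDκ : 0 ≤ D / κ := div_nonneg hD0 hκ.le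
  have hR0 : (0 : ℝ) ≤ ((Fintype.card A + j - 1).choose j : ℝ) := Nat.cast_nonneg _
  rcases eq_or_lt_of_le hm0 with hm | hm
  · rw [← hm]
    positivity
  · have h1 := rank_lower x j a ha0.le ha
    have h2 := tens_up x K κ D b hκ hD0 hb0 hκb hw hK hD hb j
    have h3 : ((Fintype.card ι : ℝ) * a ^ j) ^ 2 ≤ ((Fintype.card A + j - 1).choose j : ℝ) *
        ((2 * κ) ^ (2 * j) * (Fintype.card ι : ℝ) ^ 2 +
        3 * (D / κ) * b ^ (2 * j) * Fintype.card ι) :=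
      h1.trans (mul_le_mul_of_nonneg_left h2 hR0)
    have ha1 : (0 : ℝ) < a ^ (2 * j) := by positivity
    have e1 : ((Fintype.card ι : ℝ) * a ^ j) ^ 2 =
        (Fintype.card ι : ℝ) * (a ^ (2 * j) * Fintype.card ι) := by ring
    have e2 : ((Fintype.card A + j - 1).choose j : ℝ) *
        ((2 * κ) ^ (2 * j) * (Fintype.card ι : ℝ) ^ 2 +
        3 * (D / κ) * b ^ (2 * j) * Fintype.card ι) =
        (Fintype.card ι : ℝ) * (a ^ (2 * j) *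
          (((Fintype.card A + j - 1).choose j : ℝ) * (2 * κ / a) ^ (2 * j) * Fintype.card ι +
          3 * (D / κ) * (((Fintype.card A + j - 1).choose j : ℝ) * (b / a) ^ (2 * j)))) := by
      rw [div_pow, div_pow]
      field_simp
    rw [e1, e2] at h3
    have h4 := le_of_mul_le_mul_left (le_of_mul_le_mul_left h3 hm) ha1
    have h5 : ((Fintype.card A + j - 1).choose j : ℝ) * (2 * κ / a) ^ (2 * j) * Fintype.card ι ≤
        1 / 2 * Fintype.card ι := mul_le_mul_of_nonneg_right hj hm0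
    linarith

end Pool.Agent.Lib.MP_7ab245_nt.Cnt4
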