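import Pool.Agent.Lib.MP_7ab245_nt.Cnt4.Par
import Pool.Agent.Lib.MP_7ab245_nt.Cnt4.Tens
import Pool.Agent.Lib.MP_7ab245_nt.Cnt4.Jnum

/-!
C4-Few: few polynomials have a large energy at the frequencies up to `N`.

PROOF. `tens` with `ι := {f // f ∈ G}`, `A := Bool × {l // l ∈ Icc 1 N}` (cardinality `2 N`), `s := 1/(d r)`,
`x (b, l) f := √(exp (-s l) / l) * (re or im of QQ l f)`, `K f g := KK s f g`, `κ := 3 e0`, `D := e0 * B0`, `a := A e0 / 3`, `b := 2 A e0`.
`∑_i x i f * x i g = ∑_{l ∈ Icc 1 N} exp (-s l)/l * (QQ l f conj (QQ l g)).re`; so hw is `psd` (Psd.lean: `∑∑ z_f z_g ∑_i x i f x i g = ∑_l exp (-s l)/l ‖∑ z_f QQ l f‖²`).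
hK: cross_le, hD: diag_le. `exp (-s l) ≥ 1/3` for `l ≤ N ≤ d r` and `exp (-s l) ≤ 1` give ha, hb from hE. `8 κ² = 72 e0² ≤ 4 A² e0² = b²`. `2 κ / a = 18 / A`, `b / a = 6`, `D / κ = B0 / 3`.
`j` from jnum with `2 N`.
-/

set_option autoImplicit false

open Finset

namespace Pool.Agent.Lib.MP_7ab245_nt.Cnt4

open Pool.Agent.Lib.MP_7ab245_nt.LogVar Pool.Agent.Lib.MP_7ab245_nt.Cnt

/-- the coordinates -/
private noncomputable def fx (s : ℝ) (N : ℕ) (G : Finset (Polynomial ℤ)) :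
    Bool × (Icc 1 N : Finset ℕ) → {f // f ∈ G} → ℝ :=
  fun i f => √(Real.exp (-s * (i.2.1 : ℕ)) / (i.2.1 : ℕ)) *
    (if i.1 then (QQ i.2.1 f.1).re else (QQ i.2.1 f.1).im)

private theorem fw_nonneg (s : ℝ) (l : ℕ) : 0 ≤ Real.exp (-s * l) / l := by positivity

private theorem fx_sum (s : ℝ) (N : ℕ) (G : Finset (Polynomial ℤ)) (z : {f // f ∈ G} → ℝ) :
    ∑ i, (∑ f, z f * fx s N G i f) ^ 2 =
      ∑ l ∈ Icc 1 N, Real.exp (-s * l) / l * ‖∑ f, (z f : ℂ) * QQ l f.1‖ ^ 2 := by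
  rw [Fintype.sum_prod_type, Fintype.sum_bool, ← Finset.sum_add_distrib,
    ← Finset.sum_coe_sort (Icc 1 N)]
  refine Finset.sum_congr rfl fun l _ => ?_
  have h1 : ∑ f, z f * fx s N G (true, l) f =
      √(Real.exp (-s * (l.1 : ℕ)) / (l.1 : ℕ)) * (∑ f, (z f : ℂ) * QQ l.1 f.1).re := by
    rw [Complex.re_sum, Finset.mul_sum]
    refine Finset.sum_congr rfl fun f _ => ?_
    unfold fx
    rw [Complex.re_ofReal_mul]
    simp only [if_true]
    ring
  have h2 : ∑ f, z f * fx s N G (false, l) f =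
      √(Real.exp (-s * (l.1 : ℕ)) / (l.1 : ℕ)) * (∑ f, (z f : ℂ) * QQ l.1 f.1).im := by
    rw [Complex.im_sum, Finset.mul_sum]
    refine Finset.sum_congr rfl fun f _ => ?_
    unfold fx
    rw [Complex.im_ofReal_mul]
    simp only [Bool.false_eq_true, if_false]
    ring
  rw [h1, h2, mul_pow, mul_pow, Real.sq_sqrt (fw_nonneg s l.1), ← mul_add, ← Complex.normSq_eq_norm_sq,
    Complex.normSq_apply]
  ring

private theorem fx_diag (s : ℝ) (N : ℕ) (G : Finset (Polynomial ℤ)) (f : {f // f ∈ G}) :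
    ∑ i, fx s N G i f ^ 2 = ∑ l ∈ Icc 1 N, Real.exp (-s * l) / l * ‖QQ l f.1‖ ^ 2 := by
  classical
  have h := fx_sum s N G (Pi.single f 1)
  have h1 : ∀ i, ∑ g, (Pi.single f (1 : ℝ) : {f // f ∈ G} → ℝ) g * fx s N G i g = fx s N G i f := by
    intro i
    rw [Finset.sum_eq_single f]
    · rw [Pi.single_eq_same, one_mul]
    · intro g _ hg
      rw [Pi.single_eq_of_ne hg, zero_mul]
    · intro h
      exact absurd (Finset.mem_univ f) h
  have h2 : ∀ l, ∑ g : {f // f ∈ G}, (((Pi.single f (1 : ℝ) : {f // f ∈ G} → ℝ) g : ℝ) : ℂ) * QQ l g.1 =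
      QQ l f.1 := by
    intro l
    rw [Finset.sum_eq_single f]
    · rw [Pi.single_eq_same, Complex.ofReal_one, one_mul]
    · intro g _ hg
      rw [Pi.single_eq_of_ne hg, Complex.ofReal_zero, zero_mul]
    · intro h
      exact absurd (Finset.mem_univ f) h
  simp only [h1, h2] at h
  exact h

private theorem fexp {t : ℝ} (ht : t ≤ 1) : 1 / 3 ≤ Real.exp (-t) := by
  have h1 : Real.exp (-1) ≤ Real.exp (-t) := Real.exp_le_exp.2 (by linarith)
  have h2 : Real.exp 1 ≤ 3 := (Real.exp_one_lt_d9.trans (by norm_num)).le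
  have h3 : 1 / 3 ≤ Real.exp (-1) := by
    rw [Real.exp_neg, ← one_div]
    exact one_div_le_one_div_of_le (Real.exp_pos 1) h2
  exact h3.trans h1

theorem few (d r : ℕ) (T : ℝ) (hd : 1 ≤ d) (hr : 1 ≤ r) (hT : 1 ≤ T) (N : ℕ) (hN : 1 ≤ N)
    (hNr : N ≤ d * r) (A : ℝ) (hA : 60 ≤ A) (G : Finset (Polynomial ℤ))
    (hG : ∀ f ∈ G, Ok d r T f)
    (hE : ∀ f ∈ G, A * e0 d r T ≤ En N f ∧ En N f ≤ 2 * A * e0 d r T) :
    (G.card : ℝ) ≤ 2 * B0 d r * (A ^ 2 * Real.exp (14400 * N * Real.log A / A ^ 2)) := by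
  obtain ⟨s, hs⟩ : ∃ s : ℝ, s = 1 / ((d : ℝ) * r) := ⟨_, rfl⟩
  have hd0 : (0 : ℝ) < d := by exact_mod_cast hd
  have hr0 : (0 : ℝ) < r := by exact_mod_cast hr
  have hs0 : 0 < s := by rw [hs]; positivity
  have he : 1 ≤ e0 d r T := e0_ge d r T hT
  have he0 : 0 < e0 d r T := by linarith
  have hB : 3 ≤ B0 d r := B0_ge d r hd hr
  have hA0 : 0 < A := by linarith
  have hsl : ∀ l ∈ Icc 1 N, s * (l : ℝ) ≤ 1 := by
    intro l hl
    have h1 : (l : ℝ) ≤ (d : ℝ) * r := by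
      exact_mod_cast (Finset.mem_Icc.1 hl).2.trans hNr
    rw [hs, one_div, inv_mul_le_iff₀ (by positivity), mul_one]
    exact h1
  have hlow : ∀ f : {f // f ∈ G}, A * e0 d r T / 3 ≤ ∑ i, fx s N G i f ^ 2 := by
    intro f
    rw [fx_diag]
    have h1 : En N f.1 / 3 ≤ ∑ l ∈ Icc 1 N, Real.exp (-s * l) / l * ‖QQ l f.1‖ ^ 2 := by
      unfold En
      rw [Finset.sum_div]
      refine Finset.sum_le_sum fun l hl => ?_
      have h2 : 1 / 3 ≤ Real.exp (-s * l) := by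
        rw [neg_mul]
        exact fexp (hsl l hl)
      have h3 : (0 : ℝ) ≤ ‖QQ l f.1‖ ^ 2 / l := by positivity
      calc ‖QQ l f.1‖ ^ 2 / l / 3 = 1 / 3 * (‖QQ l f.1‖ ^ 2 / l) := by ring
        _ ≤ Real.exp (-s * l) * (‖QQ l f.1‖ ^ 2 / l) := mul_le_mul_of_nonneg_right h2 h3
        _ = Real.exp (-s * l) / l * ‖QQ l f.1‖ ^ 2 := by ring
    have h4 := (hE f.1 f.2).1
    linarith
  have hup : ∀ f : {f // f ∈ G}, ∑ i, fx s N G i f ^ 2 ≤ 2 * A * e0 d r T := by
    intro f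
    rw [fx_diag]
    have h1 : ∑ l ∈ Icc 1 N, Real.exp (-s * l) / l * ‖QQ l f.1‖ ^ 2 ≤ En N f.1 := by
      unfold En
      refine Finset.sum_le_sum fun l hl => ?_
      have h2 : Real.exp (-s * l) ≤ 1 := by
        rw [Real.exp_le_one_iff]
        have : 0 ≤ s * (l : ℝ) := by positivity
        linarith
      have h3 : (0 : ℝ) ≤ ‖QQ l f.1‖ ^ 2 / l := by positivity
      calc Real.exp (-s * l) / l * ‖QQ l f.1‖ ^ 2 = Real.exp (-s * l) * (‖QQ l f.1‖ ^ 2 / l) := by ring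
        _ ≤ 1 * (‖QQ l f.1‖ ^ 2 / l) := mul_le_mul_of_nonneg_right h2 h3
        _ = ‖QQ l f.1‖ ^ 2 / l := one_mul _
    exact h1.trans (hE f.1 f.2).2
  have hw : ∀ z : {f // f ∈ G} → ℝ, 0 ≤ ∑ f, ∑ g, z f * z g *
      (KK s f.1 g.1 - ∑ i, fx s N G i f * fx s N G i g) := by
    intro z
    have h1 := psd (fun f : {f // f ∈ G} => f.1) s hs0 N z
    rw [← fx_sum s N G z] at h1
    have h2 : ∑ f, ∑ g, z f * z g * (KK s f.1 g.1 - ∑ i, fx s N G i f * fx s N G i g) =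
        (∑ f, ∑ g, z f * z g * KK s f.1 g.1) - ∑ i, (∑ f, z f * fx s N G i f) ^ 2 := by
      have h3 : ∑ i, (∑ f, z f * fx s N G i f) ^ 2 =
          ∑ f, ∑ g, z f * z g * ∑ i, fx s N G i f * fx s N G i g := by
        calc ∑ i, (∑ f, z f * fx s N G i f) ^ 2
            = ∑ i, ∑ f, ∑ g, z f * z g * (fx s N G i f * fx s N G i g) := by
              refine Finset.sum_congr rfl fun i _ => ?_
              rw [sq, Finset.sum_mul_sum]
              refine Finset.sum_congr rfl fun f _ => Finset.sum_congr rfl fun g _ => ?_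
              ring
          _ = ∑ f, ∑ g, z f * z g * ∑ i, fx s N G i f * fx s N G i g := by
              rw [Finset.sum_comm]
              refine Finset.sum_congr rfl fun f _ => ?_
              rw [Finset.sum_comm]
              refine Finset.sum_congr rfl fun g _ => ?_
              rw [Finset.mul_sum]
      rw [h3, ← Finset.sum_sub_distrib]
      refine Finset.sum_congr rfl fun f _ => ?_
      rw [← Finset.sum_sub_distrib]
      refine Finset.sum_congr rfl fun g _ => ?_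
      ring
    rw [h2]
    linarith
  obtain ⟨j, hj1, hj2⟩ := jnum (2 * N) (by omega) A hA
  have hcard : Fintype.card (Bool × (Icc 1 N : Finset ℕ)) = 2 * N := by
    rw [Fintype.card_prod, Fintype.card_bool, Fintype.card_coe, Nat.card_Icc]
    omega
  have hcG : Fintype.card {f // f ∈ G} = G.card := Fintype.card_coe G
  have h2κ : 2 * (3 * e0 d r T) / (A * e0 d r T / 3) = 18 / A := by
    field_simp
    norm_num
  have hba : 2 * A * e0 d r T / (A * e0 d r T / 3) = 6 := by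
    field_simp
    norm_num
  have hDκ : e0 d r T * B0 d r / (3 * e0 d r T) = B0 d r / 3 := by
    field_simp
  have hmain := tens (fx s N G) (fun f g => KK s f.1 g.1) (3 * e0 d r T) (e0 d r T * B0 d r)
    (A * e0 d r T / 3) (2 * A * e0 d r T) (by linarith) (by positivity) (by positivity)
    (by positivity)
    (by
      have h1 : (60 : ℝ) * 60 ≤ A * A := mul_le_mul hA hA (by norm_num) hA0.le
      have h2 : (0 : ℝ) ≤ e0 d r T ^ 2 := sq_nonneg _
      nlinarith)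
    hw
    (by
      intro f g hfg
      rw [hs]
      exact cross_le d r T hd hr hT f.1 g.1 (hG f.1 f.2) (hG g.1 g.2) (fun h => hfg (Subtype.ext h)))
    (by
      intro f
      rw [hs]
      exact diag_le d r T hd hr hT f.1 (hG f.1 f.2))
    hlow hup j
    (by rw [hcard, h2κ]; exact hj1)
  rw [hcard, hcG, hba, hDκ] at hmain
  have h5 : (14400 : ℝ) * N * Real.log A / A ^ 2 = 7200 * ((2 * N : ℕ) : ℝ) * Real.log A / A ^ 2 := by
    push_cast
    ring
  rw [h5]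
  calc (G.card : ℝ) ≤ 6 * (B0 d r / 3) * (((2 * N + j - 1).choose j : ℝ) * 6 ^ (2 * j)) := hmain
    _ = 2 * B0 d r * (((2 * N + j - 1).choose j : ℝ) * 6 ^ (2 * j)) := by ring
    _ ≤ _ := mul_le_mul_of_nonneg_left hj2 (by linarith)

end Pool.Agent.Lib.MP_7ab245_nt.Cnt4
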