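import Pool.Agent.Lib.MP_7ab245_nt.Cnt3.Rel
import Pool.Agent.Lib.MP_7ab245_nt.Cnt4.All4

/-!
C4-Fin4: the final bound; all integer polynomials of degree `n` in terms of those of Mahler measure one.

PROOF. fin4: `all4` (`log T ≤ n` as `T < 2` or `T ≤ n^(1/2-ε) ≤ n`) gives the first term of the minimum. Second term: for `T ≥ 2` `big` in Cnt3/Fin3.lean (`Cnt3.EE n T ≤ n / log (2n)`); for `T < 2`
`T² √(n log T) ≤ 4 √n ≤ C n / log (2n)` (as `sqrt_le_EE` in Cnt3/Fin3.lean). `T = 1` is contained in all4. `C := ` sum of the constants.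
rel4: the proof of `rel` in Cnt3/Rel.lean with fin4 in place of fin3 (copy it). pat4: `Cnt2.fin2` with `r = 1` bounds the number of all `f` of degree `n` with `M(f) ≤ T`, the set of reductions is the image of this set.
pat1: the set of reductions is the image of the set in rel4.
-/

set_option autoImplicit false

open Polynomial Finset

namespace Pool.Agent.Lib.MP_7ab245_nt.Cnt4

open Pool.Agent.Lib.MP_7ab245_nt Pool.Agent.Lib.MP_7ab245_nt.Cnt3

/-- the exponent -/
noncomputable def E4 (n : ℕ) (T : ℝ) : ℝ :=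
  min (T ^ 2 * √(n * Real.log T)) (n / Real.log (2 * n))

theorem fin4 (ε : ℝ) (hε : 0 < ε) : ∃ C : ℝ, 0 < C ∧ ∀ (n : ℕ) (T : ℝ), 1 ≤ n → 1 ≤ T →
    (T < 2 ∨ T ≤ (n : ℝ) ^ (1 / 2 - ε)) → ∀ F : Finset ℤ[X], (∀ g ∈ F, g.natDegree ≤ n ∧
      Pool.Agent.Lib.MP_7ab245_nt.MM g ≤ T ∧ NC g) →
    (F.card : ℝ) ≤ 2 * Real.exp (C * E4 n T) := by
  obtain ⟨C1, hC1, h1⟩ := all4
  obtain ⟨C2, hC2, h2⟩ := big ε hε
  refine ⟨13 * C1 + C2, by positivity, ?_⟩
  intro n T hn hT hor F hF
  have hn0 : (1 : ℝ) ≤ n := by exact_mod_cast hn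
  have ht : 0 ≤ Real.log T := Real.log_nonneg hT
  have hL2 : (1 / 2 : ℝ) ≤ Real.log (2 * n) :=
    log_two_ge.trans (Real.log_le_log (by norm_num) (by linarith))
  have hTle : Real.log T ≤ T := by
    have := Real.log_le_sub_one_of_pos (show 0 < T by linarith)
    linarith
  have hlog : Real.log T ≤ n := by
    rcases hor with h | h
    · have h3 := Real.log_le_sub_one_of_pos (show 0 < T by linarith)
      linarith
    · have h3 : (n : ℝ) ^ (1 / 2 - ε) ≤ n := by
        calc (n : ℝ) ^ (1 / 2 - ε) ≤ (n : ℝ) ^ (1 : ℝ) :=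
              Real.rpow_le_rpow_of_exponent_le hn0 (by linarith)
          _ = n := Real.rpow_one _
      linarith
  have hA := h1 n T hn hT hlog F hF
  have hq0 : 0 ≤ T ^ 2 * √(n * Real.log T) := by positivity
  have hr0 : 0 ≤ n / Real.log (2 * n) := by positivity
  have hB : (F.card : ℝ) ≤ 2 * Real.exp ((13 * C1 + C2) * (n / Real.log (2 * n))) := by
    rcases lt_or_ge T 2 with hT2 | hT2
    · refine hA.trans (mul_le_mul_of_nonneg_left (Real.exp_le_exp.mpr ?_) (by norm_num))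
      have hT1 : Real.log T ≤ 1 := by
        have h3 := Real.log_le_sub_one_of_pos (show 0 < T by linarith)
        linarith
      have h4 : √(n * Real.log T) ≤ √n := by
        apply Real.sqrt_le_sqrt
        nlinarith
      have h5 : √(n : ℝ) ≤ 3 * (n / Real.log (2 * n)) := by
        rw [mul_div_assoc', le_div_iff₀ (by linarith)]
        have h6 : Real.log (2 * n) ≤ 3 * √n := by
          have h7 : Real.log (2 * n) = 2 * Real.log (√(2 * n)) := by
            rw [Real.log_sqrt (by positivity)]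
            ring
          have h8 := Real.log_le_sub_one_of_pos (show 0 < √(2 * (n : ℝ)) by positivity)
          have h9 : √(2 * (n : ℝ)) ≤ 3 / 2 * √n := by
            rw [Real.sqrt_le_left (by positivity), mul_pow, Real.sq_sqrt (by positivity)]
            linarith
          linarith
        have h10 : √(n : ℝ) * √n = n := Real.mul_self_sqrt (by positivity)
        nlinarith [Real.sqrt_nonneg (n : ℝ)]
      have h11 : T ^ 2 ≤ 4 := by nlinarith
      calc C1 * (T ^ 2 * √(n * Real.log T)) ≤ C1 * (4 * √n) := by gcongr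
        _ ≤ C1 * (4 * (3 * (n / Real.log (2 * n)))) := by gcongr
        _ = 12 * C1 * (n / Real.log (2 * n)) := by ring
        _ ≤ (13 * C1 + C2) * (n / Real.log (2 * n)) := by
            refine mul_le_mul_of_nonneg_right ?_ hr0
            linarith
    · have hTn : T ≤ (n : ℝ) ^ (1 / 2 - ε) := by
        rcases hor with h | h
        · linarith
        · exact h
      refine (h2 n T hn hT2 hTn F hF).trans ?_
      refine mul_le_mul_of_nonneg_left (Real.exp_le_exp.mpr ?_) (by norm_num)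
      have h3 : EE n T ≤ n / Real.log (2 * n) := min_le_right _ _
      calc C2 * EE n T ≤ C2 * (n / Real.log (2 * n)) := by gcongr
        _ ≤ (13 * C1 + C2) * (n / Real.log (2 * n)) := by
            refine mul_le_mul_of_nonneg_right ?_ hr0
            linarith
  unfold E4
  rcases le_total (T ^ 2 * √(n * Real.log T)) (n / Real.log (2 * n)) with h | h
  · rw [min_eq_left h]
    refine hA.trans (mul_le_mul_of_nonneg_left (Real.exp_le_exp.mpr ?_) (by norm_num))
    refine mul_le_mul_of_nonneg_right ?_ hq0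
    linarith
  · rw [min_eq_right h]
    exact hB

theorem rel4 (ε : ℝ) (hε : 0 < ε) : ∃ C : ℝ, 0 < C ∧ ∀ (n : ℕ) (T : ℝ), 1 ≤ n → 1 ≤ T →
    (T < 2 ∨ T ≤ (n : ℝ) ^ (1 / 2 - ε)) →
    ({f : ℤ[X] | f.natDegree = n ∧ Pool.Agent.Lib.MP_7ab245_nt.MM f ≤ T}.ncard : ℝ) ≤
      {f : ℤ[X] | f.natDegree = n ∧ Pool.Agent.Lib.MP_7ab245_nt.MM f = 1}.ncard *
        Real.exp (C * E4 n T) := by
  classical
  obtain ⟨C, hC0, hC⟩ := fin4 ε hε
  refine ⟨C, hC0, ?_⟩
  intro n T hn hT hor
  have hf1 : {f : ℤ[X] | f.natDegree = n ∧ Pool.Agent.Lib.MP_7ab245_nt.MM f = 1}.Finite :=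
    (fin_set n 1).subset fun f hf => ⟨hf.1.le, hf.2.le⟩
  have hf2 : {f : ℤ[X] | f.natDegree = n ∧ Pool.Agent.Lib.MP_7ab245_nt.MM f ≤ T}.Finite :=
    (fin_set n T).subset fun f hf => ⟨hf.1.le, hf.2⟩
  have hf3 : {g : ℤ[X] | (g.natDegree ≤ n ∧ Pool.Agent.Lib.MP_7ab245_nt.MM g ≤ T ∧ NC g) ∧
      0 < g.leadingCoeff}.Finite :=
    (fin_set n T).subset fun f hf => ⟨hf.1.1, hf.1.2.1⟩
  set A := hf1.toFinset with hA
  set S := hf2.toFinset with hS
  set G := hf3.toFinset with hG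
  have hGmem : ∀ g, g ∈ G ↔ (g.natDegree ≤ n ∧ Pool.Agent.Lib.MP_7ab245_nt.MM g ≤ T ∧ NC g) ∧
      0 < g.leadingCoeff := by
    intro g
    rw [hG, Set.Finite.mem_toFinset]
    rfl
  have hcG : (G.card : ℝ) ≤ Real.exp (C * E4 n T) := by
    have hdisj : Disjoint G (G.image fun g => -g) := by
      rw [Finset.disjoint_left]
      intro g hg hg'
      rw [mem_image] at hg'
      obtain ⟨h, hh, rfl⟩ := hg'
      rw [hGmem] at hg hh
      have h1 := hg.2
      rw [leadingCoeff_neg] at h1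
      have h2 := hh.2
      omega
    have h1 := hC n T hn hT hor (G ∪ G.image fun g => -g) (by
      intro g hg
      rw [mem_union, mem_image] at hg
      rcases hg with hg | ⟨h, hh, rfl⟩
      · exact ((hGmem g).mp hg).1
      · obtain ⟨⟨h1, h2, h3⟩, -⟩ := (hGmem h).mp hh
        refine ⟨by rwa [natDegree_neg], by rwa [MM_negc], NC_neg h3⟩)
    rw [Finset.card_union_of_disjoint hdisj,
      Finset.card_image_of_injective _ neg_injective] at h1
    push_cast at h1
    linarith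
  have hcS : S.card ≤ A.card * G.card := by
    rw [← Finset.card_product]
    have hch : ∀ f ∈ S, ∃ p : ℤ[X] × ℤ[X], f = p.1 * p.2 ∧
        Pool.Agent.Lib.MP_7ab245_nt.MM p.1 = 1 ∧ NC p.2 ∧ 0 < p.2.leadingCoeff := by
      intro f hf
      rw [hS, Set.Finite.mem_toFinset] at hf
      have hf0 : f ≠ 0 := by
        rintro rfl
        have := hf.1
        rw [natDegree_zero] at this
        omega
      obtain ⟨k, g, h1, h2, h3, h4⟩ := split_pos f hf0
      exact ⟨(k, g), h1, h2, h3, h4⟩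
    choose! p hp1 hp2 hp3 hp4 using hch
    apply Finset.card_le_card_of_injOn (fun f => ((p f).1 * X ^ (p f).2.natDegree, (p f).2))
    · intro f hf
      have hf' := hf
      rw [Finset.mem_coe, hS, Set.Finite.mem_toFinset] at hf'
      obtain ⟨hd, hM⟩ := hf'
      have h1 := hp1 f hf
      have h2 := hp2 f hf
      have h3 := hp3 f hf
      have h4 := hp4 f hf
      have hg0 := NC_ne_zero h3
      have hk0 : (p f).1 ≠ 0 := by
        intro h0
        rw [h0] at h2
        unfold Pool.Agent.Lib.MP_7ab245_nt.MM at h2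
        rw [Polynomial.map_zero, mahlerMeasure_zero] at h2
        exact zero_ne_one h2
      have h5 : (p f).1.natDegree + (p f).2.natDegree = n := by
        rw [← natDegree_mul hk0 hg0, ← h1, hd]
      have h6 : Pool.Agent.Lib.MP_7ab245_nt.MM (p f).2 ≤ T := by
        have h7 : Pool.Agent.Lib.MP_7ab245_nt.MM f = Pool.Agent.Lib.MP_7ab245_nt.MM (p f).2 := by
          conv_lhs => rw [h1]
          rw [MM_mulc, h2, one_mul]
        rw [← h7]
        exact hM
      rw [Finset.mem_coe, mem_product]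
      refine ⟨?_, ?_⟩
      · rw [hA, Set.Finite.mem_toFinset]
        refine ⟨?_, ?_⟩
        · dsimp only
          rw [natDegree_mul hk0 (pow_ne_zero _ X_ne_zero), natDegree_X_pow]
          exact h5
        · dsimp only
          rw [MM_mulc, MM_X_pow, h2, one_mul]
      · rw [hGmem]
        exact ⟨⟨by dsimp only; omega, h6, h3⟩, h4⟩
    · intro f hf f' hf' e
      dsimp only at e
      rw [Prod.mk.injEq] at e
      obtain ⟨e1, e2⟩ := e
      rw [e2] at e1
      have e3 := mul_right_cancel₀ (pow_ne_zero _ X_ne_zero) e1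
      rw [hp1 f hf, hp1 f' hf', e3, e2]
  rw [Set.ncard_eq_toFinset_card _ hf1, Set.ncard_eq_toFinset_card _ hf2]
  calc (S.card : ℝ) ≤ (A.card * G.card : ℕ) := by exact_mod_cast hcS
    _ = (A.card : ℝ) * G.card := by push_cast; ring
    _ ≤ A.card * Real.exp (C * E4 n T) := by gcongr

/-- all polynomials of degree `n` -/
theorem tot4 (ε : ℝ) (hε : 0 < ε) : ∃ C : ℝ, 0 < C ∧ ∀ (n : ℕ) (T : ℝ), 1 ≤ n → 1 ≤ T →
    T ≤ (n : ℝ) ^ (1 / 2 - ε) →
    ({f : ℤ[X] | f.natDegree = n ∧ Pool.Agent.Lib.MP_7ab245_nt.MM f ≤ T}.ncard : ℝ) ≤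
      Real.exp (C * (n / Real.log (2 * n))) := by
  classical
  obtain ⟨C, hC0, hC⟩ := Cnt2.fin2 ε hε
  refine ⟨C + 4, by positivity, ?_⟩
  intro n T hn hT hTn
  have hn0 : (1 : ℝ) ≤ n := by exact_mod_cast hn
  have hf2 : {f : ℤ[X] | f.natDegree = n ∧ Pool.Agent.Lib.MP_7ab245_nt.MM f ≤ T}.Finite :=
    (fin_set n T).subset fun f hf => ⟨hf.1.le, hf.2⟩
  rw [Set.ncard_eq_toFinset_card _ hf2]
  have h1 := hC n 1 T hn le_rfl hT (by simpa using hTn) hf2.toFinset (by
    intro f hf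
    rw [Set.Finite.mem_toFinset] at hf
    refine ⟨hf.1, ?_, Or.inl rfl⟩
    rw [pow_one, cntMM]
    exact hf.2)
  refine h1.trans ?_
  have hL2 : (1 / 2 : ℝ) ≤ Real.log (2 * n) :=
    log_two_ge.trans (Real.log_le_log (by norm_num) (by linarith))
  have hLn : Real.log (2 * n) ≤ 2 * n := by
    have := Real.log_le_sub_one_of_pos (show (0 : ℝ) < 2 * n by linarith)
    linarith
  have h2 : (1 / 2 : ℝ) ≤ n / Real.log (2 * n) := by
    rw [le_div_iff₀ (by linarith)]
    linarith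
  have h3 : min (T ^ 2 * √(n * Real.log (2 * n * (1 : ℕ) * T) / (1 : ℕ)))
      (n / Real.log (2 * n * (1 : ℕ))) ≤ n / Real.log (2 * n) := by
    refine (min_le_right _ _).trans (le_of_eq ?_)
    rw [Nat.cast_one, mul_one]
  have h4 : (4 : ℝ) ≤ Real.exp (4 * (n / Real.log (2 * n))) := by
    have h5 := Real.exp_one_gt_d9
    have h6 : Real.exp 1 * Real.exp 1 = Real.exp 2 := by
      rw [← Real.exp_add]
      norm_num
    have h7 : (4 : ℝ) ≤ Real.exp 2 := by nlinarith
    exact h7.trans (Real.exp_le_exp.mpr (by linarith))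
  calc 4 * ((1 : ℕ) : ℝ) * Real.exp (C * min (T ^ 2 * √(n * Real.log (2 * n * (1 : ℕ) * T) / (1 : ℕ)))
        (n / Real.log (2 * n * (1 : ℕ))))
      ≤ 4 * ((1 : ℕ) : ℝ) * Real.exp (C * (n / Real.log (2 * n))) := by gcongr
    _ = 4 * Real.exp (C * (n / Real.log (2 * n))) := by push_cast; ring
    _ ≤ Real.exp (4 * (n / Real.log (2 * n))) * Real.exp (C * (n / Real.log (2 * n))) := by gcongr
    _ = Real.exp ((C + 4) * (n / Real.log (2 * n))) := by
        rw [← Real.exp_add]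
        congr 1
        ring

/-- the reductions modulo `m` -/
theorem pat4 (n m : ℕ) (T : ℝ) :
    {p : (ZMod m)[X] | ∃ f : ℤ[X], f.natDegree = n ∧ f.map (Int.castRingHom (ZMod m)) = p ∧
      Pool.Agent.Lib.MP_7ab245_nt.MM f ≤ T}.Finite ∧
    {p : (ZMod m)[X] | ∃ f : ℤ[X], f.natDegree = n ∧ f.map (Int.castRingHom (ZMod m)) = p ∧
      Pool.Agent.Lib.MP_7ab245_nt.MM f ≤ T}.ncard ≤
      {f : ℤ[X] | f.natDegree = n ∧ Pool.Agent.Lib.MP_7ab245_nt.MM f ≤ T}.ncard := by
  have hf2 : {f : ℤ[X] | f.natDegree = n ∧ Pool.Agent.Lib.MP_7ab245_nt.MM f ≤ T}.Finite :=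
    (fin_set n T).subset fun f hf => ⟨hf.1.le, hf.2⟩
  have h1 : {p : (ZMod m)[X] | ∃ f : ℤ[X], f.natDegree = n ∧ f.map (Int.castRingHom (ZMod m)) = p ∧
      Pool.Agent.Lib.MP_7ab245_nt.MM f ≤ T} =
      (fun f : ℤ[X] => f.map (Int.castRingHom (ZMod m))) ''
        {f : ℤ[X] | f.natDegree = n ∧ Pool.Agent.Lib.MP_7ab245_nt.MM f ≤ T} := by
    ext p
    constructor
    · rintro ⟨f, h1, h2, h3⟩
      exact ⟨f, ⟨h1, h3⟩, h2⟩
    · rintro ⟨f, ⟨h1, h3⟩, h2⟩
      exact ⟨f, h1, h2, h3⟩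
  rw [h1]
  exact ⟨hf2.image _, Set.ncard_image_le hf2⟩

end Pool.Agent.Lib.MP_7ab245_nt.Cnt4
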