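import Pool.Agent.Lib.MP_7ab245_nt.Cnt4.Defs

/-!
C4-Subs: the average energy of the sum over a subset of `r` elements.

PROOF. For one `l`, `q f := QQ l f`, `g := |G|`: `∑_S ‖∑_{f ∈ S} q f‖² = ∑_S ∑_{f, f' ∈ S} (q f conj (q f')).re`. The number of `S ∈ powersetCard r G` containing `f ∈ G` is
`(g-1).choose (r-1)` (for `r ≥ 1`), the number of those containing `f ≠ f'` is `(g-2).choose (r-2)` (for `r ≥ 2`; `0` for `r = 1`), and `g * (g-1).choose (r-1) = r * g.choose r`,
`g (g-1) * (g-2).choose (r-2) = r (r-1) * g.choose r`. (Or: the two numbers do not depend on `f`, `f'` by double counting: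
`∑_f card {S ∋ f} = r g.choose r`, `∑_{f ≠ f'} card {S ∋ f, f1} = r (r-1) g.choose r`, and they are symmetric.) So with `C := g.choose r`:
`∑_S ‖∑_S q‖² = C (r/g) ∑_f |q f|² + C (r (r-1)/(g (g-1))) (‖∑_G q‖² - ∑_f |q f|²) ≤ C (r/g) ∑_f |q f|² + C * 2 r² ‖∑_G q‖² / g²` (`g ≥ 2`: `g (g-1) ≥ g²/2`).
Divide by `l` and sum over `l ∈ Icc 1 N`: `∑_f En N f ≤ g E`. `r = 0`: the left side is `0`.
-/

set_option autoImplicit false

open Finset

namespace Pool.Agent.Lib.MP_7ab245_nt.Cnt4

open Pool.Agent.Lib.MP_7ab245_nt.LogVar Pool.Agent.Lib.MP_7ab245_nt.Cnt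

private theorem subs_card {α : Type*} [DecidableEq α] (G T : Finset α) (hT : T ⊆ G) (r : ℕ) :
    ((powersetCard r G).filter (fun S => T ⊆ S)).card * G.card.choose T.card =
      r.choose T.card * G.card.choose r := by
  rcases lt_or_ge r T.card with h | h
  · have h0 : (powersetCard r G).filter (fun S => T ⊆ S) = ∅ := by
      rw [Finset.filter_eq_empty_iff]
      intro S hS hTS
      have := card_le_card hTS
      rw [(mem_powersetCard.1 hS).2] at this
      omega
    rw [h0, card_empty, zero_mul, Nat.choose_eq_zero_of_lt h, zero_mul]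
  · rcases lt_or_ge G.card r with h' | h'
    · have h0 : (powersetCard r G).filter (fun S => T ⊆ S) = ∅ := by
        rw [powersetCard_eq_empty.2 h', filter_empty]
      rw [h0, card_empty, zero_mul, Nat.choose_eq_zero_of_lt h', mul_zero]
    · have hc : ((powersetCard r G).filter (fun S => T ⊆ S)).card =
          (powersetCard (r - T.card) (G \ T)).card := by
        refine card_nbij' (fun S => S \ T) (fun S => S ∪ T) ?_ ?_ ?_ ?_
        · intro S hS
          simp only [coe_filter, mem_powersetCard, Set.mem_ofPred_eq] at hS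
          simp only [mem_coe, mem_powersetCard]
          refine ⟨sdiff_subset_sdiff hS.1.1 le_rfl, ?_⟩
          rw [card_sdiff_of_subset hS.2, hS.1.2]
        · intro S hS
          simp only [mem_coe, mem_powersetCard] at hS
          simp only [coe_filter, mem_powersetCard, Set.mem_ofPred_eq]
          have hd : Disjoint S T := by
            rw [disjoint_left]
            intro x hx hx'
            exact (mem_sdiff.1 (hS.1 hx)).2 hx'
          refine ⟨⟨union_subset (hS.1.trans sdiff_subset) hT, ?_⟩, subset_union_right⟩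
          rw [card_union_of_disjoint hd, hS.2]
          omega
        · intro S hS
          simp only [coe_filter, mem_powersetCard, Set.mem_ofPred_eq] at hS
          exact sdiff_union_of_subset hS.2
        · intro S hS
          simp only [mem_coe, mem_powersetCard] at hS
          have hd : Disjoint S T := by
            rw [disjoint_left]
            intro x hx hx'
            exact (mem_sdiff.1 (hS.1 hx)).2 hx'
          show (S ∪ T) \ T = S
          rw [union_sdiff_right]
          exact sdiff_eq_self_of_disjoint hd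
      rw [hc, card_powersetCard, card_sdiff_of_subset hT, mul_comm, ← Nat.choose_mul h, mul_comm]

private theorem subs_norm {α : Type*} (S : Finset α) (q : α → ℂ) :
    ‖∑ f ∈ S, q f‖ ^ 2 = ∑ f ∈ S, ∑ f' ∈ S, (q f * (starRingEnd ℂ) (q f')).re := by
  have h1 : ‖∑ f ∈ S, q f‖ ^ 2 = ((∑ f ∈ S, q f) * (starRingEnd ℂ) (∑ f ∈ S, q f)).re := by
    rw [Complex.mul_conj, Complex.ofReal_re, Complex.normSq_eq_norm_sq]
  rw [h1, map_sum, Finset.sum_mul_sum, Complex.re_sum]
  exact Finset.sum_congr rfl fun f _ => by rw [Complex.re_sum]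

private theorem subs_one {α : Type*} [DecidableEq α] (G : Finset α) (hg : 2 ≤ G.card) (r : ℕ)
    (q : α → ℂ) :
    ∑ S ∈ powersetCard r G, ‖∑ f ∈ S, q f‖ ^ 2 ≤
      (G.card.choose r : ℝ) * (r / G.card) * ∑ f ∈ G, ‖q f‖ ^ 2 +
        (G.card.choose r : ℝ) * (2 * r ^ 2 / G.card ^ 2) * ‖∑ f ∈ G, q f‖ ^ 2 := by
  set a : α → α → ℝ := fun f f' => (q f * (starRingEnd ℂ) (q f')).re with ha
  set C : ℝ := (G.card.choose r : ℝ) with hC
  have hC0 : 0 ≤ C := Nat.cast_nonneg _
  have hg' : (2 : ℝ) ≤ G.card := by exact_mod_cast hg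
  set g : ℝ := (G.card : ℝ) with hgd
  set N1 : ℝ := r * C / g with hN1
  set N2 : ℝ := r * (r - 1) * C / (g * (g - 1)) with hN2
  have hg0 : g ≠ 0 := by linarith
  have hg1 : g - 1 ≠ 0 := by linarith
  have hcnt : ∀ f ∈ G, ∀ f' ∈ G,
      ((((powersetCard r G).filter (fun S => ({f, f'} : Finset α) ⊆ S)).card : ℕ) : ℝ) =
        N2 + (if f = f' then N1 - N2 else 0) := by
    intro f hf f' hf'
    have hsub : ({f, f'} : Finset α) ⊆ G := by
      intro x hx
      rcases mem_insert.1 hx with rfl | hx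
      · exact hf
      · rw [mem_singleton] at hx
        rw [hx]
        exact hf'
    have h := subs_card G {f, f'} hsub r
    by_cases hff : f = f'
    · subst hff
      rw [if_pos rfl]
      rw [insert_eq_of_mem (mem_singleton_self f), card_singleton, Nat.choose_one_right,
        Nat.choose_one_right] at h
      rw [insert_eq_of_mem (mem_singleton_self f)]
      have h2 : ((((powersetCard r G).filter (fun S => ({f} : Finset α) ⊆ S)).card : ℕ) : ℝ) * g =
          r * C := by
        rw [hgd, hC]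
        exact_mod_cast h
      rw [add_sub_cancel, hN1]
      exact (eq_div_iff hg0).2 h2
    · rw [if_neg hff, add_zero]
      rw [card_pair hff] at h
      have h2 : ((((powersetCard r G).filter (fun S => ({f, f'} : Finset α) ⊆ S)).card : ℕ) : ℝ) *
          (g * (g - 1) / 2) = (r * (r - 1) / 2) * C := by
        rw [hgd, hC, ← Nat.cast_choose_two, ← Nat.cast_choose_two]
        exact_mod_cast h
      rw [hN2, eq_div_iff (mul_ne_zero hg0 hg1)]
      linarith
  have hmain : ∑ S ∈ powersetCard r G, ‖∑ f ∈ S, q f‖ ^ 2 =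
      N2 * ‖∑ f ∈ G, q f‖ ^ 2 + (N1 - N2) * ∑ f ∈ G, ‖q f‖ ^ 2 := by
    have e1 : ∑ S ∈ powersetCard r G, ‖∑ f ∈ S, q f‖ ^ 2 =
        ∑ S ∈ powersetCard r G, ∑ f ∈ G, ∑ f' ∈ G,
          (if ({f, f'} : Finset α) ⊆ S then a f f' else 0) := by
      refine Finset.sum_congr rfl fun S hS => ?_
      have hSG := (mem_powersetCard.1 hS).1
      rw [subs_norm]
      rw [← Finset.sum_subset hSG (f := fun f => ∑ f' ∈ G,
          (if ({f, f'} : Finset α) ⊆ S then a f f' else 0))]
      · refine Finset.sum_congr rfl fun f hf => ?_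
        rw [← Finset.sum_subset hSG (f := fun f' =>
          (if ({f, f'} : Finset α) ⊆ S then a f f' else 0))]
        · refine Finset.sum_congr rfl fun f' hf' => ?_
          rw [if_pos]
          intro x hx
          rcases mem_insert.1 hx with rfl | hx
          · exact hf
          · rw [mem_singleton] at hx
            rw [hx]
            exact hf'
        · intro f' _ hf'
          exact if_neg fun h => hf' (h (mem_insert_of_mem (mem_singleton_self _)))
      · intro f _ hf
        exact Finset.sum_eq_zero fun f' _ => if_neg fun h => hf (h (mem_insert_self _ _))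
    rw [e1, Finset.sum_comm]
    have e2 : ∀ f ∈ G, ∑ S ∈ powersetCard r G, ∑ f' ∈ G,
        (if ({f, f'} : Finset α) ⊆ S then a f f' else 0) =
        N2 * (∑ f' ∈ G, a f f') + (N1 - N2) * ‖q f‖ ^ 2 := by
      intro f hf
      rw [Finset.sum_comm]
      have e3 : ∀ f' ∈ G, ∑ S ∈ powersetCard r G,
          (if ({f, f'} : Finset α) ⊆ S then a f f' else 0) =
          N2 * a f f' + (if f = f' then (N1 - N2) * a f f' else 0) := by
        intro f' hf'
        rw [← Finset.sum_filter, Finset.sum_const, nsmul_eq_mul, hcnt f hf f' hf', add_mul]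
        congr 1
        split_ifs
        · rfl
        · rw [zero_mul]
      rw [Finset.sum_congr rfl e3, Finset.sum_add_distrib, ← Finset.mul_sum, Finset.sum_ite_eq,
        if_pos hf]
      congr 2
      rw [ha]
      show (q f * (starRingEnd ℂ) (q f)).re = _
      rw [Complex.mul_conj, Complex.ofReal_re, Complex.normSq_eq_norm_sq]
    rw [Finset.sum_congr rfl e2, Finset.sum_add_distrib, ← Finset.mul_sum, ← Finset.mul_sum,
      subs_norm G q]
  have hN2le : N2 * g ^ 2 ≤ 2 * r ^ 2 * C := by
    have h1 : N2 * (g * (g - 1)) = r * (r - 1) * C := by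
      rw [hN2]
      exact div_mul_cancel₀ _ (mul_ne_zero hg0 hg1)
    have hr : (0 : ℝ) ≤ r * (r - 1) := by
      rcases Nat.eq_zero_or_pos r with h | h
      · rw [h]
        simp
      · have : (1 : ℝ) ≤ r := by exact_mod_cast h
        exact mul_nonneg (by linarith) (by linarith)
    have hN20 : 0 ≤ N2 := by
      rw [hN2]
      exact div_nonneg (mul_nonneg hr hC0) (mul_nonneg (by linarith) (by linarith))
    have h2 : N2 * g ^ 2 ≤ 2 * (N2 * (g * (g - 1))) := by
      have : g ^ 2 ≤ 2 * (g * (g - 1)) := by nlinarith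
      nlinarith
    have h3 : (r : ℝ) * (r - 1) * C ≤ r ^ 2 * C := by
      refine mul_le_mul_of_nonneg_right ?_ hC0
      have : (0 : ℝ) ≤ r := Nat.cast_nonneg _
      nlinarith
    rw [h1] at h2
    linarith
  have hr : (0 : ℝ) ≤ r * (r - 1) := by
    rcases Nat.eq_zero_or_pos r with h | h
    · rw [h]
      simp
    · have : (1 : ℝ) ≤ r := by exact_mod_cast h
      exact mul_nonneg (by linarith) (by linarith)
  have hN20 : 0 ≤ N2 := by
    rw [hN2]
    exact div_nonneg (mul_nonneg hr hC0) (mul_nonneg (by linarith) (by linarith))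
  have hs0 : 0 ≤ ∑ f ∈ G, ‖q f‖ ^ 2 := Finset.sum_nonneg fun _ _ => sq_nonneg _
  rw [hmain]
  have h4 : N2 ≤ C * (2 * r ^ 2 / g ^ 2) := by
    rw [← mul_div_assoc, le_div_iff₀ (by positivity)]
    linarith
  have h5 : N1 = C * (r / g) := by
    rw [hN1]
    ring
  have h6 := mul_le_mul_of_nonneg_right h4 (sq_nonneg ‖∑ f ∈ G, q f‖)
  have h7 : (N1 - N2) * ∑ f ∈ G, ‖q f‖ ^ 2 ≤ N1 * ∑ f ∈ G, ‖q f‖ ^ 2 :=
    mul_le_mul_of_nonneg_right (by linarith) hs0
  rw [← h5]
  linarith

theorem subs (G : Finset (Polynomial ℤ)) (hg : 2 ≤ G.card) (r N : ℕ) (E : ℝ)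
    (hE : ∀ f ∈ G, En N f ≤ E) :
    ∑ S ∈ powersetCard r G, EnS N S ≤
      (G.card.choose r : ℝ) * (r * E + 2 * r ^ 2 * (EnS N G / G.card ^ 2)) := by
  classical
  have hg0 : (0 : ℝ) < G.card := by
    have : (2 : ℝ) ≤ G.card := by exact_mod_cast hg
    linarith
  have hC0 : (0 : ℝ) ≤ (G.card.choose r : ℝ) := Nat.cast_nonneg _
  have h1 : ∑ S ∈ powersetCard r G, EnS N S ≤
      (G.card.choose r : ℝ) * (r / G.card) * ∑ f ∈ G, En N f +
        (G.card.choose r : ℝ) * (2 * r ^ 2 / G.card ^ 2) * EnS N G := by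
    have e1 : ∑ S ∈ powersetCard r G, EnS N S =
        ∑ l ∈ Icc 1 N, (∑ S ∈ powersetCard r G, ‖∑ f ∈ S, QQ l f‖ ^ 2) / l := by
      unfold EnS
      rw [Finset.sum_comm]
      exact Finset.sum_congr rfl fun l _ => (Finset.sum_div _ _ _).symm
    have e2 : ∑ f ∈ G, En N f = ∑ l ∈ Icc 1 N, (∑ f ∈ G, ‖QQ l f‖ ^ 2) / l := by
      unfold En
      rw [Finset.sum_comm]
      exact Finset.sum_congr rfl fun l _ => (Finset.sum_div _ _ _).symm
    have e3 : EnS N G = ∑ l ∈ Icc 1 N, ‖∑ f ∈ G, QQ l f‖ ^ 2 / l := rfl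
    rw [e1, e2, e3, Finset.mul_sum, Finset.mul_sum, ← Finset.sum_add_distrib]
    refine Finset.sum_le_sum fun l _ => ?_
    have h := subs_one G hg r (fun f => QQ l f)
    have h' := div_le_div_of_nonneg_right h (Nat.cast_nonneg l : (0 : ℝ) ≤ l)
    refine h'.trans_eq ?_
    rw [add_div]
    ring
  have h2 : ∑ f ∈ G, En N f ≤ G.card * E := by
    refine (Finset.sum_le_sum hE).trans_eq ?_
    rw [Finset.sum_const, nsmul_eq_mul]
  have h3 : (G.card.choose r : ℝ) * (r / G.card) * ∑ f ∈ G, En N f ≤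
      (G.card.choose r : ℝ) * (r / G.card) * (G.card * E) :=
    mul_le_mul_of_nonneg_left h2 (by positivity)
  refine h1.trans ((add_le_add_left h3 _).trans_eq ?_)
  field_simp

end Pool.Agent.Lib.MP_7ab245_nt.Cnt4
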