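import Pool.Agent.Lib.MP_7ab245_nt.Cnt4.Par
import Pool.Agent.Lib.MP_7ab245_nt.Cnt4.Subs

/-!
C4-Half: at least half of the products of `r` elements have small energies.

PROOF. `K := K0 d r T ≥ 1`, `e1 := r² e0`, `C := g.choose r`, `g := |G| ≥ B0 ≥ 3`. For `j ≤ d r` let `N_j := min ⌊r K 256^j⌋₊ (d r)`. Choose `q` with `r ≤ 256^q`, `64^q ≤ 64 r` (the least `q` with `r ≤ 256^q`:
`64^(q-1) ≤ 256^(q-1) < r` if `q ≥ 1`). For `f ∈ G`: `N_j ≤ K 256^(j+q)`, so `En N_j f ≤ 60 * 64^(j+q) e0 ≤ E := 3840 * 64^j * r * e0`. ens_le and `g ≥ B0`: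
`EnS N_j G ≤ 3 g² (3 e0 + e0) = 12 g² e0`. subs: `∑_S EnS N_j S ≤ C (r E + 24 r² e0) ≤ C * 4000 * 64^j * e1`.
`Φ S := ∑_{j ≤ d r} EnS N_j S / (16000 * 128^j * e1)`: `∑_S Φ S ≤ C ∑_j (1/4) 2^(-j) ≤ C / 2`. `P := {S : Φ S ≤ 1}`: the others number `≤ ∑ Φ ≤ C/2` (Markov), so `C ≤ 2 |P|`.
For `S ∈ P`: every term of `Φ` is `≤ 1`. General `j, N`: `N ≤ N_j` if `j ≤ d r` (EnS_mono); for `j > d r` use `j = d r` (`N ≤ d r ≤ 256^(d r)`).
-/

set_option autoImplicit false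

open Finset

namespace Pool.Agent.Lib.MP_7ab245_nt.Cnt4

open Pool.Agent.Lib.MP_7ab245_nt.LogVar Pool.Agent.Lib.MP_7ab245_nt.Cnt

private theorem half_q (r : ℕ) (hr : 1 ≤ r) : ∃ q : ℕ, r ≤ 256 ^ q ∧ 64 ^ q ≤ 64 * r := by
  have hex : ∃ q : ℕ, r ≤ 256 ^ q := ⟨r, (Nat.lt_pow_self (by norm_num)).le⟩
  classical
  refine ⟨Nat.find hex, Nat.find_spec hex, ?_⟩
  rcases Nat.eq_zero_or_pos (Nat.find hex) with h | h
  · rw [h]
    simp
    omega
  · have h1 := Nat.find_min hex (m := Nat.find hex - 1) (by omega)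
    have h2 : 256 ^ (Nat.find hex - 1) < r := by omega
    have h3 : 64 ^ (Nat.find hex - 1) ≤ 256 ^ (Nat.find hex - 1) :=
      Nat.pow_le_pow_left (by norm_num) _
    have h4 : 64 ^ (Nat.find hex) = 64 * 64 ^ (Nat.find hex - 1) := by
      conv_lhs => rw [show Nat.find hex = Nat.find hex - 1 + 1 by omega]
      rw [pow_succ]
      ring
    rw [h4]
    exact Nat.mul_le_mul_left _ (by omega)

private theorem half_ens_nonneg (N : ℕ) (S : Finset (Polynomial ℤ)) : 0 ≤ EnS N S := by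
  unfold EnS
  exact sum_nonneg fun l _ => by positivity

private theorem half_geo (n : ℕ) : ∑ j ∈ range n, (1 / 4 : ℝ) * (1 / 2) ^ j ≤ 1 / 2 := by
  have h : ∑ j ∈ range n, (1 / 4 : ℝ) * (1 / 2) ^ j = 1 / 2 - 1 / 2 * (1 / 2) ^ n := by
    induction n with
    | zero => simp
    | succ n ih =>
      rw [sum_range_succ, ih, pow_succ]
      ring
  rw [h]
  have : (0 : ℝ) ≤ 1 / 2 * (1 / 2) ^ n := by positivity
  linarith

theorem half (d r : ℕ) (T : ℝ) (hd : 1 ≤ d) (hr : 1 ≤ r) (hT : 1 ≤ T)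
    (G : Finset (Polynomial ℤ)) (hG : ∀ f ∈ G, Ok d r T f) (hc : B0 d r ≤ G.card)
    (hE : ∀ f ∈ G, ∀ j N : ℕ, N ≤ d * r → (N : ℝ) ≤ K0 d r T * 256 ^ j →
      En N f ≤ 60 * 64 ^ j * e0 d r T) :
    ∃ P ⊆ powersetCard r G, (G.card.choose r : ℝ) ≤ 2 * P.card ∧
      ∀ S ∈ P, ∀ j N : ℕ, N ≤ d * r → (N : ℝ) ≤ r * K0 d r T * 256 ^ j →
        EnS N S ≤ 16000 * 128 ^ j * (r ^ 2 * e0 d r T) := by
  classical
  have hK : 1 ≤ K0 d r T := by
    have h1 := K0_ge d r T hT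
    nlinarith
  have he0 : 1 ≤ e0 d r T := e0_ge d r T hT
  obtain ⟨K, hKe⟩ : ∃ K, K = K0 d r T := ⟨_, rfl⟩
  obtain ⟨e, hee⟩ : ∃ e, e = e0 d r T := ⟨_, rfl⟩
  have hEns := fun N hN => ens_le d r T hd hr hT G hG N hN
  rw [← hKe] at hK
  rw [← hee] at he0
  rw [← hKe, ← hee] at hE
  rw [← hee] at hEns
  rw [← hKe, ← hee]
  have he0' : 0 < e := by linarith
  have hr1 : (1 : ℝ) ≤ r := by exact_mod_cast hr
  have hr0 : (0 : ℝ) < r := by linarith
  have hg3 : (3 : ℝ) ≤ G.card := (B0_ge d r hd hr).trans hc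
  have hg2 : 2 ≤ G.card := by
    have : (3 : ℝ) ≤ (G.card : ℝ) := hg3
    have h3 : 3 ≤ G.card := by exact_mod_cast this
    omega
  obtain ⟨q, hq1, hq2⟩ := half_q r hr
  have hq1' : (r : ℝ) ≤ 256 ^ q := by exact_mod_cast hq1
  have hq2' : (64 : ℝ) ^ q ≤ 64 * r := by exact_mod_cast hq2
  obtain ⟨Nf, hNf⟩ : ∃ Nf : ℕ → ℕ, ∀ j, Nf j = min ⌊r * K * 256 ^ j⌋₊ (d * r) :=
    ⟨fun j => min ⌊r * K * 256 ^ j⌋₊ (d * r), fun _ => rfl⟩
  have hN1 : ∀ j, Nf j ≤ d * r := fun j => by rw [hNf]; exact min_le_right _ _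
  have hN2 : ∀ j, (Nf j : ℝ) ≤ r * K * 256 ^ j := by
    intro j
    have h1 : Nf j ≤ ⌊r * K * 256 ^ j⌋₊ := by rw [hNf]; exact min_le_left _ _
    have h2 : (0 : ℝ) ≤ r * K * 256 ^ j := by positivity
    exact (Nat.cast_le.2 h1).trans (Nat.floor_le h2)
  -- the averages
  have hav : ∀ j, ∑ S ∈ powersetCard r G, EnS (Nf j) S ≤
      (G.card.choose r : ℝ) * (4000 * 64 ^ j * (r ^ 2 * e)) := by
    intro j
    have h1 : ∀ f ∈ G, En (Nf j) f ≤ 3840 * 64 ^ j * r * e := by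
      intro f hf
      have h2 : (Nf j : ℝ) ≤ K * 256 ^ (j + q) := by
        refine (hN2 j).trans ?_
        rw [pow_add]
        have h3 : (0 : ℝ) ≤ K * 256 ^ j := by positivity
        calc r * K * 256 ^ j = K * 256 ^ j * r := by ring
          _ ≤ K * 256 ^ j * 256 ^ q := mul_le_mul_of_nonneg_left hq1' h3
          _ = K * (256 ^ j * 256 ^ q) := by ring
      refine (hE f hf (j + q) (Nf j) (hN1 j) h2).trans ?_
      rw [pow_add]
      have h3 : (0 : ℝ) ≤ 60 * 64 ^ j * e := by positivity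
      calc 60 * (64 ^ j * 64 ^ q) * e = 60 * 64 ^ j * e * 64 ^ q := by ring
        _ ≤ 60 * 64 ^ j * e * (64 * r) := mul_le_mul_of_nonneg_left hq2' h3
        _ = 3840 * 64 ^ j * r * e := by ring
    refine (subs G hg2 r (Nf j) _ h1).trans ?_
    refine mul_le_mul_of_nonneg_left ?_ (Nat.cast_nonneg _)
    have h2 : EnS (Nf j) G / G.card ^ 2 ≤ 12 * e := by
      have hg0 : (0 : ℝ) < (G.card : ℝ) ^ 2 := by positivity
      rw [div_le_iff₀ hg0]
      refine (hEns (Nf j) (hN1 j)).trans ?_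
      have h3 : (G.card : ℝ) * (e * B0 d r) ≤ G.card * (e * G.card) := by
        refine mul_le_mul_of_nonneg_left (mul_le_mul_of_nonneg_left hc he0'.le)
          (Nat.cast_nonneg _)
      nlinarith
    have h3 : (1 : ℝ) ≤ 64 ^ j := one_le_pow₀ (by norm_num)
    have h4 : (0 : ℝ) ≤ (r : ℝ) ^ 2 * e := by positivity
    calc (r : ℝ) * (3840 * 64 ^ j * r * e) + 2 * r ^ 2 * (EnS (Nf j) G / G.card ^ 2)
        ≤ (r : ℝ) * (3840 * 64 ^ j * r * e) + 2 * r ^ 2 * (12 * e) := by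
          have : (0 : ℝ) ≤ 2 * (r : ℝ) ^ 2 := by positivity
          have := mul_le_mul_of_nonneg_left h2 this
          linarith
      _ = (3840 * 64 ^ j + 24) * (r ^ 2 * e) := by ring
      _ ≤ (4000 * 64 ^ j) * (r ^ 2 * e) := mul_le_mul_of_nonneg_right (by linarith) h4
  obtain ⟨Φ, hΦ⟩ : ∃ Φ : Finset (Polynomial ℤ) → ℝ, ∀ S, Φ S =
      ∑ j ∈ range (d * r + 1), EnS (Nf j) S / (16000 * 128 ^ j * (r ^ 2 * e)) :=
    ⟨fun S => ∑ j ∈ range (d * r + 1), EnS (Nf j) S / (16000 * 128 ^ j * (r ^ 2 * e)),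
      fun _ => rfl⟩
  have hre : (0 : ℝ) < (r : ℝ) ^ 2 * e := by positivity
  have hterm : ∀ S j, 0 ≤ EnS (Nf j) S / (16000 * 128 ^ j * (r ^ 2 * e)) := fun S j =>
    div_nonneg (half_ens_nonneg _ _) (by positivity)
  have hΦ0 : ∀ S, 0 ≤ Φ S := fun S => by
    rw [hΦ]
    exact sum_nonneg fun j _ => hterm S j
  have hsum : ∑ S ∈ powersetCard r G, Φ S ≤ (G.card.choose r : ℝ) / 2 := by
    have h1 : ∑ S ∈ powersetCard r G, Φ S = ∑ j ∈ range (d * r + 1),
        (∑ S ∈ powersetCard r G, EnS (Nf j) S) / (16000 * 128 ^ j * (r ^ 2 * e)) := by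
      have h2 : ∑ S ∈ powersetCard r G, Φ S = ∑ S ∈ powersetCard r G,
          ∑ j ∈ range (d * r + 1), EnS (Nf j) S / (16000 * 128 ^ j * (r ^ 2 * e)) :=
        sum_congr rfl fun S _ => hΦ S
      rw [h2, sum_comm]
      exact sum_congr rfl fun j _ => (sum_div _ _ _).symm
    rw [h1]
    have h2 : ∀ j ∈ range (d * r + 1), (∑ S ∈ powersetCard r G, EnS (Nf j) S) /
        (16000 * 128 ^ j * (r ^ 2 * e)) ≤ (G.card.choose r : ℝ) * (1 / 4 * (1 / 2) ^ j) := by
      intro j _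
      rw [div_le_iff₀ (by positivity)]
      refine (hav j).trans (le_of_eq ?_)
      have h3 : (128 : ℝ) ^ j = 2 ^ j * 64 ^ j := by
        rw [← mul_pow]
        norm_num
      rw [h3, one_div, one_div, inv_pow]
      field_simp
      ring
    refine (sum_le_sum h2).trans ?_
    rw [← mul_sum]
    have h3 := mul_le_mul_of_nonneg_left (half_geo (d * r + 1))
      (Nat.cast_nonneg (α := ℝ) (G.card.choose r))
    linarith
  refine ⟨(powersetCard r G).filter (fun S => Φ S ≤ 1), filter_subset _ _, ?_, ?_⟩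
  · -- Markov
    have h1 := card_filter_add_card_filter_not (s := powersetCard r G) (fun S => Φ S ≤ 1)
    rw [card_powersetCard] at h1
    have h2 : (((powersetCard r G).filter (fun S => ¬ Φ S ≤ 1)).card : ℝ) ≤
        (G.card.choose r : ℝ) / 2 := by
      calc (((powersetCard r G).filter (fun S => ¬ Φ S ≤ 1)).card : ℝ)
          = ∑ _S ∈ (powersetCard r G).filter (fun S => ¬ Φ S ≤ 1), (1 : ℝ) := by simp
        _ ≤ ∑ S ∈ (powersetCard r G).filter (fun S => ¬ Φ S ≤ 1), Φ S := by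
            refine sum_le_sum fun S hS => ?_
            rw [mem_filter] at hS
            exact (not_le.1 hS.2).le
        _ ≤ ∑ S ∈ powersetCard r G, Φ S :=
            sum_le_sum_of_subset_of_nonneg (filter_subset _ _) fun S _ _ => hΦ0 S
        _ ≤ _ := hsum
    have h3 : (((powersetCard r G).filter (fun S => Φ S ≤ 1)).card : ℝ) +
        (((powersetCard r G).filter (fun S => ¬ Φ S ≤ 1)).card : ℝ) = (G.card.choose r : ℝ) := by
      exact_mod_cast h1
    linarith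
  · intro S hS j N hN hNj
    rw [mem_filter] at hS
    have hone : ∀ j ∈ range (d * r + 1), EnS (Nf j) S ≤ 16000 * 128 ^ j * (r ^ 2 * e) := by
      intro j hj
      have h1 := single_le_sum (f := fun j => EnS (Nf j) S / (16000 * 128 ^ j * (r ^ 2 * e)))
        (fun i _ => hterm S i) hj
      have h2 : EnS (Nf j) S / (16000 * 128 ^ j * (r ^ 2 * e)) ≤ 1 :=
        h1.trans (by rw [← hΦ]; exact hS.2)
      rw [div_le_one (by positivity)] at h2
      exact h2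
    rcases le_or_gt j (d * r) with hj | hj
    · have h1 : N ≤ Nf j := by
        rw [hNf]
        exact le_min (Nat.le_floor hNj) hN
      exact (EnS_mono S h1).trans (hone j (mem_range.2 (by omega)))
    · have h1 : N ≤ Nf (d * r) := by
        rw [hNf]
        refine le_min (Nat.le_floor ?_) hN
        have h2 : d * r < 256 ^ (d * r) := Nat.lt_pow_self (by norm_num)
        have h3 : (N : ℝ) ≤ 256 ^ (d * r) := by
          have : N ≤ 256 ^ (d * r) := by omega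
          exact_mod_cast this
        have h4 : (1 : ℝ) ≤ r * K := by nlinarith
        calc (N : ℝ) ≤ 1 * 256 ^ (d * r) := by rw [one_mul]; exact h3
          _ ≤ r * K * 256 ^ (d * r) := mul_le_mul_of_nonneg_right h4 (by positivity)
      refine (EnS_mono S h1).trans ((hone (d * r) (mem_range.2 (by omega))).trans ?_)
      have h5 : (128 : ℝ) ^ (d * r) ≤ 128 ^ j := pow_le_pow_right₀ (by norm_num) hj.le
      refine mul_le_mul_of_nonneg_right ?_ hre.le
      linarith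

end Pool.Agent.Lib.MP_7ab245_nt.Cnt4
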