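import Pool.Agent.Lib.MP_7ab245_nt.Cnt4.Defs
import Pool.Agent.Lib.MP_7ab245_nt.Cnt.Energy

/-!
C4-Hs: the mutual energy as a sum of the series and as a double sum over the zeros.

PROOF. `KerSum_hasSum_ker` in Cnt/KerSum.lean (private there: copy it):
`HasSum (fun l => exp (-s l) / l * ((x conj y)^l).re) (ker s x y)` for `‖x‖, ‖y‖ ≤ 1`. Sum over `i, j` with
`x = refl (α i)`, `y = refl (β j)` (`norm_refl_le`): the general term is
`exp (-s l) / l * (p_l conj q_l).re`, `p_l = ∑_i refl (α i)^l`, `q_l = ∑_j refl (β j)^l`.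
`coeff_ld_ho`: for `l ≥ 1` `QQ l f = - ∑ (ww z)^l` over the roots, `ww z = conj (refl z)` (`ww_eq` in Cnt/Energy.lean,
private: copy), so `QQ l f = - conj p_l`, and `(QQ l f conj (QQ l g)).re = (conj p_l * q_l).re = (p_l conj q_l).re`. For `l = 0` both
terms are `0` (division by `0`). So the series with `QQ` has the sum `∑_i ∑_j ker`; existence of `α` (`m = natDegree f`): `exists_roots` in
Cnt/Energy.lean (private: copy).
-/

set_option autoImplicit false

open Finset

namespace Pool.Agent.Lib.MP_7ab245_nt.Cnt4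

open Pool.Agent.Lib.MP_7ab245_nt.LogVar Pool.Agent.Lib.MP_7ab245_nt.Cnt
open Pool.Agent.Lib.MP_7ab245_nt.Len

private lemma Hs_ww_eq (z : ℂ) : ww z = (starRingEnd ℂ) (refl z) := by
  unfold ww Len.refl
  rcases lt_trichotomy ‖z‖ 1 with h | h | h
  · rw [if_pos h, if_pos h.le]
  · rw [if_neg (by rw [h]; exact lt_irrefl _), if_pos h.le]
    rw [Complex.inv_def, Complex.normSq_eq_norm_sq, h]
    simp
  · rw [if_neg (not_lt.mpr h.le), if_neg (not_le.mpr h), map_inv₀, Complex.conj_conj]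

private theorem Hs_hasSum_ker (s : ℝ) (hs : 0 < s) (x y : ℂ) (hx : ‖x‖ ≤ 1) (hy : ‖y‖ ≤ 1) :
    HasSum (fun l : ℕ => Real.exp (-s * l) / l * ((x * starRingEnd ℂ y) ^ l).re)
      (ker s x y) := by
  set z : ℂ := (Real.exp (-s) : ℂ) * (x * starRingEnd ℂ y) with hz
  have hz1 : ‖z‖ < 1 := by
    rw [hz, norm_mul, norm_mul, Complex.norm_real, RCLike.norm_conj, Real.norm_eq_abs,
      abs_of_pos (Real.exp_pos _)]
    have h1 : ‖x‖ * ‖y‖ ≤ 1 := mul_le_one₀ hx (norm_nonneg _) hy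
    have h2 : Real.exp (-s) < 1 := by
      rw [Real.exp_lt_one_iff]
      linarith
    calc Real.exp (-s) * (‖x‖ * ‖y‖) ≤ Real.exp (-s) * 1 :=
          mul_le_mul_of_nonneg_left h1 (Real.exp_pos _).le
      _ < 1 := by linarith
  have h' := Complex.hasSum_re (Complex.hasSum_taylorSeries_neg_log hz1)
  have e1 : (-Complex.log (1 - z)).re = ker s x y := by
    rw [Complex.neg_re, Complex.log_re, ker]
  rw [e1] at h'
  have e2 : (fun l : ℕ => (z ^ l / (l : ℂ)).re) =
      fun l : ℕ => Real.exp (-s * l) / l * ((x * starRingEnd ℂ y) ^ l).re := by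
    funext l
    have e3 : z ^ l / (l : ℂ) =
        ((Real.exp (-s * l) / l : ℝ) : ℂ) * (x * starRingEnd ℂ y) ^ l := by
      rw [hz, mul_pow, mul_comm (-s) (l : ℝ), Real.exp_nat_mul]
      push_cast
      ring
    rw [e3, Complex.re_ofReal_mul]
  rwa [e2] at h'

/-- the complex zeros, listed with multiplicity -/
theorem exists_roots (f : Polynomial ℤ) (n : ℕ) (hn : f.natDegree = n) :
    ∃ α : Fin n → ℂ, (cx f).roots = univ.val.map α := by
  have h1 : (cx f).roots.card = n := by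
    rw [IsAlgClosed.card_roots_eq_natDegree]
    unfold cx
    rw [Polynomial.natDegree_map_eq_of_injective (RingHom.injective_int _), hn]
  have h2 : (cx f).roots.toList.length = n := by
    rw [Multiset.length_toList, h1]
  subst h2
  refine ⟨fun i => (cx f).roots.toList.get i, ?_⟩
  rw [Fin.univ_val_map, List.ofFn_get, Multiset.coe_toList]

private lemma Hs_QQ (f : Polynomial ℤ) {n : ℕ} (α : Fin n → ℂ)
    (hα : (cx f).roots = univ.val.map α) (m : ℕ) (hm : 1 ≤ m) :
    Cnt.QQ m f = - (starRingEnd ℂ) (∑ i, Len.refl (α i) ^ m) := by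
  unfold Cnt.QQ
  rw [coeff_ld_ho _ m hm, hα, Multiset.map_map]
  have h1 : (Multiset.map ((fun z => ww z ^ m) ∘ α) univ.val).sum =
      (starRingEnd ℂ) (∑ i, Len.refl (α i) ^ m) := by
    rw [map_sum]
    refine Finset.sum_congr rfl fun i _ => ?_
    simp only [Function.comp_apply]
    rw [Hs_ww_eq, map_pow]
  rw [h1]

theorem hasSum_roots (f g : Polynomial ℤ) {m n : ℕ} (α : Fin m → ℂ) (β : Fin n → ℂ)
    (hα : (cx f).roots = univ.val.map α) (hβ : (cx g).roots = univ.val.map β) (s : ℝ) (hs : 0 < s) :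
    HasSum (fun l : ℕ => Real.exp (-s * l) / l * (QQ l f * (starRingEnd ℂ) (QQ l g)).re)
      (∑ i, ∑ j, ker s (refl (α i)) (refl (β j))) := by
  have h : HasSum (fun l : ℕ => ∑ i, ∑ j,
      Real.exp (-s * l) / l * ((Len.refl (α i) * starRingEnd ℂ (Len.refl (β j))) ^ l).re)
      (∑ i, ∑ j, ker s (Len.refl (α i)) (Len.refl (β j))) :=
    hasSum_sum fun i _ => hasSum_sum fun j _ =>
      Hs_hasSum_ker s hs _ _ (norm_refl_le _) (norm_refl_le _)
  have e : ∀ l : ℕ, ∑ i, ∑ j,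
      Real.exp (-s * l) / l * ((Len.refl (α i) * starRingEnd ℂ (Len.refl (β j))) ^ l).re =
      Real.exp (-s * l) / l * (Cnt.QQ l f * (starRingEnd ℂ) (Cnt.QQ l g)).re := by
    intro l
    rcases Nat.eq_zero_or_pos l with h0 | hl
    · subst h0
      simp
    · rw [Hs_QQ f α hα l hl, Hs_QQ g β hβ l hl]
      have h1 : (-(starRingEnd ℂ) (∑ i, Len.refl (α i) ^ l) *
          (starRingEnd ℂ) (-(starRingEnd ℂ) (∑ i, Len.refl (β i) ^ l))).re =
          ((∑ i, Len.refl (α i) ^ l) * (starRingEnd ℂ) (∑ i, Len.refl (β i) ^ l)).re := by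
        rw [map_neg, Complex.conj_conj, neg_mul_neg, ← Complex.conj_re, map_mul, Complex.conj_conj]
      rw [h1, map_sum, Finset.sum_mul_sum, Complex.re_sum, Finset.mul_sum]
      refine Finset.sum_congr rfl fun i _ => ?_
      rw [Complex.re_sum, Finset.mul_sum]
      refine Finset.sum_congr rfl fun j _ => ?_
      rw [mul_pow, ← map_pow]
  exact (funext e : (fun l : ℕ => _) = _) ▸ h

theorem KK_roots (f g : Polynomial ℤ) {m n : ℕ} (α : Fin m → ℂ) (β : Fin n → ℂ)
    (hα : (cx f).roots = univ.val.map α) (hβ : (cx g).roots = univ.val.map β) (s : ℝ) (hs : 0 < s) :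
    KK s f g = ∑ i, ∑ j, ker s (refl (α i)) (refl (β j)) :=
  (hasSum_roots f g α β hα hβ s hs).tsum_eq

theorem hasSum_KK (f g : Polynomial ℤ) (s : ℝ) (hs : 0 < s) :
    HasSum (fun l : ℕ => Real.exp (-s * l) / l * (QQ l f * (starRingEnd ℂ) (QQ l g)).re)
      (KK s f g) := by
  obtain ⟨α, hα⟩ := exists_roots f _ rfl
  obtain ⟨β, hβ⟩ := exists_roots g _ rfl
  rw [KK_roots f g α β hα hβ s hs]
  exact hasSum_roots f g α β hα hβ s hs

end Pool.Agent.Lib.MP_7ab245_nt.Cnt4
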