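import Pool.Agent.Lib.MP_7ab245_nt.Cnt4.Defs
import Pool.Agent.Lib.MP_7ab245_nt.Cnt.Energy

/-!
C4-QProd: `QQ l` is additive.

PROOF. `coeff_ld_ho (cx f) m hm`: for `m ≥ 1` `QQ m f = - ∑ (ww z)^m` over the multiset of the complex zeros; the zeros of a product of nonzero polynomials
are the sum of the multisets (`Polynomial.roots_mul`, or `Polynomial.roots_prod`; `cx` is `Polynomial.map`, Polynomial.map_mul / map_prod). `QQ 0 f = 0` (see hQ0 in QQ_sum, Cnt/Energy.lean).
Induction on `S`. `En_prod`: unfold.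
-/

set_option autoImplicit false

open Finset

namespace Pool.Agent.Lib.MP_7ab245_nt.Cnt4

open Pool.Agent.Lib.MP_7ab245_nt.LogVar Pool.Agent.Lib.MP_7ab245_nt.Cnt

private theorem cx_ne {f : Polynomial ℤ} (h : f ≠ 0) : cx f ≠ 0 := by
  unfold cx
  rw [Ne, Polynomial.map_eq_zero_iff (RingHom.injective_int _)]
  exact h

private theorem QQ_zero (f : Polynomial ℤ) : QQ 0 f = 0 := by
  unfold Cnt.QQ ld
  simp [PowerSeries.coeff_zero_eq_constantCoeff]

private theorem QQ_roots (f : Polynomial ℤ) {m : ℕ} (hm : 1 ≤ m) :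
    QQ m f = -((cx f).roots.map fun z => ww z ^ m).sum := by
  unfold Cnt.QQ
  rw [coeff_ld_ho _ m hm]

private theorem QQ_one (l : ℕ) : Cnt.QQ l 1 = 0 := by
  rcases Nat.eq_zero_or_pos l with h | h
  · rw [h, QQ_zero]
  · rw [QQ_roots _ h]
    have : (cx 1).roots = 0 := by
      unfold cx
      rw [Polynomial.map_one, Polynomial.roots_one]
      rfl
    rw [this]
    simp

private theorem QQ_mul {f g : Polynomial ℤ} (hf : f ≠ 0) (hg : g ≠ 0) (l : ℕ) :
    QQ l (f * g) = QQ l f + QQ l g := by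
  rcases Nat.eq_zero_or_pos l with h | h
  · rw [h, QQ_zero, QQ_zero, QQ_zero, add_zero]
  · rw [QQ_roots _ h, QQ_roots _ h, QQ_roots _ h]
    have h1 : cx (f * g) = cx f * cx g := by
      unfold cx
      rw [Polynomial.map_mul]
    rw [h1, Polynomial.roots_mul (mul_ne_zero (cx_ne hf) (cx_ne hg)), Multiset.map_add,
      Multiset.sum_add]
    ring

theorem QQ_prod (S : Finset (Polynomial ℤ)) (h0 : ∀ f ∈ S, f ≠ 0) (l : ℕ) :
    QQ l (∏ f ∈ S, f) = ∑ f ∈ S, QQ l f := by
  classical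
  induction S using Finset.induction_on with
  | empty => rw [Finset.prod_empty, Finset.sum_empty, QQ_one]
  | insert a S ha ih =>
    rw [Finset.prod_insert ha, Finset.sum_insert ha,
      QQ_mul (h0 a (Finset.mem_insert_self _ _))
        (Finset.prod_ne_zero_iff.2 fun f hf => h0 f (Finset.mem_insert_of_mem hf)),
      ih fun f hf => h0 f (Finset.mem_insert_of_mem hf)]

theorem En_prod (S : Finset (Polynomial ℤ)) (h0 : ∀ f ∈ S, f ≠ 0) (N : ℕ) :
    En N (∏ f ∈ S, f) = EnS N S := by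
  unfold En EnS
  refine Finset.sum_congr rfl fun l _ => ?_
  rw [QQ_prod S h0]

end Pool.Agent.Lib.MP_7ab245_nt.Cnt4
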