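import Pool.Agent.Lib.MP_7ab245_nt.Cnt.Choose
import Pool.Agent.Lib.MP_7ab245_nt.Cnt4.Exc
import Pool.Agent.Lib.MP_7ab245_nt.Cnt4.Half
import Pool.Agent.Lib.MP_7ab245_nt.Cnt4.QProd
import Pool.Agent.Lib.MP_7ab245_nt.Cnt4.Fam4

/-!
C4-Irr4: the number of irreducible polynomials of degree `d` with `M(f)^r ≤ T`.

PROOF. (1) Positive leading coefficient (`Ok d r T`), `coeff 0 ≠ 0`: set `G`. exc: `G'`, `|G| ≤ |G'| + 72 (dr+1) B0⁴ exp(32 K)`, `K := K0 d r T ≥ T² ≥ 1`. If `|G'| < B0` done. Otherwise half: `P ⊆ powersetCard r G'`,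
`g.choose r ≤ 2 |P|`, `g = |G'|`. The polynomials `∏_{f ∈ S} f`, `S ∈ P`, are different (prod_inj), have degree `n := d r` (deg_prod), Mahler measure `≤ T` (see `uni_pos` in Cnt/Uni.lean: mm_prod with `B = T^(1/r)`), constant
coefficient `a₀ ≠ 0`, `|a₀| ≤ M(f) ≤ T` (mu_ge in Cnt/Cser.lean), and by En_prod `En N (∏ S) = EnS N S ≤ 16000 * 128^j * (r² e0)` for `N ≤ n`, `N ≤ r K 256^j`. For every `a₀` fam4 with `K := r K0`, `e1 := r² e0` (`T⁴ e1 = (r K0)²` by K0_sq,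
`n = d r ≤ r² e0` as `e0 ≥ d/r`): at most `exp (C1 r K0)`. At most `2T + 1 ≤ 3 T ≤ exp (3 r K0)` values of `a₀`. So `g.choose r ≤ 2 exp ((C1 + 3) r K0) ≤ exp ((C1 + 4) r K0)`; choose_root: `g ≤ 2 r exp ((C1+4) K0)`.
(2) `B0 ≤ 5 (d r)²` (`log x ≤ x`), so everything is `≤ C (d r)^9 exp (C K0)`. (3) Negative leading coefficients: `F` is contained in `G ∪ -G` as in `uni` (Cnt/Uni.lean); factor 2.
-/

set_option autoImplicit false

open Finset

namespace Pool.Agent.Lib.MP_7ab245_nt.Cnt4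

open Pool.Agent.Lib.MP_7ab245_nt.LogVar Pool.Agent.Lib.MP_7ab245_nt.Cnt

private lemma Irr4_B0 (d r : ℕ) (hd : 1 ≤ d) (hr : 1 ≤ r) : B0 d r ≤ 5 * ((d : ℝ) * r) ^ 2 := by
  have hd0 : (1 : ℝ) ≤ d := by exact_mod_cast hd
  have hr0 : (1 : ℝ) ≤ r := by exact_mod_cast hr
  have h0 : (0 : ℝ) < 2 * d * r := by positivity
  have h1 : Real.log (2 * d * r) ≤ 2 * d * r := by
    have := Real.log_le_sub_one_of_pos h0
    linarith
  have h2 : (r : ℝ) * Real.log (2 * d * r) ≤ r * (2 * d * r) :=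
    mul_le_mul_of_nonneg_left h1 (by linarith)
  have h3 : (r : ℝ) * (2 * d * r) ≤ 2 * ((d : ℝ) * r) ^ 2 := by
    have h4 : (d : ℝ) ≤ d ^ 2 := by nlinarith
    have h5 : (0 : ℝ) ≤ (r : ℝ) ^ 2 := by positivity
    nlinarith [mul_le_mul_of_nonneg_right h4 h5]
  have h4 : (1 : ℝ) ≤ (d : ℝ) * r := by nlinarith
  have h5 : (1 : ℝ) ≤ ((d : ℝ) * r) ^ 2 := one_le_pow₀ h4
  unfold B0
  linarith

private lemma Irr4_e0 (d r : ℕ) (T : ℝ) (hr : 1 ≤ r) (hT : 1 ≤ T) :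
    ((d * r : ℕ) : ℝ) ≤ (r : ℝ) ^ 2 * e0 d r T := by
  have hr0 : (1 : ℝ) ≤ r := by exact_mod_cast hr
  have hd0 : (0 : ℝ) ≤ d := Nat.cast_nonneg d
  have hl : 0 ≤ Real.log T := Real.log_nonneg hT
  have h1 : (d : ℝ) / r ≤ e0 d r T := by
    unfold e0
    have : 0 ≤ (d : ℝ) / r := by positivity
    nlinarith [mul_nonneg this hl]
  have h2 : (r : ℝ) ^ 2 * ((d : ℝ) / r) = d * r := by
    field_simp
  push_cast
  rw [← h2]
  exact mul_le_mul_of_nonneg_left h1 (by positivity)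

/-- the number of products -/
private lemma Irr4_prods (C1 : ℝ) (hC1 : 0 < C1)
    (hfam : ∀ (n : ℕ) (T K e1 : ℝ) (a₀ : ℤ) (F : Finset (Polynomial ℤ)),
      1 ≤ n → 1 ≤ T → 1 ≤ K → T ^ 4 * e1 ≤ K ^ 2 → (n : ℝ) ≤ e1 → a₀ ≠ 0 →
      (∀ f ∈ F, f.natDegree = n ∧ f.coeff 0 = a₀ ∧ MM f ≤ T) →
      (∀ f ∈ F, ∀ j N : ℕ, N ≤ n → (N : ℝ) ≤ K * 256 ^ j → En N f ≤ 16000 * 128 ^ j * e1) →
      (F.card : ℝ) ≤ Real.exp (C1 * K))
    (d r : ℕ) (T : ℝ) (hd : 1 ≤ d) (hr : 1 ≤ r) (hT : 1 ≤ T)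
    (G : Finset (Polynomial ℤ)) (hG : ∀ f ∈ G, Ok d r T f ∧ f.coeff 0 ≠ 0)
    (P : Finset (Finset (Polynomial ℤ))) (hPG : P ⊆ powersetCard r G)
    (hP : ∀ S ∈ P, ∀ j N : ℕ, N ≤ d * r → (N : ℝ) ≤ r * K0 d r T * 256 ^ j →
        EnS N S ≤ 16000 * 128 ^ j * (r ^ 2 * e0 d r T)) :
    (P.card : ℝ) ≤ Real.exp ((C1 + 3) * (r * K0 d r T)) := by
  classical
  have hr0 : (1 : ℝ) ≤ r := by exact_mod_cast hr
  have hK0 := K0_ge d r T hT
  have hT2 : T ≤ T ^ 2 := by nlinarith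
  have hK1 : 1 ≤ K0 d r T := by linarith
  have hrK : K0 d r T ≤ r * K0 d r T := by nlinarith
  set Q : Finset (Polynomial ℤ) := P.image (fun S => ∏ f ∈ S, f) with hQ
  have hcard : Q.card = P.card := by
    rw [hQ]
    refine Finset.card_image_of_injOn ?_
    intro S hS S' hS' h
    have h1 := (Finset.mem_powersetCard.1 (hPG hS)).1
    have h2 := (Finset.mem_powersetCard.1 (hPG hS')).1
    exact prod_inj G (fun f hf => ⟨(hG f hf).1.1, (hG f hf).1.2.2.1⟩) S S' h1 h2 h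
  have hroot : ∀ f ∈ G, MM f ≤ T ^ (1 / (r : ℝ)) := by
    intro f hf
    have h1 := (hG f hf).1.2.2.2
    have h2 : 0 ≤ MM f := Polynomial.mahlerMeasure_nonneg _
    calc MM f = (MM f ^ r) ^ (1 / (r : ℝ)) := by
          rw [one_div, Real.pow_rpow_inv_natCast h2 (by omega)]
      _ ≤ T ^ (1 / (r : ℝ)) := by
          apply Real.rpow_le_rpow (by positivity) h1 (by positivity)
  have hB1 : 1 ≤ T ^ (1 / (r : ℝ)) := Real.one_le_rpow hT (by positivity)
  have hprop : ∀ g ∈ Q, g.natDegree = d * r ∧ g.coeff 0 ≠ 0 ∧ MM g ≤ T ∧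
      ∀ j N : ℕ, N ≤ d * r → (N : ℝ) ≤ r * K0 d r T * 256 ^ j →
        En N g ≤ 16000 * 128 ^ j * (r ^ 2 * e0 d r T) := by
    intro g hg
    rw [hQ, Finset.mem_image] at hg
    obtain ⟨S, hS, rfl⟩ := hg
    obtain ⟨hSG, hSr⟩ := Finset.mem_powersetCard.1 (hPG hS)
    have h2 := deg_prod S d (fun f hf => ⟨(hG f (hSG hf)).1.1.ne_zero, (hG f (hSG hf)).1.2.1⟩)
    rw [hSr] at h2
    refine ⟨h2.2, ?_, ?_, ?_⟩
    · rw [Polynomial.coeff_zero_prod]
      exact Finset.prod_ne_zero_iff.2 fun f hf => (hG f (hSG hf)).2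
    · have h3 := mm_prod S _ hB1 (fun f hf => hroot f (hSG hf))
      rw [hSr] at h3
      refine h3.trans_eq ?_
      rw [one_div, Real.rpow_inv_natCast_pow (by linarith) (by omega)]
    · intro j N hN1 hN2
      rw [En_prod S (fun f hf => (hG f (hSG hf)).1.1.ne_zero) N]
      exact hP S hS j N hN1 hN2
  set t : Finset ℤ := Icc (-⌊T⌋) ⌊T⌋ with ht
  have hmaps : ∀ g ∈ Q, g.coeff 0 ∈ t := by
    intro g hg
    obtain ⟨_, h2, h3, _⟩ := hprop g hg
    have h4 := mu_ge g h2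
    have h5 : 0 < |(g.coeff 0 : ℝ)| := abs_pos.2 (by exact_mod_cast h2)
    rw [le_div_iff₀ h5, one_mul] at h4
    have h6 : |(g.coeff 0 : ℝ)| ≤ T := h4.trans h3
    have h7 : |g.coeff 0| ≤ ⌊T⌋ := by
      rw [Int.le_floor]
      push_cast
      exact h6
    rw [ht, Finset.mem_Icc]
    exact abs_le.1 h7
  have hfib : ∀ a ∈ t, ((Q.filter (fun g => g.coeff 0 = a)).card : ℝ) ≤
      Real.exp (C1 * (r * K0 d r T)) := by
    intro a _
    by_cases ha : a = 0
    · have : Q.filter (fun g => g.coeff 0 = a) = ∅ := by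
        rw [Finset.filter_eq_empty_iff]
        intro g hg h
        exact (hprop g hg).2.1 (h.trans ha)
      rw [this, Finset.card_empty, Nat.cast_zero]
      exact (Real.exp_pos _).le
    · refine hfam (d * r) T (r * K0 d r T) (r ^ 2 * e0 d r T) a _ (Nat.mul_pos hd hr) hT
        (by linarith) ?_ (Irr4_e0 d r T hr hT) ha ?_ ?_
      · rw [mul_pow, K0_sq d r T hT]
        exact le_of_eq (by ring)
      · intro g hg
        rw [Finset.mem_filter] at hg
        obtain ⟨h1, _, h3, _⟩ := hprop g hg.1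
        exact ⟨h1, hg.2, h3⟩
      · intro g hg j N h1 h2
        rw [Finset.mem_filter] at hg
        exact (hprop g hg.1).2.2.2 j N h1 h2
  have hsum : (Q.card : ℝ) ≤ (t.card : ℝ) * Real.exp (C1 * (r * K0 d r T)) := by
    rw [Finset.card_eq_sum_card_fiberwise (f := fun g => g.coeff 0) (t := t)
      (fun g hg => hmaps g hg)]
    push_cast
    refine (Finset.sum_le_sum hfib).trans (le_of_eq ?_)
    rw [Finset.sum_const, nsmul_eq_mul]
  have htc : (t.card : ℝ) ≤ Real.exp (3 * (r * K0 d r T)) := by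
    have hfl0 : (1 : ℤ) ≤ ⌊T⌋ := by
      rw [Int.le_floor]
      exact_mod_cast hT
    have h1 : (t.card : ℤ) = 2 * ⌊T⌋ + 1 := by
      rw [ht, Int.card_Icc]
      rw [Int.toNat_of_nonneg (by linarith)]
      ring
    have h2 : (t.card : ℝ) = 2 * (⌊T⌋ : ℝ) + 1 := by exact_mod_cast h1
    have h3 : (⌊T⌋ : ℝ) ≤ T := Int.floor_le T
    have h4 := Real.add_one_le_exp (3 * (r * K0 d r T))
    linarith
  rw [← hcard]
  refine hsum.trans ?_
  calc (t.card : ℝ) * Real.exp (C1 * (r * K0 d r T))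
      ≤ Real.exp (3 * (r * K0 d r T)) * Real.exp (C1 * (r * K0 d r T)) := by gcongr
    _ = Real.exp ((C1 + 3) * (r * K0 d r T)) := by
        rw [← Real.exp_add]
        congr 1
        ring

theorem irr_pos : ∃ C : ℝ, 0 < C ∧ ∀ (d r : ℕ) (T : ℝ), 1 ≤ d → 1 ≤ r → 1 ≤ T →
    ∀ G : Finset (Polynomial ℤ), (∀ f ∈ G, Ok d r T f ∧ f.coeff 0 ≠ 0) →
    (G.card : ℝ) ≤ C * ((d : ℝ) * r) ^ 9 * Real.exp (C * K0 d r T) := by
  classical
  obtain ⟨C1, hC1, hfam⟩ := fam4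
  refine ⟨100000 + C1, by linarith, fun d r T hd hr hT G hG => ?_⟩
  have hd0 : (1 : ℝ) ≤ d := by exact_mod_cast hd
  have hr0 : (1 : ℝ) ≤ r := by exact_mod_cast hr
  have hdr : (1 : ℝ) ≤ (d : ℝ) * r := by nlinarith
  have hrdr : (r : ℝ) ≤ (d : ℝ) * r := by nlinarith
  have hK0 := K0_ge d r T hT
  have hT2 : T ≤ T ^ 2 := by nlinarith
  have hK1 : 1 ≤ K0 d r T := by linarith
  set W : ℝ := (d : ℝ) * r with hW
  set K : ℝ := K0 d r T with hK
  have hB0 : B0 d r ≤ 5 * W ^ 2 := Irr4_B0 d r hd hr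
  have hB00 : 3 ≤ B0 d r := B0_ge d r hd hr
  obtain ⟨G', hG'G, hE, hcard⟩ := exc d r T hd hr hT G (fun f hf => (hG f hf).1)
  have hW9 : 1 ≤ W ^ 9 := one_le_pow₀ hdr
  have hexc : 72 * (d * r + 1) * B0 d r ^ 4 * Real.exp (32 * K) ≤
      90000 * W ^ 9 * Real.exp ((100000 + C1) * K) := by
    have h1 : B0 d r ^ 4 ≤ (5 * W ^ 2) ^ 4 := pow_le_pow_left₀ (by linarith) hB0 4
    have h2 : Real.exp (32 * K) ≤ Real.exp ((100000 + C1) * K) := by
      apply Real.exp_le_exp.2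
      nlinarith
    have h3 : 72 * (W + 1) ≤ 144 * W := by linarith
    calc 72 * (W + 1) * B0 d r ^ 4 * Real.exp (32 * K)
        ≤ (144 * W) * (5 * W ^ 2) ^ 4 * Real.exp ((100000 + C1) * K) := by gcongr
      _ = 90000 * W ^ 9 * Real.exp ((100000 + C1) * K) := by ring
  have hexp1 : 1 ≤ Real.exp ((100000 + C1) * K) := Real.one_le_exp (by positivity)
  have hmain : (G'.card : ℝ) ≤ 5 * W ^ 9 * Real.exp ((100000 + C1) * K) := by
    rcases lt_or_ge (G'.card : ℝ) (B0 d r) with hc | hc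
    · have h1 : W ^ 2 ≤ W ^ 9 := pow_le_pow_right₀ hdr (by norm_num)
      have h2 : (0 : ℝ) ≤ 5 * W ^ 9 := by positivity
      calc (G'.card : ℝ) ≤ 5 * W ^ 9 * 1 := by linarith
        _ ≤ _ := mul_le_mul_of_nonneg_left hexp1 h2
    · obtain ⟨P, hPG, hch, hPE⟩ := half d r T hd hr hT G' (fun f hf => (hG f (hG'G hf)).1) hc hE
      have h1 := Irr4_prods C1 hC1 hfam d r T hd hr hT G' (fun f hf => hG f (hG'G hf)) P hPG hPE
      have hrK : 1 ≤ r * K := by nlinarith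
      have h2 : (G'.card.choose r : ℝ) ≤ Real.exp ((C1 + 4) * (r * K)) := by
        have h3 : (2 : ℝ) ≤ Real.exp (r * K) := by
          have := Real.add_one_le_exp (r * K)
          linarith
        calc (G'.card.choose r : ℝ) ≤ 2 * P.card := hch
          _ ≤ Real.exp (r * K) * Real.exp ((C1 + 3) * (r * K)) := by gcongr
          _ = Real.exp ((C1 + 4) * (r * K)) := by
              rw [← Real.exp_add]
              congr 1
              ring
      have h3 := choose_root G'.card r hr ((C1 + 4) * (r * K)) (by positivity) h2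
      have h4 : (C1 + 4) * (r * K) / r = (C1 + 4) * K := by
        field_simp
      rw [h4] at h3
      have h5 : Real.exp ((C1 + 4) * K) ≤ Real.exp ((100000 + C1) * K) := by
        apply Real.exp_le_exp.2
        nlinarith
      have h6 : W ≤ W ^ 9 := le_self_pow₀ hdr (by norm_num)
      calc (G'.card : ℝ) ≤ 2 * r * Real.exp ((C1 + 4) * K) := h3
        _ ≤ 5 * W ^ 9 * Real.exp ((100000 + C1) * K) := by
            apply mul_le_mul (by linarith) h5 (Real.exp_pos _).le (by positivity)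
  have hfin : 0 ≤ W ^ 9 * Real.exp ((100000 + C1) * K) := by positivity
  calc (G.card : ℝ) ≤ G'.card + 72 * (d * r + 1) * B0 d r ^ 4 * Real.exp (32 * K) := hcard
    _ ≤ 5 * W ^ 9 * Real.exp ((100000 + C1) * K) + 90000 * W ^ 9 * Real.exp ((100000 + C1) * K) :=
        add_le_add hmain hexc
    _ = 90005 * (W ^ 9 * Real.exp ((100000 + C1) * K)) := by ring
    _ ≤ (100000 + C1) * (W ^ 9 * Real.exp ((100000 + C1) * K)) :=
        mul_le_mul_of_nonneg_right (by linarith) hfin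
    _ = (100000 + C1) * W ^ 9 * Real.exp ((100000 + C1) * K) := by ring

theorem irr4 : ∃ C : ℝ, 0 < C ∧ ∀ (d r : ℕ) (T : ℝ), 1 ≤ d → 1 ≤ r → 1 ≤ T →
    ∀ F : Finset (Polynomial ℤ),
    (∀ f ∈ F, Irreducible f ∧ f.natDegree = d ∧ f.coeff 0 ≠ 0 ∧ MM f ^ r ≤ T) →
    (F.card : ℝ) ≤ C * ((d : ℝ) * r) ^ 9 * Real.exp (C * K0 d r T) := by
  classical
  obtain ⟨C, hC, hpos⟩ := irr_pos
  refine ⟨2 * C, by positivity, fun d r T hd hr hT F hF => ?_⟩
  have hK0 := K0_ge d r T hT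
  have hK1 : 0 ≤ K0 d r T := by nlinarith
  set H : Finset (Polynomial ℤ) := F ∪ F.image (fun f => -f) with hH
  have hHF : ∀ f ∈ H, Irreducible f ∧ f.natDegree = d ∧ f.coeff 0 ≠ 0 ∧ MM f ^ r ≤ T := by
    intro f hf
    rw [hH, Finset.mem_union, Finset.mem_image] at hf
    rcases hf with hf | ⟨g, hg, rfl⟩
    · exact hF f hf
    · obtain ⟨h1, h2, h3, h4⟩ := hF g hg
      refine ⟨(Associated.neg_left (Associated.refl g)).irreducible_iff.mpr h1,
        by rw [Polynomial.natDegree_neg]; exact h2, ?_, by rw [MM_neg]; exact h4⟩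
      rw [Polynomial.coeff_neg]
      exact neg_ne_zero.2 h3
  set G : Finset (Polynomial ℤ) := H.filter (fun f => 0 < f.leadingCoeff) with hGdef
  have hG := hpos d r T hd hr hT G (fun f hf => by
    rw [hGdef, Finset.mem_filter] at hf
    obtain ⟨h1, h2, h3, h4⟩ := hHF f hf.1
    exact ⟨⟨h1, h2, hf.2, h4⟩, h3⟩)
  have hsub : F ⊆ G ∪ G.image (fun f => -f) := by
    intro f hf
    rw [Finset.mem_union]
    have hne : f.leadingCoeff ≠ 0 :=
      Polynomial.leadingCoeff_ne_zero.mpr (hF f hf).1.ne_zero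
    rcases lt_or_gt_of_ne hne with h | h
    · right
      rw [Finset.mem_image]
      refine ⟨-f, ?_, neg_neg f⟩
      rw [hGdef, Finset.mem_filter]
      refine ⟨?_, by rw [Polynomial.leadingCoeff_neg]; linarith⟩
      rw [hH, Finset.mem_union]
      exact Or.inr (Finset.mem_image_of_mem _ hf)
    · left
      rw [hGdef, Finset.mem_filter]
      exact ⟨by rw [hH, Finset.mem_union]; exact Or.inl hf, h⟩
  have hcard : (F.card : ℝ) ≤ 2 * G.card := by
    have h2 : F.card ≤ G.card + G.card := by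
      calc F.card ≤ (G ∪ G.image (fun f => -f)).card := Finset.card_le_card hsub
        _ ≤ G.card + (G.image (fun f => -f)).card := Finset.card_union_le _ _
        _ ≤ G.card + G.card := Nat.add_le_add_left Finset.card_image_le _
    have : (F.card : ℝ) ≤ G.card + G.card := by exact_mod_cast h2
    linarith
  have hexp : Real.exp (C * K0 d r T) ≤ Real.exp (2 * C * K0 d r T) := by
    apply Real.exp_le_exp.2
    nlinarith [mul_nonneg hC.le hK1]
  calc (F.card : ℝ) ≤ 2 * G.card := hcard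
    _ ≤ 2 * (C * ((d : ℝ) * r) ^ 9 * Real.exp (C * K0 d r T)) := by linarith
    _ ≤ 2 * (C * ((d : ℝ) * r) ^ 9 * Real.exp (2 * C * K0 d r T)) := by gcongr
    _ = 2 * C * ((d : ℝ) * r) ^ 9 * Real.exp (2 * C * K0 d r T) := by ring

end Pool.Agent.Lib.MP_7ab245_nt.Cnt4
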