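import Pool.Agent.Lib.MP_7ab245_nt.Cnt4.Hs

/-!
C4-Psd: the energy is positive semidefinite.

PROOF. Multiply hasSum_KK by `z i * z j` and sum over `i, j` (hasSum_sum): `∑_i ∑_j z_i z_j KK s (F i) (F j)` is the sum of the series
`l ↦ exp (-s l) / l * ‖∑_i z_i QQ l (F i)‖²` (expand `‖w‖² = (w conj w).re`), all terms are `≥ 0` (`l = 0`: the term is `0`), so the partial sum over `Icc 1 N` is
`≤` the sum (`sum_le_hasSum`). `dbl_le`: `z = 1` on the subtype of `G`, and `exp (-s l) ≥ 1/3` for `s l ≤ 1` (see sum_le_EE in Cnt/KerSum.lean). `single_le`: the case `G = {f}`.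
-/

set_option autoImplicit false

open Finset

namespace Pool.Agent.Lib.MP_7ab245_nt.Cnt4

open Pool.Agent.Lib.MP_7ab245_nt.LogVar Pool.Agent.Lib.MP_7ab245_nt.Cnt

private theorem sq_expand {ι : Type} [Fintype ι] (a : ι → ℂ) (z : ι → ℝ) :
    ‖∑ i, (z i : ℂ) * a i‖ ^ 2 =
      ∑ i, ∑ j, z i * z j * (a i * (starRingEnd ℂ) (a j)).re := by
  have h1 : ((‖∑ i, (z i : ℂ) * a i‖ ^ 2 : ℝ) : ℂ) =
      (∑ i, (z i : ℂ) * a i) * (starRingEnd ℂ) (∑ i, (z i : ℂ) * a i) := by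
    rw [Complex.mul_conj, Complex.normSq_eq_norm_sq]
  have h2 : ‖∑ i, (z i : ℂ) * a i‖ ^ 2 =
      ((∑ i, (z i : ℂ) * a i) * (starRingEnd ℂ) (∑ i, (z i : ℂ) * a i)).re := by
    rw [← h1, Complex.ofReal_re]
  rw [h2, map_sum, sum_mul_sum, Complex.re_sum]
  apply sum_congr rfl
  intro i _
  rw [Complex.re_sum]
  apply sum_congr rfl
  intro j _
  rw [map_mul, Complex.conj_ofReal]
  have h3 : (z i : ℂ) * a i * ((z j : ℂ) * (starRingEnd ℂ) (a j)) =
      ((z i * z j : ℝ) : ℂ) * (a i * (starRingEnd ℂ) (a j)) := by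
    push_cast
    ring
  rw [h3, Complex.re_ofReal_mul]

theorem psd {ι : Type} [Fintype ι] (F : ι → Polynomial ℤ) (s : ℝ) (hs : 0 < s) (N : ℕ)
    (z : ι → ℝ) :
    ∑ l ∈ Icc 1 N, Real.exp (-s * l) / l * ‖∑ i, (z i : ℂ) * QQ l (F i)‖ ^ 2 ≤
      ∑ i, ∑ j, z i * z j * KK s (F i) (F j) := by
  have h1 : HasSum (fun l : ℕ => ∑ i, ∑ j, z i * z j *
      (Real.exp (-s * l) / l * (QQ l (F i) * (starRingEnd ℂ) (QQ l (F j))).re))
      (∑ i, ∑ j, z i * z j * KK s (F i) (F j)) := by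
    apply hasSum_sum
    intro i _
    apply hasSum_sum
    intro j _
    exact (hasSum_KK (F i) (F j) s hs).mul_left _
  have h2 : ∀ l : ℕ, (∑ i, ∑ j, z i * z j *
      (Real.exp (-s * l) / l * (QQ l (F i) * (starRingEnd ℂ) (QQ l (F j))).re)) =
      Real.exp (-s * l) / l * ‖∑ i, (z i : ℂ) * QQ l (F i)‖ ^ 2 := by
    intro l
    rw [sq_expand (fun i => QQ l (F i)) z, mul_sum]
    apply sum_congr rfl
    intro i _
    rw [mul_sum]
    apply sum_congr rfl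
    intro j _
    ring
  have h3 : HasSum (fun l : ℕ =>
      Real.exp (-s * l) / l * ‖∑ i, (z i : ℂ) * QQ l (F i)‖ ^ 2)
      (∑ i, ∑ j, z i * z j * KK s (F i) (F j)) := by
    have h4 := h1
    simp only [h2] at h4
    exact h4
  exact sum_le_hasSum _ (fun l _ => mul_nonneg
    (div_nonneg (Real.exp_pos _).le (Nat.cast_nonneg _)) (by positivity)) h3

private theorem exp_third {x : ℝ} (hx : x ≤ 1) : (1 : ℝ) ≤ 3 * Real.exp (-x) := by
  have h3 : Real.exp (-1) ≤ Real.exp (-x) := Real.exp_le_exp.2 (by linarith)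
  have h4 : (1 : ℝ) ≤ 3 * Real.exp (-1) := by
    have h5 : Real.exp 1 * Real.exp (-1) = 1 := by
      rw [← Real.exp_add]; simp
    have h6 := Real.exp_one_lt_d9
    have h7 := Real.exp_pos (-1)
    nlinarith
  linarith

theorem dbl_le (G : Finset (Polynomial ℤ)) (s : ℝ) (hs : 0 < s) (N : ℕ) (hN : s * N ≤ 1) :
    EnS N G ≤ 3 * ∑ f ∈ G, ∑ g ∈ G, KK s f g := by
  have h1 := psd (fun f : G => (f : Polynomial ℤ)) s hs N (fun _ => 1)
  have h2 : ∑ i : G, ∑ j : G, (1 : ℝ) * 1 * KK s (i : Polynomial ℤ) (j : Polynomial ℤ) =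
      ∑ f ∈ G, ∑ g ∈ G, KK s f g := by
    rw [← sum_coe_sort G (fun f => ∑ g ∈ G, KK s f g)]
    apply sum_congr rfl
    intro i _
    rw [← sum_coe_sort G (fun g => KK s (i : Polynomial ℤ) g)]
    apply sum_congr rfl
    intro j _
    ring
  rw [h2] at h1
  have h3 : EnS N G ≤ 3 * ∑ l ∈ Icc 1 N, Real.exp (-s * l) / l *
      ‖∑ i : G, ((1 : ℝ) : ℂ) * QQ l (i : Polynomial ℤ)‖ ^ 2 := by
    unfold EnS
    rw [mul_sum]
    apply sum_le_sum
    intro l hl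
    rw [mem_Icc] at hl
    have hl0 : (0 : ℝ) < l := by exact_mod_cast hl.1
    have hlN : (l : ℝ) ≤ N := by exact_mod_cast hl.2
    have h4 : ∑ i : G, ((1 : ℝ) : ℂ) * QQ l (i : Polynomial ℤ) = ∑ f ∈ G, QQ l f := by
      rw [← sum_coe_sort G (fun f => QQ l f)]
      apply sum_congr rfl
      intro i _
      simp
    rw [h4]
    have h5 : s * l ≤ 1 := (mul_le_mul_of_nonneg_left hlN hs.le).trans hN
    have h6 := exp_third h5
    have h7 : 0 ≤ ‖∑ f ∈ G, QQ l f‖ ^ 2 / (l : ℝ) := by positivity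
    calc ‖∑ f ∈ G, QQ l f‖ ^ 2 / (l : ℝ)
        = 1 * (‖∑ f ∈ G, QQ l f‖ ^ 2 / (l : ℝ)) := by ring
      _ ≤ (3 * Real.exp (-(s * l))) * (‖∑ f ∈ G, QQ l f‖ ^ 2 / (l : ℝ)) :=
          mul_le_mul_of_nonneg_right h6 h7
      _ = 3 * (Real.exp (-s * l) / l * ‖∑ f ∈ G, QQ l f‖ ^ 2) := by
          rw [neg_mul]; ring
  linarith

theorem single_le (f : Polynomial ℤ) (s : ℝ) (hs : 0 < s) (N : ℕ) (hN : s * N ≤ 1) :
    En N f ≤ 3 * KK s f f := by
  have h1 := dbl_le {f} s hs N hN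
  simpa [EnS, En] using h1

end Pool.Agent.Lib.MP_7ab245_nt.Cnt4
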