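import Pool.Agent.Lib.MP_7ab245_nt.Cnt4.Hs

/-!
C4-Self: the energy of one polynomial.

PROOF. This is the computation in the proof of `energy` in Cnt/Energy.lean (h1-h4, h10 there) with a general `s ∈ (0, 1]` in place of `1/n`:
`KK s f f = ∑_i ∑_j ker s (refl (α i)) (refl (α j)) = EE (refl ∘ α) s 1 1` (KK_roots, pow_one), diagonal terms `≤ log (2/s)` (ker_self_le), the others by
`ker_refl_le` and `disc f d hfd hd α hα hinj` (`hinj` from sqf_roots), `log_MM` (private there: copy).
-/

set_option autoImplicit false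

open Finset

namespace Pool.Agent.Lib.MP_7ab245_nt.Cnt4

open Pool.Agent.Lib.MP_7ab245_nt.LogVar Pool.Agent.Lib.MP_7ab245_nt.Cnt
open Pool.Agent.Lib.MP_7ab245_nt.Len

private lemma self_log_MM (f : Polynomial ℤ) (hf : f ≠ 0) {n : ℕ} (α : Fin n → ℂ)
    (hα : (cx f).roots = univ.val.map α) :
    Real.log (MM f) = Real.log |(f.leadingCoeff : ℝ)| + hh α := by
  unfold MM
  rw [Polynomial.mahlerMeasure_eq_leadingCoeff_mul_prod_roots]
  have h1 : ‖(cx f).leadingCoeff‖ = |(f.leadingCoeff : ℝ)| := by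
    unfold cx
    rw [Polynomial.leadingCoeff_map_of_injective (RingHom.injective_int _), eq_intCast,
      Complex.norm_intCast]
  have h2 : ((cx f).roots.map (fun a => max 1 ‖a‖)).prod = ∏ i, max 1 ‖α i‖ := by
    rw [hα, Multiset.map_map]
    rfl
  have h3 : (f.leadingCoeff : ℝ) ≠ 0 := by
    exact_mod_cast Polynomial.leadingCoeff_ne_zero.mpr hf
  have h4 : ∀ i, (0 : ℝ) < max 1 ‖α i‖ := fun i => lt_of_lt_of_le one_pos (le_max_left _ _)
  rw [h1, h2, Real.log_mul (abs_ne_zero.mpr h3) (Finset.prod_pos fun i _ => h4 i).ne',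
    Real.log_prod (fun i _ => (h4 i).ne')]
  unfold hh
  congr 1
  exact Finset.sum_congr rfl fun i _ => (Real.posLog_eq_log_max_one (norm_nonneg _)).symm

theorem self_le (f : Polynomial ℤ) (d : ℕ) (hd : 1 ≤ d) (hf : Squarefree f) (hfd : f.natDegree = d)
    (s : ℝ) (hs : 0 < s) (hs1 : s ≤ 1) :
    KK s f f ≤ d * Real.log (2 / s) + (d : ℝ) ^ 2 * s + 2 * d * Real.log (MM f) := by
  have hf0 : f ≠ 0 := by
    rintro rfl
    rw [Polynomial.natDegree_zero] at hfd
    omega
  obtain ⟨α, hα⟩ := exists_roots f d hfd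
  have hinj : Function.Injective α := by
    have h1 := sqf_roots f hf
    rw [hα, Fin.univ_val_map] at h1
    exact List.nodup_ofFn.mp (Multiset.coe_nodup.mp h1)
  have hn' : (1 : ℝ) ≤ d := by exact_mod_cast hd
  have hdisc := disc f d hfd hd α hα hinj
  have hne : ∀ i, ∀ j ∈ univ.erase i, α i ≠ α j := by
    intro i j hj h
    exact (Finset.mem_erase.mp hj).1 (hinj h).symm
  have h1 : KK s f f = ∑ i, (ker s (refl (α i)) (refl (α i)) +
      ∑ j ∈ univ.erase i, ker s (refl (α i)) (refl (α j))) := by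
    rw [KK_roots f f α α hα hα s hs]
    refine Finset.sum_congr rfl fun i _ => ?_
    rw [Finset.add_sum_erase _ (fun j => ker s (refl (α i)) (refl (α j))) (Finset.mem_univ i)]
  have h2 : ∀ i, ∑ j ∈ univ.erase i, ker s (refl (α i)) (refl (α j)) ≤
      ∑ j ∈ univ.erase i, (s + Real.posLog ‖α i‖ + Real.posLog ‖α j‖) -
        ∑ j ∈ univ.erase i, Real.log ‖α i - α j‖ := by
    intro i
    rw [← Finset.sum_sub_distrib]
    apply Finset.sum_le_sum
    intro j hj
    have := ker_refl_le s hs.le (α i) (α j) (hne i j hj)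
    linarith
  have h3 : ∀ i, ∑ j ∈ univ.erase i, (s + Real.posLog ‖α i‖ + Real.posLog ‖α j‖) ≤
      d * s + d * Real.posLog ‖α i‖ + hh α := by
    intro i
    calc ∑ j ∈ univ.erase i, (s + Real.posLog ‖α i‖ + Real.posLog ‖α j‖)
        ≤ ∑ j, (s + Real.posLog ‖α i‖ + Real.posLog ‖α j‖) := by
          apply Finset.sum_le_sum_of_subset_of_nonneg (Finset.erase_subset _ _)
          intro j _ _
          have h4 : 0 ≤ Real.posLog ‖α i‖ := Real.posLog_nonneg
          have h5 : 0 ≤ Real.posLog ‖α j‖ := Real.posLog_nonneg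
          linarith
      _ = _ := by
          rw [hh]
          simp only [Finset.sum_add_distrib, Finset.sum_const, Finset.card_univ,
            Fintype.card_fin, nsmul_eq_mul]
  have h4 : KK s f f ≤ d * Real.log (2 / s) + d * (d * s) + 2 * d * hh α -
      ∑ i, ∑ j ∈ univ.erase i, Real.log ‖α i - α j‖ := by
    rw [h1]
    have h5 : ∀ i, ker s (refl (α i)) (refl (α i)) +
        ∑ j ∈ univ.erase i, ker s (refl (α i)) (refl (α j)) ≤
        Real.log (2 / s) + (d * s + d * Real.posLog ‖α i‖ + hh α) -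
          ∑ j ∈ univ.erase i, Real.log ‖α i - α j‖ := by
      intro i
      have := ker_self_le s hs hs1 (refl (α i)) (norm_refl_le _)
      have := h2 i
      have := h3 i
      linarith
    refine (Finset.sum_le_sum fun i _ => h5 i).trans_eq ?_
    simp only [Finset.sum_add_distrib, Finset.sum_sub_distrib, Finset.sum_const,
      Finset.card_univ, Fintype.card_fin, nsmul_eq_mul, ← Finset.mul_sum]
    have h9 : ∑ i, Real.posLog ‖α i‖ = hh α := rfl
    rw [h9]
    ring
  have hlc : 0 ≤ Real.log |(f.leadingCoeff : ℝ)| := by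
    apply Real.log_nonneg
    have : (1 : ℤ) ≤ |f.leadingCoeff| := Int.one_le_abs (Polynomial.leadingCoeff_ne_zero.mpr hf0)
    exact_mod_cast this
  have hM := self_log_MM f hf0 α hα
  rw [hM]
  nlinarith

end Pool.Agent.Lib.MP_7ab245_nt.Cnt4
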