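import Pool.Agent.Lib.MP_7ab245_nt.Cnt4.Cross
import Pool.Agent.Lib.MP_7ab245_nt.Cnt4.Self
import Pool.Agent.Lib.MP_7ab245_nt.Cnt4.Psd

/-!
C4-Par: the energies with the parameters `d, r, T`, `s = 1/(d r)`.

PROOF. `MM f ^ r ≤ T` and `MM f ≥ 1` (Cnt/Split.lean: one_le_MM) give `0 ≤ log MM f ≤ log T / r`. With `s = 1/(d r)`, `u := d / r`:
cross: `KK ≤ d² s + 2 d log T / r = u + 2 u log T ≤ 3 e0`. self: `d log (2 d r) + u + 2 u log T ≤ e0 B0`, as `e0 ≥ u` gives `d log (2dr) = u r log (2dr) ≤ e0 r log (2dr)` and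
`u + 2 u log T ≤ 2 e0`. `en_le`: single_le (`s N ≤ 1`). `ens_le`: dbl_le, the `card²` terms off the diagonal are `≤ 3 e0`, the `card` diagonal terms `≤ e0 B0`.
`Irreducible.squarefree`.
-/

set_option autoImplicit false

open Finset

namespace Pool.Agent.Lib.MP_7ab245_nt.Cnt4

open Pool.Agent.Lib.MP_7ab245_nt.LogVar Pool.Agent.Lib.MP_7ab245_nt.Cnt

/-- the polynomials considered -/
def Ok (d r : ℕ) (T : ℝ) (f : Polynomial ℤ) : Prop :=
  Irreducible f ∧ f.natDegree = d ∧ 0 < f.leadingCoeff ∧ MM f ^ r ≤ T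

theorem e0_ge (d r : ℕ) (T : ℝ) (hT : 1 ≤ T) : 1 ≤ e0 d r T := by
  have h1 : 0 ≤ Real.log T := Real.log_nonneg hT
  unfold e0
  have h2 : 0 ≤ (d : ℝ) / r * (1 + Real.log T) := by positivity
  linarith

theorem B0_ge (d r : ℕ) (hd : 1 ≤ d) (hr : 1 ≤ r) : 3 ≤ B0 d r := by
  have h1 : (1 : ℝ) ≤ d := by exact_mod_cast hd
  have h2 : (1 : ℝ) ≤ r := by exact_mod_cast hr
  have h3 : 0 ≤ Real.log (2 * d * r) := by
    apply Real.log_nonneg
    nlinarith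
  unfold B0
  have h4 : 0 ≤ (r : ℝ) * Real.log (2 * d * r) := mul_nonneg (by linarith) h3
  linarith

theorem K0_sq (d r : ℕ) (T : ℝ) (hT : 1 ≤ T) : K0 d r T ^ 2 = T ^ 4 * e0 d r T := by
  have h1 := e0_ge d r T hT
  unfold K0
  rw [mul_pow, Real.sq_sqrt (by linarith)]
  ring

theorem K0_ge (d r : ℕ) (T : ℝ) (hT : 1 ≤ T) : T ^ 2 ≤ K0 d r T := by
  have h1 := e0_ge d r T hT
  unfold K0
  have h2 : (1 : ℝ) ≤ √(e0 d r T) := by
    rw [Real.one_le_sqrt]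
    exact h1
  have h3 : (0 : ℝ) ≤ T ^ 2 := by positivity
  nlinarith

/-- `d log (MM f) ≤ (d / r) log T` -/
private theorem log_MM_le (d r : ℕ) (T : ℝ) (hr : 1 ≤ r) (f : Polynomial ℤ) (hf : Ok d r T f) :
    0 ≤ Real.log (MM f) ∧ d * Real.log (MM f) ≤ d / r * Real.log T := by
  have h0 : f ≠ 0 := hf.1.ne_zero
  have h1 : 1 ≤ MM f := by
    unfold MM cx
    exact Polynomial.one_le_mahlerMeasure_of_ne_zero h0
  have h2 : 0 ≤ Real.log (MM f) := Real.log_nonneg h1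
  have h3 : Real.log (MM f ^ r) ≤ Real.log T :=
    Real.log_le_log (pow_pos (by linarith) r) hf.2.2.2
  rw [Real.log_pow] at h3
  have hr0 : (0 : ℝ) < r := by exact_mod_cast hr
  refine ⟨h2, ?_⟩
  have h4 : Real.log (MM f) ≤ Real.log T / r := by
    rw [le_div_iff₀ hr0]
    linarith
  calc (d : ℝ) * Real.log (MM f) ≤ d * (Real.log T / r) :=
        mul_le_mul_of_nonneg_left h4 (Nat.cast_nonneg d)
    _ = d / r * Real.log T := by ring

private theorem s_facts (d r : ℕ) (hd : 1 ≤ d) (hr : 1 ≤ r) :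
    0 < 1 / ((d : ℝ) * r) ∧ 1 / ((d : ℝ) * r) ≤ 1 ∧
      (d : ℝ) ^ 2 * (1 / ((d : ℝ) * r)) = d / r ∧ 2 / (1 / ((d : ℝ) * r)) = 2 * d * r := by
  have h1 : (1 : ℝ) ≤ d := by exact_mod_cast hd
  have h2 : (1 : ℝ) ≤ r := by exact_mod_cast hr
  have h3 : (1 : ℝ) ≤ (d : ℝ) * r := by nlinarith
  refine ⟨by positivity, ?_, ?_, ?_⟩
  · rw [div_le_one (by linarith)]
    exact h3
  · field_simp
  · field_simp

theorem cross_le (d r : ℕ) (T : ℝ) (hd : 1 ≤ d) (hr : 1 ≤ r) (hT : 1 ≤ T) (f g : Polynomial ℤ)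
    (hf : Ok d r T f) (hg : Ok d r T g) (hne : f ≠ g) :
    KK (1 / (d * r)) f g ≤ 3 * e0 d r T := by
  obtain ⟨a1, a2, a3, -⟩ := s_facts d r hd hr
  have h1 := cross f g d hd hf.1 hg.1 hf.2.1 hg.2.1 hf.2.2.1 hg.2.2.1 hne _ a1
  rw [a3] at h1
  have h2 := (log_MM_le d r T hr f hf).2
  have h3 := (log_MM_le d r T hr g hg).2
  have h4 : 0 ≤ Real.log T := Real.log_nonneg hT
  have h5 : 0 ≤ (d : ℝ) / r := by positivity
  have h6 : 0 ≤ (d : ℝ) / r * Real.log T := mul_nonneg h5 h4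
  unfold e0
  linarith

theorem diag_le (d r : ℕ) (T : ℝ) (hd : 1 ≤ d) (hr : 1 ≤ r) (hT : 1 ≤ T) (f : Polynomial ℤ)
    (hf : Ok d r T f) : KK (1 / (d * r)) f f ≤ e0 d r T * B0 d r := by
  obtain ⟨a1, a2, a3, a4⟩ := s_facts d r hd hr
  have h1 := self_le f d hd hf.1.squarefree hf.2.1 _ a1 a2
  rw [a3, a4] at h1
  have h2 := (log_MM_le d r T hr f hf).2
  have h4 : 0 ≤ Real.log T := Real.log_nonneg hT
  have h5 : 0 ≤ (d : ℝ) / r := by positivity
  have h6 : 0 ≤ (d : ℝ) / r * Real.log T := mul_nonneg h5 h4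
  have b1 : (1 : ℝ) ≤ d := by exact_mod_cast hd
  have b2 : (1 : ℝ) ≤ r := by exact_mod_cast hr
  have h7 : 0 ≤ (r : ℝ) * Real.log (2 * d * r) := by
    refine mul_nonneg (by linarith) (Real.log_nonneg ?_)
    nlinarith
  have h8 : (d : ℝ) / r * (r * Real.log (2 * d * r)) = d * Real.log (2 * d * r) := by
    field_simp
  have h9 : (d : ℝ) / r * (r * Real.log (2 * d * r)) ≤
      e0 d r T * (r * Real.log (2 * d * r)) := by
    refine mul_le_mul_of_nonneg_right ?_ h7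
    unfold e0
    linarith
  have h10 : e0 d r T * B0 d r = 3 * e0 d r T + e0 d r T * (r * Real.log (2 * d * r)) := by
    unfold B0
    ring
  have h11 : 3 * e0 d r T = 3 + 3 * (d / r) + 3 * (d / r * Real.log T) := by
    unfold e0
    ring
  rw [h10, h11]
  linarith

private theorem s_mul_le (d r : ℕ) (hd : 1 ≤ d) (hr : 1 ≤ r) (N : ℕ) (hN : N ≤ d * r) :
    1 / ((d : ℝ) * r) * N ≤ 1 := by
  have h1 : (1 : ℝ) ≤ d := by exact_mod_cast hd
  have h2 : (1 : ℝ) ≤ r := by exact_mod_cast hr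
  have h3 : (N : ℝ) ≤ (d : ℝ) * r := by exact_mod_cast hN
  rw [one_div_mul_eq_div, div_le_one (by nlinarith)]
  exact h3

theorem en_le (d r : ℕ) (T : ℝ) (hd : 1 ≤ d) (hr : 1 ≤ r) (hT : 1 ≤ T) (f : Polynomial ℤ)
    (hf : Ok d r T f) (N : ℕ) (hN : N ≤ d * r) : En N f ≤ 3 * (e0 d r T * B0 d r) := by
  obtain ⟨a1, a2, a3, a4⟩ := s_facts d r hd hr
  have h1 := single_le f _ a1 N (s_mul_le d r hd hr N hN)
  have h2 := diag_le d r T hd hr hT f hf
  linarith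

theorem ens_le (d r : ℕ) (T : ℝ) (hd : 1 ≤ d) (hr : 1 ≤ r) (hT : 1 ≤ T)
    (G : Finset (Polynomial ℤ)) (hG : ∀ f ∈ G, Ok d r T f) (N : ℕ) (hN : N ≤ d * r) :
    EnS N G ≤ 3 * ((G.card : ℝ) ^ 2 * (3 * e0 d r T) + G.card * (e0 d r T * B0 d r)) := by
  classical
  obtain ⟨a1, a2, a3, a4⟩ := s_facts d r hd hr
  have h1 := dbl_le G _ a1 N (s_mul_le d r hd hr N hN)
  refine h1.trans (mul_le_mul_of_nonneg_left ?_ (by norm_num))
  have e1 := e0_ge d r T hT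
  have e2 := B0_ge d r hd hr
  have e3 : 0 ≤ e0 d r T * B0 d r := mul_nonneg (by linarith) (by linarith)
  have h2 : ∀ f ∈ G, ∀ g ∈ G, KK (1 / ((d : ℝ) * r)) f g ≤
      3 * e0 d r T + if f = g then e0 d r T * B0 d r else 0 := by
    intro f hf g hg
    by_cases hfg : f = g
    · subst hfg
      rw [if_pos rfl]
      have h3 := diag_le d r T hd hr hT f (hG f hf)
      linarith
    · rw [if_neg hfg, add_zero]
      exact cross_le d r T hd hr hT f g (hG f hf) (hG g hg) hfg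
  calc ∑ f ∈ G, ∑ g ∈ G, KK (1 / ((d : ℝ) * r)) f g
      ≤ ∑ f ∈ G, ∑ g ∈ G, (3 * e0 d r T + if f = g then e0 d r T * B0 d r else 0) :=
        Finset.sum_le_sum fun f hf => Finset.sum_le_sum fun g hg => h2 f hf g hg
    _ = ∑ f ∈ G, ((G.card : ℝ) * (3 * e0 d r T) + e0 d r T * B0 d r) := by
        refine Finset.sum_congr rfl fun f hf => ?_
        rw [Finset.sum_add_distrib, Finset.sum_const, nsmul_eq_mul, Finset.sum_ite_eq,
          if_pos hf]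
    _ = (G.card : ℝ) ^ 2 * (3 * e0 d r T) + G.card * (e0 d r T * B0 d r) := by
        rw [Finset.sum_const, nsmul_eq_mul]
        ring

theorem En_mono (f : Polynomial ℤ) {M N : ℕ} (h : M ≤ N) : En M f ≤ En N f := by
  unfold En
  refine Finset.sum_le_sum_of_subset_of_nonneg (Finset.Icc_subset_Icc_right h) ?_
  intro l _ _
  positivity

theorem EnS_mono (S : Finset (Polynomial ℤ)) {M N : ℕ} (h : M ≤ N) : EnS M S ≤ EnS N S := by
  unfold EnS
  refine Finset.sum_le_sum_of_subset_of_nonneg (Finset.Icc_subset_Icc_right h) ?_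
  intro l _ _
  positivity

end Pool.Agent.Lib.MP_7ab245_nt.Cnt4
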