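import Mathlib

/-!
Lower bound for the even moments of a Gram matrix (Schur power, rank of the symmetric power).
-/

set_option autoImplicit false

open Finset

namespace Pool.Agent.Lib.MP_7ab245_nt.Cnt4

theorem rank_lower {ι A : Type} [Fintype ι] [Fintype A] (x : A → ι → ℝ) (j : ℕ) (a : ℝ)
    (ha0 : 0 ≤ a) (ha : ∀ f, a ≤ ∑ i, x i f ^ 2) :
    ((Fintype.card ι : ℝ) * a ^ j) ^ 2 ≤ ((Fintype.card A + j - 1).choose j : ℝ) *
      ∑ f, ∑ g, (∑ i, x i f * x i g) ^ (2 * j) := by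
  classical
  set z : Sym A j → ι → ℝ := fun k f => √((k.val.countPerms : ℕ) : ℝ) *
    (k.val.map fun i => x i f).prod with hz
  have h1 : ∀ f g, (∑ i, x i f * x i g) ^ j = ∑ k : Sym A j, z k f * z k g := by
    intro f g
    rw [Finset.sum_pow, Finset.sym_univ]
    refine Finset.sum_congr rfl fun k _ => ?_
    rw [hz]
    simp only
    rw [Multiset.prod_map_mul, mul_mul_mul_comm, Real.mul_self_sqrt (Nat.cast_nonneg _)]
  have h2 : ∑ f, ∑ g, (∑ i, x i f * x i g) ^ (2 * j) =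
      ∑ k : Sym A j, ∑ l : Sym A j, (∑ f, z k f * z l f) ^ 2 := by
    have e1 : ∀ f g, (∑ i, x i f * x i g) ^ (2 * j) =
        ∑ k : Sym A j, ∑ l : Sym A j, (z k f * z l f) * (z k g * z l g) := by
      intro f g
      rw [mul_comm 2 j, pow_mul, h1, sq, Finset.sum_mul_sum]
      refine Finset.sum_congr rfl fun k _ => Finset.sum_congr rfl fun l _ => by ring
    have e2 : ∀ k l : Sym A j, (∑ f, z k f * z l f) ^ 2 =
        ∑ f, ∑ g, (z k f * z l f) * (z k g * z l g) := by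
      intro k l
      rw [sq, Finset.sum_mul_sum]
    simp_rw [e1, e2]
    calc ∑ f, ∑ g, ∑ k : Sym A j, ∑ l : Sym A j, (z k f * z l f) * (z k g * z l g)
        = ∑ f, ∑ k : Sym A j, ∑ l : Sym A j, ∑ g, (z k f * z l f) * (z k g * z l g) := by
          refine Finset.sum_congr rfl fun f _ => ?_
          rw [Finset.sum_comm]
          refine Finset.sum_congr rfl fun k _ => ?_
          rw [Finset.sum_comm]
      _ = ∑ k : Sym A j, ∑ l : Sym A j, ∑ f, ∑ g, (z k f * z l f) * (z k g * z l g) := by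
          rw [Finset.sum_comm]
          refine Finset.sum_congr rfl fun k _ => ?_
          rw [Finset.sum_comm]
  have h3 : ∑ k : Sym A j, (∑ f, z k f ^ 2) ^ 2 ≤
      ∑ k : Sym A j, ∑ l : Sym A j, (∑ f, z k f * z l f) ^ 2 := by
    refine Finset.sum_le_sum fun k _ => ?_
    have e3 : (∑ f, z k f ^ 2) ^ 2 = (∑ f, z k f * z k f) ^ 2 := by simp_rw [sq]
    rw [e3]
    exact Finset.single_le_sum (f := fun l => (∑ f, z k f * z l f) ^ 2) (fun l _ => sq_nonneg _)
      (Finset.mem_univ k)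
  have h4 : (∑ k : Sym A j, ∑ f, z k f ^ 2) ^ 2 ≤
      (Fintype.card (Sym A j) : ℝ) * ∑ k : Sym A j, (∑ f, z k f ^ 2) ^ 2 := by
    have := sq_sum_le_card_mul_sum_sq (s := (Finset.univ : Finset (Sym A j)))
      (f := fun k => ∑ f, z k f ^ 2)
    rwa [Finset.card_univ] at this
  have h5 : (Fintype.card ι : ℝ) * a ^ j ≤ ∑ k : Sym A j, ∑ f, z k f ^ 2 := by
    rw [Finset.sum_comm]
    have e4 : ∀ f, a ^ j ≤ ∑ k : Sym A j, z k f ^ 2 := by
      intro f
      have e5 := h1 f f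
      have e6 : ∑ i, x i f * x i f = ∑ i, x i f ^ 2 :=
        Finset.sum_congr rfl fun i _ => (sq (x i f)).symm
      have e7 : ∑ k : Sym A j, z k f * z k f = ∑ k : Sym A j, z k f ^ 2 :=
        Finset.sum_congr rfl fun k _ => (sq (z k f)).symm
      rw [e6, e7] at e5
      rw [← e5]
      exact pow_le_pow_left₀ ha0 (ha f) j
    calc (Fintype.card ι : ℝ) * a ^ j = ∑ _f : ι, a ^ j := by
          rw [Finset.sum_const, Finset.card_univ, nsmul_eq_mul]
      _ ≤ _ := Finset.sum_le_sum fun f _ => e4 f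
  rw [h2]
  have h6 : (Fintype.card (Sym A j) : ℝ) = ((Fintype.card A + j - 1).choose j : ℝ) := by
    rw [Sym.card_sym_eq_choose]
  rw [← h6]
  calc ((Fintype.card ι : ℝ) * a ^ j) ^ 2 ≤ (∑ k : Sym A j, ∑ f, z k f ^ 2) ^ 2 :=
        pow_le_pow_left₀ (by positivity) h5 2
    _ ≤ _ := h4
    _ ≤ _ := mul_le_mul_of_nonneg_left h3 (Nat.cast_nonneg _)

end Pool.Agent.Lib.MP_7ab245_nt.Cnt4
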