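import Pool.Agent.Lib.MP_7ab245_nt.Cnt4.Irr4
import Pool.Agent.Lib.MP_7ab245_nt.Cnt3.Zb

/-!
C4-Z4: the total weight of the irreducible polynomials of degree at most `n` and Mahler measure in `(1, T]`.

PROOF. `C1` from irr4; `e := exp 1`. `wt a b f = exp (-(a log M(f) + b deg f))`. Split `H` into three parts.
(i) degree `0`: `h = C c`, `|c| = M(h) ≥ 2`, weight `|c|^(-a) ≤ c^(-2)` (`a ≥ 2`); sum `≤ 2 ∑_{c ≥ 2} c^(-2) ≤ 2`.
(ii) degree `d ≥ 1`, `M(h) < e`: `r := ⌊1 / log M(h)⌋₊ ∈ [1, R]`, `1/(2r) ≤ log M(h) ≤ 1/r` (as in Z_le, Cnt3/Zb.lean), `M(h)^r ≤ e`; by irr4 at most `C1 (d r)^9 exp (C1 K0 d r e)`,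
`K0 d r e = e² √(1 + 2d/r) ≤ e² + e² √(2d/r)`, and `C1 e² √(2d/r) ≤ b d + C1² e⁴/(2 b r) ≤ b d + a/(2r)` by AM-GM (`2√(xy) ≤ x + y`) and `a b ≥ B² T⁴ ≥ C1² e⁴` (`b > 0`). So the class `(d, r)` has total weight `≤ C1 (n R)^9 exp (C1 e²)`.
(iii) degree `d ≥ 1`, `M(h) ≥ e`: `j := ⌊log M(h)⌋₊ ∈ [1, n]` (`log T ≤ n`), `e^j ≤ M(h) ≤ e^(j+1)`; irr4 with `r = 1`, `T := e^(j+1)`: at most `C1 d^9 exp (C1 K0)`, `K0 = e^(2j+2) √(1 + d (j+2)) ≤ e^(2j+2) + e^(2j+2) √(d (j+2))`,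
`C1 e^(2j+2) ≤ C1 e² T² ≤ (a/2) j` (`a ≥ B T²`, `B ≥ 2 C1 e²`) and `C1 e^(2j+2) √(d (j+2)) ≤ b d + C1² e^(4j+4) (j+2)/(4b) ≤ b d + (3/4) C1² e⁴ T⁴ j / b ≤ b d + (a/2) j` (`e^(4j) ≤ T⁴`, `j + 2 ≤ 3j`, `a b ≥ B² T⁴ ≥ 2 C1² e⁴ T⁴`).
The weight of `h` is `≤ exp (-(a j + b d))`. So the class `(d, j)` has total weight `≤ C1 n^9`.
Number of classes `≤ n R + n² `; total `≤ C (n (R+1))^11`. `coeff 0 ≠ 0`: an irreducible polynomial with `coeff 0 = 0` is `± X`, `M = 1`, excluded (or: `X ∣ h`).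
`B := 2 + 2 C1 e²` (any constant with `B ≥ 2`, `B ≥ 2 C1 e²`, `B² ≥ 2 C1² e⁴`).
-/

set_option autoImplicit false

open Polynomial Finset

namespace Pool.Agent.Lib.MP_7ab245_nt.Cnt4

open Pool.Agent.Lib.MP_7ab245_nt Pool.Agent.Lib.MP_7ab245_nt.Cnt3

private theorem z4_coeff {h : ℤ[X]} (hirr : Irreducible h)
    (h1 : 1 < Pool.Agent.Lib.MP_7ab245_nt.MM h) : h.coeff 0 ≠ 0 := by
  intro h0
  obtain ⟨g, hg⟩ := X_dvd_iff.2 h0
  have hg1 : IsUnit g := by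
    rcases hirr.isUnit_or_isUnit hg with h2 | h2
    · exact absurd h2 not_isUnit_X
    · exact h2
  obtain ⟨c, hc, hcg⟩ := Polynomial.isUnit_iff.1 hg1
  have hMg : Pool.Agent.Lib.MP_7ab245_nt.MM g = 1 := by
    rw [← hcg, MM_Cc]
    rcases Int.isUnit_iff.1 hc with h3 | h3 <;> rw [h3] <;> simp
  have hMX : Pool.Agent.Lib.MP_7ab245_nt.MM (X : ℤ[X]) = 1 := by
    unfold Pool.Agent.Lib.MP_7ab245_nt.MM
    rw [Polynomial.map_X]
    have := mahlerMeasure_X_sub_C (0 : ℂ)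
    simpa using this
  rw [hg, MM_mulc, hMX, hMg] at h1
  norm_num at h1

private theorem z4_key (A a b d x : ℝ) (hA : 0 ≤ A) (hb : 0 < b) (hd : 0 ≤ d) (hx : 0 ≤ x)
    (hAb : A ^ 2 ≤ a * b / 4) : A * √(1 + d * x) ≤ A + b * d + a * x / 16 := by
  have h1 : √(1 + d * x) ≤ 1 + √(d * x) := by
    rw [Real.sqrt_le_left (by positivity)]
    have h2 := Real.sq_sqrt (mul_nonneg hd hx)
    have h3 := Real.sqrt_nonneg (d * x)
    nlinarith
  have h4 : √(d * x) = √d * √x := Real.sqrt_mul hd x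
  have h5 := Real.sq_sqrt hd
  have h6 := Real.sq_sqrt hx
  have h7 : A * (√d * √x) ≤ b * d + A ^ 2 * x / (4 * b) := by
    have h8 : b * d + A ^ 2 * x / (4 * b) - A * (√d * √x) =
        (2 * b * √d - A * √x) ^ 2 / (4 * b) := by
      have h9 : b * d + A ^ 2 * x / (4 * b) - A * (√d * √x) =
        b * √d ^ 2 + A ^ 2 * √x ^ 2 / (4 * b) - A * (√d * √x) := by rw [h5, h6]
      rw [h9]
      field_simp
      ring
    have h10 : 0 ≤ (2 * b * √d - A * √x) ^ 2 / (4 * b) := by positivity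
    linarith
  have h11 : A ^ 2 * x / (4 * b) ≤ a * x / 16 := by
    rw [div_le_div_iff₀ (by positivity) (by norm_num)]
    nlinarith [mul_le_mul_of_nonneg_right hAb hx]
  calc A * √(1 + d * x) ≤ A * (1 + √(d * x)) := mul_le_mul_of_nonneg_left h1 hA
    _ = A + A * (√d * √x) := by rw [h4]; ring
    _ ≤ A + b * d + a * x / 16 := by linarith

private theorem z4_const : ∃ C : ℝ, 0 < C ∧ ∀ a b : ℝ, 2 ≤ a → ∀ H : Finset ℤ[X],
    (∀ h ∈ H, h.natDegree = 0 ∧ 1 < Pool.Agent.Lib.MP_7ab245_nt.MM h) →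
    ∑ h ∈ H, wt a b h ≤ C := by
  classical
  have hs : Summable fun c : ℤ => 1 / (c : ℝ) ^ 2 :=
    Real.summable_one_div_int_pow.2 (by norm_num)
  have hnn : ∀ c : ℤ, 0 ≤ 1 / (c : ℝ) ^ 2 := fun c => by positivity
  refine ⟨(∑' c : ℤ, 1 / (c : ℝ) ^ 2) + 1, ?_, ?_⟩
  · have h0 : 0 ≤ ∑' c : ℤ, 1 / (c : ℝ) ^ 2 := tsum_nonneg hnn
    linarith
  intro a b ha H hH
  have h1 : ∀ h ∈ H, wt a b h ≤ 1 / ((h.coeff 0 : ℤ) : ℝ) ^ 2 := by
    intro h hh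
    obtain ⟨hd, hM⟩ := hH h hh
    have hC : Pool.Agent.Lib.MP_7ab245_nt.MM h = |((h.coeff 0 : ℤ) : ℝ)| := by
      have h2 : Pool.Agent.Lib.MP_7ab245_nt.MM h =
          Pool.Agent.Lib.MP_7ab245_nt.MM (C (h.coeff 0) : ℤ[X]) := by
        rw [← eq_C_of_natDegree_eq_zero hd]
      rw [h2, MM_Cc]
    rw [hC] at hM
    have hpos : 0 < |((h.coeff 0 : ℤ) : ℝ)| := lt_trans one_pos hM
    have hl : 0 ≤ Real.log |((h.coeff 0 : ℤ) : ℝ)| := Real.log_nonneg hM.le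
    unfold wt
    rw [hd, hC]
    have e1 : Real.exp (2 * Real.log |((h.coeff 0 : ℤ) : ℝ)|) = ((h.coeff 0 : ℤ) : ℝ) ^ 2 := by
      rw [two_mul, Real.exp_add, Real.exp_log hpos, ← sq_abs]
      ring
    calc Real.exp (-(a * Real.log |((h.coeff 0 : ℤ) : ℝ)| + b * ((0 : ℕ) : ℝ)))
        ≤ Real.exp (-(2 * Real.log |((h.coeff 0 : ℤ) : ℝ)|)) := by
          apply Real.exp_le_exp.2
          push_cast
          have := mul_le_mul_of_nonneg_right ha hl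
          linarith
      _ = 1 / ((h.coeff 0 : ℤ) : ℝ) ^ 2 := by
          rw [Real.exp_neg, e1, one_div]
  have h2 : Set.InjOn (fun h : ℤ[X] => h.coeff 0) (H : Set ℤ[X]) := by
    intro f hf g hg hfg
    dsimp only at hfg
    rw [eq_C_of_natDegree_eq_zero (hH f (Finset.mem_coe.1 hf)).1,
      eq_C_of_natDegree_eq_zero (hH g (Finset.mem_coe.1 hg)).1, hfg]
  calc ∑ h ∈ H, wt a b h ≤ ∑ h ∈ H, 1 / ((h.coeff 0 : ℤ) : ℝ) ^ 2 := Finset.sum_le_sum h1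
    _ = ∑ c ∈ H.image (fun h : ℤ[X] => h.coeff 0), 1 / (c : ℝ) ^ 2 :=
        (Finset.sum_image (f := fun c : ℤ => 1 / (c : ℝ) ^ 2) h2).symm
    _ ≤ ∑' c : ℤ, 1 / (c : ℝ) ^ 2 := hs.sum_le_tsum _ fun c _ => hnn c
    _ ≤ (∑' c : ℤ, 1 / (c : ℝ) ^ 2) + 1 := by linarith

/-- the hypothesis on `C1` is `irr4` -/
private theorem z4_mid (C1 : ℝ) (hC1 : 0 < C1)
    (hirr4 : ∀ (d r : ℕ) (T : ℝ), 1 ≤ d → 1 ≤ r → 1 ≤ T → ∀ F : Finset (Polynomial ℤ),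
      (∀ f ∈ F, Irreducible f ∧ f.natDegree = d ∧ f.coeff 0 ≠ 0 ∧ Cnt.MM f ^ r ≤ T) →
      (F.card : ℝ) ≤ C1 * ((d : ℝ) * r) ^ 9 * Real.exp (C1 * K0 d r T))
    (n R : ℕ) (a b : ℝ) (hn : 1 ≤ n) (hb : 0 < b) (ha : 0 ≤ a)
    (hab : (C1 * Real.exp 1 ^ 2) ^ 2 ≤ a * b / 4) (H : Finset ℤ[X])
    (hH : ∀ h ∈ H, Irreducible h ∧ 1 ≤ h.natDegree ∧ h.natDegree ≤ n ∧
      1 < Pool.Agent.Lib.MP_7ab245_nt.MM h ∧ Pool.Agent.Lib.MP_7ab245_nt.MM h < Real.exp 1 ∧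
      ⌊1 / Real.log (Pool.Agent.Lib.MP_7ab245_nt.MM h)⌋₊ ≤ R) :
    ∑ h ∈ H, wt a b h ≤
      (n : ℝ) * R * (C1 * ((n : ℝ) * R) ^ 9 * Real.exp (C1 * Real.exp 1 ^ 2)) := by
  classical
  have _ := hn
  have hmaps : ∀ h ∈ H, ((h.natDegree, ⌊1 / Real.log (Pool.Agent.Lib.MP_7ab245_nt.MM h)⌋₊) : ℕ × ℕ) ∈
      Icc 1 n ×ˢ Icc 1 R := by
    intro h hh
    obtain ⟨hirr, hd1, hd, h1, h2, hR⟩ := hH h hh
    have hl : 0 < Real.log (Pool.Agent.Lib.MP_7ab245_nt.MM h) := Real.log_pos h1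
    have hl1 : Real.log (Pool.Agent.Lib.MP_7ab245_nt.MM h) ≤ 1 := by
      rw [Real.log_le_iff_le_exp (lt_trans one_pos h1)]
      exact h2.le
    rw [mem_product, mem_Icc, mem_Icc]
    refine ⟨⟨hd1, hd⟩, ?_, ?_⟩
    · apply Nat.le_floor
      rw [Nat.cast_one, le_div_iff₀ hl]
      linarith
    · exact hR
  have hfib : ∀ p ∈ Icc 1 n ×ˢ Icc 1 R,
      ∑ h ∈ H with (h.natDegree, ⌊1 / Real.log (Pool.Agent.Lib.MP_7ab245_nt.MM h)⌋₊) = p,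
        wt a b h ≤ C1 * ((n : ℝ) * R) ^ 9 * Real.exp (C1 * Real.exp 1 ^ 2) := by
    rintro ⟨d, r⟩ hp
    rw [mem_product, mem_Icc, mem_Icc] at hp
    obtain ⟨⟨hd1, hdn⟩, hr1, hrR⟩ := hp
    dsimp only at hd1 hdn hr1 hrR
    have hr0 : (0 : ℝ) < r := by exact_mod_cast hr1
    have hr1' : (1 : ℝ) ≤ r := by exact_mod_cast hr1
    set G := H.filter (fun h => (h.natDegree,
      ⌊1 / Real.log (Pool.Agent.Lib.MP_7ab245_nt.MM h)⌋₊) = (d, r)) with hG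
    have hGp : ∀ h ∈ G, Irreducible h ∧ h.natDegree = d ∧
        Real.log (Pool.Agent.Lib.MP_7ab245_nt.MM h) ≤ 1 / r ∧
        1 / (2 * r) ≤ Real.log (Pool.Agent.Lib.MP_7ab245_nt.MM h) ∧
        1 < Pool.Agent.Lib.MP_7ab245_nt.MM h := by
      intro h hh
      rw [hG, mem_filter, Prod.mk.injEq] at hh
      obtain ⟨hh, hd, hr⟩ := hh
      obtain ⟨hirr, -, -, h1, h2, -⟩ := hH h hh
      have hl : 0 < Real.log (Pool.Agent.Lib.MP_7ab245_nt.MM h) := Real.log_pos h1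
      refine ⟨hirr, hd, ?_, ?_, h1⟩
      · have h3 : (r : ℝ) ≤ 1 / Real.log (Pool.Agent.Lib.MP_7ab245_nt.MM h) := by
          rw [← hr]
          exact Nat.floor_le (by positivity)
        rw [le_div_iff₀ hl] at h3
        rw [le_div_iff₀ hr0]
        linarith
      · have h3 : 1 / Real.log (Pool.Agent.Lib.MP_7ab245_nt.MM h) < r + 1 := by
          rw [← hr]
          exact Nat.lt_floor_add_one _
        rw [div_lt_iff₀ hl] at h3
        rw [div_le_iff₀ (by positivity)]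
        nlinarith
    have hwt : ∀ h ∈ G, wt a b h ≤ Real.exp (-(a / (2 * r) + b * d)) := by
      intro h hh
      obtain ⟨-, hd, -, h4, -⟩ := hGp h hh
      unfold wt
      rw [hd]
      apply Real.exp_le_exp.mpr
      have h5 := mul_le_mul_of_nonneg_left h4 ha
      have h6 : a * (1 / (2 * (r : ℝ))) = a / (2 * r) := by ring
      linarith
    have hcard : (G.card : ℝ) ≤ C1 * ((d : ℝ) * r) ^ 9 *
        Real.exp (C1 * K0 d r (Real.exp 1)) := by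
      apply hirr4 d r (Real.exp 1) hd1 hr1 (Real.one_le_exp (by norm_num)) G
      intro h hh
      obtain ⟨hirr, hd, h3, -, h5⟩ := hGp h hh
      refine ⟨hirr, hd, z4_coeff hirr h5, ?_⟩
      rw [cntMM]
      have h6 : 0 < Pool.Agent.Lib.MP_7ab245_nt.MM h := lt_trans one_pos h5
      rw [← Real.log_le_iff_le_exp (by positivity), Real.log_pow]
      rw [le_div_iff₀ hr0] at h3
      linarith
    have hK : C1 * K0 d r (Real.exp 1) ≤ C1 * Real.exp 1 ^ 2 + (a / (2 * r) + b * d) := by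
      have h7 := z4_key (C1 * Real.exp 1 ^ 2) a b d (2 / r) (by positivity) hb (Nat.cast_nonneg d)
        (by positivity) hab
      have h8 : C1 * K0 d r (Real.exp 1) = C1 * Real.exp 1 ^ 2 * √(1 + (d : ℝ) * (2 / r)) := by
        unfold K0 e0
        rw [Real.log_exp, mul_assoc]
        congr 4
        ring
      have h9 : a * (2 / (r : ℝ)) / 16 ≤ a / (2 * r) := by
        have h10 : a * (2 / (r : ℝ)) / 16 = a / (2 * r) * (1 / 4) := by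
          ring
        have h11 : 0 ≤ a / (2 * (r : ℝ)) := by positivity
        rw [h10]
        linarith
      rw [h8]
      linarith
    have hdR : (d : ℝ) * r ≤ (n : ℝ) * R := by
      have h12 : (d : ℝ) ≤ n := by exact_mod_cast hdn
      have h13 : (r : ℝ) ≤ R := by exact_mod_cast hrR
      exact mul_le_mul h12 h13 hr0.le (Nat.cast_nonneg n)
    calc ∑ h ∈ G, wt a b h ≤ ∑ h ∈ G, Real.exp (-(a / (2 * r) + b * d)) := Finset.sum_le_sum hwt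
      _ = G.card * Real.exp (-(a / (2 * r) + b * d)) := by
          rw [Finset.sum_const, nsmul_eq_mul]
      _ ≤ (C1 * ((n : ℝ) * R) ^ 9 * (Real.exp (C1 * Real.exp 1 ^ 2) *
            Real.exp (a / (2 * r) + b * d))) * Real.exp (-(a / (2 * r) + b * d)) := by
          apply mul_le_mul_of_nonneg_right _ (Real.exp_pos _).le
          refine hcard.trans ?_
          rw [← Real.exp_add]
          gcongr
      _ = C1 * ((n : ℝ) * R) ^ 9 * Real.exp (C1 * Real.exp 1 ^ 2) := by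
          rw [mul_assoc, mul_assoc (Real.exp (C1 * Real.exp 1 ^ 2)), ← Real.exp_add,
            add_neg_cancel, Real.exp_zero, mul_one]
  calc ∑ h ∈ H, wt a b h
      = ∑ p ∈ Icc 1 n ×ˢ Icc 1 R,
          ∑ h ∈ H with (h.natDegree, ⌊1 / Real.log (Pool.Agent.Lib.MP_7ab245_nt.MM h)⌋₊) = p,
            wt a b h := (Finset.sum_fiberwise_of_maps_to hmaps _).symm
    _ ≤ ∑ p ∈ Icc 1 n ×ˢ Icc 1 R, (C1 * ((n : ℝ) * R) ^ 9 * Real.exp (C1 * Real.exp 1 ^ 2)) :=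
        Finset.sum_le_sum hfib
    _ = _ := by
        rw [Finset.sum_const, Finset.card_product, Nat.card_Icc, Nat.card_Icc, nsmul_eq_mul]
        push_cast
        ring

private theorem z4_big (C1 : ℝ) (hC1 : 0 < C1)
    (hirr4 : ∀ (d r : ℕ) (T : ℝ), 1 ≤ d → 1 ≤ r → 1 ≤ T → ∀ F : Finset (Polynomial ℤ),
      (∀ f ∈ F, Irreducible f ∧ f.natDegree = d ∧ f.coeff 0 ≠ 0 ∧ Cnt.MM f ^ r ≤ T) →
      (F.card : ℝ) ≤ C1 * ((d : ℝ) * r) ^ 9 * Real.exp (C1 * K0 d r T))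
    (n : ℕ) (T a b : ℝ) (hT : 1 ≤ T) (hTn : Real.log T ≤ n) (hb : 0 < b)
    (ha1 : 2 * (C1 * (Real.exp 1 ^ 2 * T ^ 2)) ≤ a)
    (hab : (C1 * (Real.exp 1 ^ 2 * T ^ 2)) ^ 2 ≤ a * b / 4) (H : Finset ℤ[X])
    (hH : ∀ h ∈ H, Irreducible h ∧ 1 ≤ h.natDegree ∧ h.natDegree ≤ n ∧
      Real.exp 1 ≤ Pool.Agent.Lib.MP_7ab245_nt.MM h ∧ Pool.Agent.Lib.MP_7ab245_nt.MM h ≤ T) :
    ∑ h ∈ H, wt a b h ≤ (n : ℝ) * n * (C1 * (n : ℝ) ^ 9) := by
  classical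
  have ha : 0 ≤ a := le_trans (by positivity) ha1
  have hone : ∀ h ∈ H, 1 < Pool.Agent.Lib.MP_7ab245_nt.MM h ∧
      1 ≤ Real.log (Pool.Agent.Lib.MP_7ab245_nt.MM h) ∧
      Real.log (Pool.Agent.Lib.MP_7ab245_nt.MM h) ≤ Real.log T := by
    intro h hh
    obtain ⟨-, -, -, h1, h2⟩ := hH h hh
    have h3 : (1 : ℝ) < Real.exp 1 := Real.one_lt_exp_iff.2 one_pos
    have h4 : 1 < Pool.Agent.Lib.MP_7ab245_nt.MM h := lt_of_lt_of_le h3 h1
    refine ⟨h4, ?_, Real.log_le_log (lt_trans one_pos h4) h2⟩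
    rw [Real.le_log_iff_exp_le (lt_trans one_pos h4)]
    exact h1
  have hmaps : ∀ h ∈ H, ((h.natDegree, ⌊Real.log (Pool.Agent.Lib.MP_7ab245_nt.MM h)⌋₊) : ℕ × ℕ) ∈
      Icc 1 n ×ˢ Icc 1 n := by
    intro h hh
    obtain ⟨-, hd1, hd, -, -⟩ := hH h hh
    obtain ⟨-, h2, h3⟩ := hone h hh
    rw [mem_product, mem_Icc, mem_Icc]
    refine ⟨⟨hd1, hd⟩, ?_, ?_⟩
    · apply Nat.le_floor
      rw [Nat.cast_one]
      exact h2
    · exact Nat.floor_le_of_le (h3.trans hTn)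
  have hfib : ∀ p ∈ Icc 1 n ×ˢ Icc 1 n,
      ∑ h ∈ H with (h.natDegree, ⌊Real.log (Pool.Agent.Lib.MP_7ab245_nt.MM h)⌋₊) = p,
        wt a b h ≤ C1 * (n : ℝ) ^ 9 := by
    rintro ⟨d, j⟩ hp
    rw [mem_product, mem_Icc, mem_Icc] at hp
    obtain ⟨⟨hd1, hdn⟩, hj1, hjn⟩ := hp
    dsimp only at hd1 hdn hj1 hjn
    have hj1' : (1 : ℝ) ≤ j := by exact_mod_cast hj1
    set G := H.filter (fun h => (h.natDegree,
      ⌊Real.log (Pool.Agent.Lib.MP_7ab245_nt.MM h)⌋₊) = (d, j)) with hG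
    have hGp : ∀ h ∈ G, Irreducible h ∧ h.natDegree = d ∧
        Real.log (Pool.Agent.Lib.MP_7ab245_nt.MM h) ≤ j + 1 ∧
        (j : ℝ) ≤ Real.log (Pool.Agent.Lib.MP_7ab245_nt.MM h) ∧
        1 < Pool.Agent.Lib.MP_7ab245_nt.MM h ∧
        Real.log (Pool.Agent.Lib.MP_7ab245_nt.MM h) ≤ Real.log T := by
      intro h hh
      rw [hG, mem_filter, Prod.mk.injEq] at hh
      obtain ⟨hh, hd, hr⟩ := hh
      obtain ⟨hirr, -, -, -, -⟩ := hH h hh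
      obtain ⟨h1, h2, h3⟩ := hone h hh
      refine ⟨hirr, hd, ?_, ?_, h1, h3⟩
      · rw [← hr]
        exact (Nat.lt_floor_add_one _).le
      · rw [← hr]
        exact Nat.floor_le (by linarith)
    rcases G.eq_empty_or_nonempty with hGe | ⟨h0, hh0⟩
    · rw [hGe, Finset.sum_empty]
      positivity
    have hjT : Real.exp j ≤ T := by
      obtain ⟨-, -, -, h4, -, h5⟩ := hGp h0 hh0
      rw [← Real.le_log_iff_exp_le (lt_of_lt_of_le one_pos hT)]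
      linarith
    have hwt : ∀ h ∈ G, wt a b h ≤ Real.exp (-(a * j + b * d)) := by
      intro h hh
      obtain ⟨-, hd, -, h4, -⟩ := hGp h hh
      unfold wt
      rw [hd]
      apply Real.exp_le_exp.mpr
      have h5 := mul_le_mul_of_nonneg_left h4 ha
      linarith
    have hcard : (G.card : ℝ) ≤ C1 * ((d : ℝ) * (1 : ℕ)) ^ 9 *
        Real.exp (C1 * K0 d 1 (Real.exp (j + 1))) := by
      apply hirr4 d 1 (Real.exp (j + 1)) hd1 le_rfl (Real.one_le_exp (by linarith)) G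
      intro h hh
      obtain ⟨hirr, hd, h3, -, h5, -⟩ := hGp h hh
      refine ⟨hirr, hd, z4_coeff hirr h5, ?_⟩
      rw [cntMM, pow_one]
      rw [← Real.log_le_iff_le_exp (lt_trans one_pos h5)]
      exact h3
    have hK : C1 * K0 d 1 (Real.exp (j + 1)) ≤ a * j + b * d := by
      have hE : Real.exp ((j : ℝ) + 1) ^ 2 ≤ Real.exp 1 ^ 2 * T ^ 2 := by
        rw [Real.exp_add, mul_pow, mul_comm]
        gcongr
      have hA : C1 * Real.exp ((j : ℝ) + 1) ^ 2 ≤ C1 * (Real.exp 1 ^ 2 * T ^ 2) :=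
        mul_le_mul_of_nonneg_left hE hC1.le
      have hA2 : (C1 * Real.exp ((j : ℝ) + 1) ^ 2) ^ 2 ≤ a * b / 4 :=
        (pow_le_pow_left₀ (by positivity) hA 2).trans hab
      have h7 := z4_key (C1 * Real.exp ((j : ℝ) + 1) ^ 2) a b d (j + 2) (by positivity) hb
        (Nat.cast_nonneg d) (by positivity) hA2
      have h8 : C1 * K0 d 1 (Real.exp (j + 1)) =
          C1 * Real.exp ((j : ℝ) + 1) ^ 2 * √(1 + (d : ℝ) * (j + 2)) := by
        unfold K0 e0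
        rw [Real.log_exp, mul_assoc]
        congr 4
        push_cast
        ring
      rw [h8]
      have h9 : a ≤ a * j := le_mul_of_one_le_right ha hj1'
      nlinarith
    have hdR : (d : ℝ) * (1 : ℕ) ≤ n := by
      push_cast
      have h12 : (d : ℝ) ≤ n := by exact_mod_cast hdn
      linarith
    calc ∑ h ∈ G, wt a b h ≤ ∑ h ∈ G, Real.exp (-(a * j + b * d)) := Finset.sum_le_sum hwt
      _ = G.card * Real.exp (-(a * j + b * d)) := by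
          rw [Finset.sum_const, nsmul_eq_mul]
      _ ≤ (C1 * (n : ℝ) ^ 9 * Real.exp (a * j + b * d)) * Real.exp (-(a * j + b * d)) := by
          apply mul_le_mul_of_nonneg_right _ (Real.exp_pos _).le
          refine hcard.trans ?_
          gcongr
      _ = C1 * (n : ℝ) ^ 9 := by
          rw [mul_assoc, ← Real.exp_add, add_neg_cancel, Real.exp_zero, mul_one]
  calc ∑ h ∈ H, wt a b h
      = ∑ p ∈ Icc 1 n ×ˢ Icc 1 n,
          ∑ h ∈ H with (h.natDegree, ⌊Real.log (Pool.Agent.Lib.MP_7ab245_nt.MM h)⌋₊) = p,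
            wt a b h := (Finset.sum_fiberwise_of_maps_to hmaps _).symm
    _ ≤ ∑ p ∈ Icc 1 n ×ˢ Icc 1 n, (C1 * (n : ℝ) ^ 9) := Finset.sum_le_sum hfib
    _ = _ := by
        rw [Finset.sum_const, Finset.card_product, Nat.card_Icc, nsmul_eq_mul]
        push_cast
        ring

theorem z4 : ∃ C B : ℝ, 0 < C ∧ 0 < B ∧ ∀ (n R : ℕ) (T a b : ℝ), 1 ≤ n → 1 ≤ T →
    Real.log T ≤ n → 0 < b → B * T ^ 2 ≤ a → B ^ 2 * T ^ 4 ≤ a * b → ∀ H : Finset ℤ[X],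
    (∀ h ∈ H, Irreducible h ∧ h.natDegree ≤ n ∧ 1 < Pool.Agent.Lib.MP_7ab245_nt.MM h ∧
      Pool.Agent.Lib.MP_7ab245_nt.MM h ≤ T ∧
      ⌊1 / Real.log (Pool.Agent.Lib.MP_7ab245_nt.MM h)⌋₊ ≤ R) →
    ∑ h ∈ H, wt a b h ≤ C * ((n : ℝ) * (R + 1)) ^ 11 := by
  classical
  obtain ⟨C1, hC1, hirr4⟩ := irr4
  obtain ⟨C2, hC2, hconst⟩ := z4_const
  refine ⟨C2 + C1 * Real.exp (C1 * Real.exp 1 ^ 2) + C1, 2 + 2 * (C1 * Real.exp 1 ^ 2),
    by positivity, by positivity, ?_⟩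
  intro n R T a b hn hT hTn hb ha hab H hH
  have hT2 : 1 ≤ T ^ 2 := one_le_pow₀ hT
  have hT4 : 1 ≤ T ^ 4 := one_le_pow₀ hT
  have hX : 0 < C1 * Real.exp 1 ^ 2 := by positivity
  have ha2 : 2 ≤ a := by nlinarith
  have ha1 : 2 * (C1 * (Real.exp 1 ^ 2 * T ^ 2)) ≤ a := by
    have h1 : 2 * (C1 * (Real.exp 1 ^ 2 * T ^ 2)) ≤ (2 + 2 * (C1 * Real.exp 1 ^ 2)) * T ^ 2 := by
      have h2 : (2 + 2 * (C1 * Real.exp 1 ^ 2)) * T ^ 2 =
          2 * T ^ 2 + 2 * (C1 * (Real.exp 1 ^ 2 * T ^ 2)) := by ring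
      rw [h2]
      linarith
    exact h1.trans ha
  have hab2 : (C1 * (Real.exp 1 ^ 2 * T ^ 2)) ^ 2 ≤ a * b / 4 := by
    have h1 : (2 * (C1 * Real.exp 1 ^ 2)) ^ 2 ≤ (2 + 2 * (C1 * Real.exp 1 ^ 2)) ^ 2 :=
      pow_le_pow_left₀ (by positivity) (by linarith) 2
    have h2 := mul_le_mul_of_nonneg_right h1 (by positivity : (0 : ℝ) ≤ T ^ 4)
    have h3 : (C1 * (Real.exp 1 ^ 2 * T ^ 2)) ^ 2 = (2 * (C1 * Real.exp 1 ^ 2)) ^ 2 * T ^ 4 / 4 := by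
      ring
    rw [h3]
    linarith
  have hab3 : (C1 * Real.exp 1 ^ 2) ^ 2 ≤ a * b / 4 := by
    have h1 : (C1 * Real.exp 1 ^ 2) ^ 2 ≤ (C1 * (Real.exp 1 ^ 2 * T ^ 2)) ^ 2 := by
      apply pow_le_pow_left₀ (by positivity)
      have h2 : C1 * (Real.exp 1 ^ 2 * T ^ 2) = C1 * Real.exp 1 ^ 2 * T ^ 2 := by ring
      rw [h2]
      exact le_mul_of_one_le_right hX.le hT2
    exact h1.trans hab2
  have hn1 : (1 : ℝ) ≤ n := by exact_mod_cast hn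
  have hR0 : (0 : ℝ) ≤ R := Nat.cast_nonneg R
  have hY1 : 1 ≤ (n : ℝ) * (R + 1) := by nlinarith
  have hi : ∑ h ∈ H.filter (fun h => h.natDegree = 0), wt a b h ≤ C2 := by
    apply hconst a b ha2
    intro h hh
    rw [mem_filter] at hh
    exact ⟨hh.2, (hH h hh.1).2.2.1⟩
  have hii : ∑ h ∈ (H.filter (fun h => ¬ h.natDegree = 0)).filter
      (fun h => Pool.Agent.Lib.MP_7ab245_nt.MM h < Real.exp 1), wt a b h ≤
      (n : ℝ) * R * (C1 * ((n : ℝ) * R) ^ 9 * Real.exp (C1 * Real.exp 1 ^ 2)) := by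
    apply z4_mid C1 hC1 hirr4 n R a b hn hb (by linarith) hab3
    intro h hh
    rw [mem_filter, mem_filter] at hh
    obtain ⟨⟨h1, h2⟩, h3⟩ := hh
    obtain ⟨h4, h5, h6, -, h8⟩ := hH h h1
    exact ⟨h4, Nat.one_le_iff_ne_zero.2 h2, h5, h6, h3, h8⟩
  have hiii : ∑ h ∈ (H.filter (fun h => ¬ h.natDegree = 0)).filter
      (fun h => ¬ Pool.Agent.Lib.MP_7ab245_nt.MM h < Real.exp 1), wt a b h ≤
      (n : ℝ) * n * (C1 * (n : ℝ) ^ 9) := by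
    apply z4_big C1 hC1 hirr4 n T a b hT hTn hb ha1 hab2
    intro h hh
    rw [mem_filter, mem_filter] at hh
    obtain ⟨⟨h1, h2⟩, h3⟩ := hh
    obtain ⟨h4, h5, -, h7, -⟩ := hH h h1
    exact ⟨h4, Nat.one_le_iff_ne_zero.2 h2, h5, not_lt.1 h3, h7⟩
  have hsplit : ∑ h ∈ H, wt a b h = ∑ h ∈ H.filter (fun h => h.natDegree = 0), wt a b h +
      (∑ h ∈ (H.filter (fun h => ¬ h.natDegree = 0)).filter
        (fun h => Pool.Agent.Lib.MP_7ab245_nt.MM h < Real.exp 1), wt a b h +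
      ∑ h ∈ (H.filter (fun h => ¬ h.natDegree = 0)).filter
        (fun h => ¬ Pool.Agent.Lib.MP_7ab245_nt.MM h < Real.exp 1), wt a b h) := by
    rw [Finset.sum_filter_add_sum_filter_not, Finset.sum_filter_add_sum_filter_not]
  rw [hsplit]
  have e1 : C2 ≤ C2 * ((n : ℝ) * (R + 1)) ^ 11 :=
    le_mul_of_one_le_right hC2.le (one_le_pow₀ hY1)
  have hnR : (n : ℝ) * R ≤ (n : ℝ) * (R + 1) := by nlinarith
  have e2 : (n : ℝ) * R * (C1 * ((n : ℝ) * R) ^ 9 * Real.exp (C1 * Real.exp 1 ^ 2)) ≤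
      C1 * Real.exp (C1 * Real.exp 1 ^ 2) * ((n : ℝ) * (R + 1)) ^ 11 := by
    have h1 : (n : ℝ) * R * (C1 * ((n : ℝ) * R) ^ 9 * Real.exp (C1 * Real.exp 1 ^ 2)) =
        C1 * Real.exp (C1 * Real.exp 1 ^ 2) * ((n : ℝ) * R) ^ 10 := by ring
    rw [h1]
    apply mul_le_mul_of_nonneg_left _ (by positivity)
    calc ((n : ℝ) * R) ^ 10 ≤ ((n : ℝ) * (R + 1)) ^ 10 :=
          pow_le_pow_left₀ (by positivity) hnR 10
      _ ≤ ((n : ℝ) * (R + 1)) ^ 11 := pow_le_pow_right₀ hY1 (by norm_num)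
  have e3 : (n : ℝ) * n * (C1 * (n : ℝ) ^ 9) ≤ C1 * ((n : ℝ) * (R + 1)) ^ 11 := by
    have h1 : (n : ℝ) * n * (C1 * (n : ℝ) ^ 9) = C1 * (n : ℝ) ^ 11 := by ring
    rw [h1]
    apply mul_le_mul_of_nonneg_left _ hC1.le
    apply pow_le_pow_left₀ (by positivity)
    nlinarith
  have e4 : (C2 + C1 * Real.exp (C1 * Real.exp 1 ^ 2) + C1) * ((n : ℝ) * (R + 1)) ^ 11 =
      C2 * ((n : ℝ) * (R + 1)) ^ 11 +
      (C1 * Real.exp (C1 * Real.exp 1 ^ 2) * ((n : ℝ) * (R + 1)) ^ 11 +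
      C1 * ((n : ℝ) * (R + 1)) ^ 11) := by ring
  rw [e4]
  exact add_le_add (hi.trans e1) (add_le_add (hii.trans e2) (hiii.trans e3))

end Pool.Agent.Lib.MP_7ab245_nt.Cnt4
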